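import Pool.Agent.OWH.St2

/-!
# Project OWH: module AGR
-/

namespace Pool.Agent.OWH
open Pool.Agent.Lib_helper62.PToda

namespace AGR

theorem eval_congr {β : Type} [DecidableEq β] (A B : β → Bool) (T : DT β) :
    (∀ q ∈ pathOf B T, A q = B q) → T.eval A = T.eval B := by
  induction T with
  | leaf b => intro _; rfl
  | node q t0 t1 ih0 ih1 =>
    intro h
    have hq : A q = B q := h q (Finset.mem_insert_self _ _)
    simp only [DT.eval, hq]
    by_cases hb : B q = true
    · simp only [hb, if_true]
      apply ih1
      intro q' hq'
      apply h
      simp only [pathOf, hb, if_true]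
      exact Finset.mem_insert_of_mem hq'
    · simp only [hb]
      apply ih0
      intro q' hq'
      apply h
      simp only [pathOf, hb]
      exact Finset.mem_insert_of_mem hq'

theorem asks_path {β : Type} [DecidableEq β] (P : β → Prop) (B : β → Bool) (T : DT β) :
    Asks P T → ∀ q ∈ pathOf B T, P q := by
  induction T with
  | leaf b =>
    intro _ q hq
    exact absurd hq (Finset.notMem_empty q)
  | node q t0 t1 ih0 ih1 =>
    intro h q' hq'
    obtain ⟨h1, h2, h3⟩ := h
    rcases Finset.mem_insert.mp hq' with rfl | hq'
    · exact h1
    · by_cases hb : B q = true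
      · rw [if_pos hb] at hq'
        exact ih1 h3 q' hq'
      · rw [if_neg hb] at hq'
        exact ih0 h2 q' hq'

end AGR

theorem t_AGR (h : S_UNI) : S_AGR := by
  intro X A B P hA hB hP
  have key : ∀ n : ℕ, ∀ q : Adr, q.size = n → P q → A q = B q := by
    intro n
    induction n using Nat.strong_induction_on with
    | _ n ih =>
      intro q hn hq
      rcases hP q hq with h1 | ⟨e, k, x, y₀, hqe, hoth, hpath⟩
      · exact h1
      · rw [hqe]
        refine h X A B e k x y₀ (hA e k x) (hB e k x) ?_ hoth
        apply AGR.eval_congr
        intro q' hq'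
        have hs := AGR.asks_path _ B _ ((X e).asks k x) q' hq'
        have hsize : q'.size < n := by
          rw [← hn, hqe]
          have h2 : (abit X e k x y₀).size = (X e).F k * (x.length + 1) ^ (X e).c + 8 := rfl
          rw [h2]
          exact lt_of_lt_of_le hs (Nat.le_add_right _ _)
        exact ih q'.size hsize q' rfl (hpath q' hq')
  intro q hq
  exact key q.size q rfl hq

end Pool.Agent.OWH
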