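import Pool.Agent.OWH.St

/-!
# OWH, module ASK: the number of questions of a formula
-/

namespace Pool.Agent.OWH
open Pool.Agent.Lib_helper62.PToda

namespace ASKx

variable {β : Type}

lemma asks_mono {P Q : β → Prop} (h : ∀ q, P q → Q q) : ∀ T : DT β, Asks P T → Asks Q T
  | .leaf _, _ => trivial
  | .node _ t0 t1, ⟨h0, h1, h2⟩ => ⟨h _ h0, asks_mono h t0 h1, asks_mono h t1 h2⟩

lemma all_mono {P Q : β → Prop} (h : ∀ q, P q → Q q) : ∀ φ : Frm β, φ.All P → φ.All Q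
  | .test T, hT => asks_mono h T hT
  | .ex _ _ φ, hφ => fun y => all_mono h (φ y) (hφ y)
  | .all _ _ φ, hφ => fun y => all_mono h (φ y) (hφ y)

lemma tree [DecidableEq β] (T : DT β) :
    ∃ Z : Finset β, Z.card + 1 ≤ 2 ^ T.depth ∧ Asks (fun q => q ∈ Z) T := by
  induction T with
  | leaf b => exact ⟨∅, by simp [DT.depth], trivial⟩
  | node q t0 t1 h0 h1 =>
    obtain ⟨Z0, hc0, ha0⟩ := h0
    obtain ⟨Z1, hc1, ha1⟩ := h1
    refine ⟨insert q (Z0 ∪ Z1), ?_, Finset.mem_insert_self _ _, ?_, ?_⟩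
    · have e1 : (insert q (Z0 ∪ Z1)).card ≤ (Z0 ∪ Z1).card + 1 := Finset.card_insert_le _ _
      have e2 : (Z0 ∪ Z1).card ≤ Z0.card + Z1.card := Finset.card_union_le _ _
      have e3 : 2 ^ t0.depth ≤ 2 ^ (max t0.depth t1.depth) :=
        Nat.pow_le_pow_right (by norm_num) (le_max_left _ _)
      have e4 : 2 ^ t1.depth ≤ 2 ^ (max t0.depth t1.depth) :=
        Nat.pow_le_pow_right (by norm_num) (le_max_right _ _)
      have e5 : 2 ^ (DT.node q t0 t1).depth = 2 ^ (max t0.depth t1.depth) * 2 := by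
        simp only [DT.depth]
        rw [pow_succ]
      rw [e5]
      omega
    · exact asks_mono (fun r hr => Finset.mem_insert_of_mem (Finset.mem_union_left _ hr)) t0 ha0
    · exact asks_mono (fun r hr => Finset.mem_insert_of_mem (Finset.mem_union_right _ hr)) t1 ha1

lemma union [DecidableEq β] {N₀ κ₀ N κ B : ℕ} (hN : N ≤ N₀) (hκ : κ ≤ κ₀)
    (φ : (Fin κ → Fin N) → Frm β)
    (h : ∀ y, ∃ Z : Finset β, Z.card ≤ B ∧ (φ y).All (fun q => q ∈ Z)) :
    ∃ Z : Finset β, Z.card ≤ (N₀ + 1) ^ κ₀ * B ∧ ∀ y, (φ y).All (fun q => q ∈ Z) := by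
  choose Z hZ hA using h
  refine ⟨Finset.univ.biUnion Z, ?_, fun y => ?_⟩
  · have e1 : (Finset.univ.biUnion Z).card ≤ (Finset.univ : Finset (Fin κ → Fin N)).card * B :=
      Finset.card_biUnion_le_card_mul _ _ _ fun y _ => hZ y
    have e2 : (Finset.univ : Finset (Fin κ → Fin N)).card = N ^ κ := by
      rw [Finset.card_univ, Fintype.card_fun, Fintype.card_fin, Fintype.card_fin]
    rw [e2] at e1
    have e3 : N ^ κ ≤ (N₀ + 1) ^ κ₀ :=
      (Nat.pow_le_pow_left (by omega) κ).trans (Nat.pow_le_pow_right (by omega) hκ)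
    exact e1.trans (Nat.mul_le_mul_right B e3)
  · exact all_mono (fun q hq => Finset.mem_biUnion.2 ⟨y, Finset.mem_univ _, hq⟩) (φ y) (hA y)

lemma main [DecidableEq β] (N₀ κ₀ d : ℕ) (φ : Frm β) : ∀ t : ℕ, φ.Within N₀ κ₀ d t →
    ∃ Z : Finset β, Z.card ≤ ((N₀ + 1) ^ κ₀) ^ t * 2 ^ d ∧ φ.All (fun q => q ∈ Z) := by
  induction φ with
  | test T =>
    intro t h
    have hT : T.depth ≤ d := by
      cases t <;> exact h
    obtain ⟨Z, hZ, hA⟩ := tree T
    refine ⟨Z, ?_, hA⟩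
    have e1 : 2 ^ T.depth ≤ 2 ^ d := Nat.pow_le_pow_right (by norm_num) hT
    have e2 : 1 ≤ ((N₀ + 1) ^ κ₀) ^ t := Nat.one_le_iff_ne_zero.2 (by positivity)
    calc Z.card ≤ 2 ^ d := by omega
      _ = 1 * 2 ^ d := (one_mul _).symm
      _ ≤ ((N₀ + 1) ^ κ₀) ^ t * 2 ^ d := Nat.mul_le_mul_right _ e2
  | ex N κ φ ih =>
    intro t h
    cases t with
    | zero => exact absurd h (by simp [Frm.Within])
    | succ t =>
      obtain ⟨hN, hκ, hy⟩ : N ≤ N₀ ∧ κ ≤ κ₀ ∧ ∀ y, (φ y).Within N₀ κ₀ d t := h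
      obtain ⟨Z, hZ, hA⟩ := union hN hκ φ fun y => ih y t (hy y)
      refine ⟨Z, ?_, hA⟩
      rw [pow_succ', mul_assoc]
      exact hZ
  | all N κ φ ih =>
    intro t h
    cases t with
    | zero => exact absurd h (by simp [Frm.Within])
    | succ t =>
      obtain ⟨hN, hκ, hy⟩ : N ≤ N₀ ∧ κ ≤ κ₀ ∧ ∀ y, (φ y).Within N₀ κ₀ d t := h
      obtain ⟨Z, hZ, hA⟩ := union hN hκ φ fun y => ih y t (hy y)
      refine ⟨Z, ?_, hA⟩
      rw [pow_succ', mul_assoc]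
      exact hZ

end ASKx

/-- ASK: the number of questions of a formula. -/
theorem t_ASK : S_ASK := fun _ _ N₀ κ₀ d t φ h => ASKx.main N₀ κ₀ d φ t h

end Pool.Agent.OWH
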