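import Pool.Agent.OWH.St

/-!
# OWH, module BRU: formulas and algorithms as decision trees
-/

set_option autoImplicit false

namespace Pool.Agent.OWH

open Pool.Agent.Lib_helper62.PToda

namespace BRU

variable {β : Type}

/-- Continue with `T0` or `T1` according to the output of `T`. -/
def seq (T0 T1 : DT β) : DT β → DT β
  | .leaf b => if b = true then T1 else T0
  | .node q t0 t1 => .node q (seq T0 T1 t0) (seq T0 T1 t1)

theorem seq_eval (T0 T1 T : DT β) (A : β → Bool) :
    (seq T0 T1 T).eval A = if T.eval A = true then T1.eval A else T0.eval A := by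
  induction T with
  | leaf b =>
    cases b <;> rfl
  | node q t0 t1 ih0 ih1 =>
    simp only [seq, DT.eval]
    split_ifs with h
    · rw [ih1]; simp_all
    · rw [ih1]; simp_all
    · rw [ih0]; simp_all
    · rw [ih0]; simp_all

theorem seq_depth (T0 T1 T : DT β) (w : ℕ) (h0 : T0.depth ≤ w) (h1 : T1.depth ≤ w) :
    (seq T0 T1 T).depth ≤ T.depth + w := by
  induction T with
  | leaf b =>
    simp only [seq, DT.depth]
    split_ifs <;> omega
  | node q t0 t1 ih0 ih1 =>
    simp only [seq, DT.depth]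
    omega

theorem seq_asks (P : β → Prop) (T0 T1 T : DT β) (h : Asks P T) (h0 : Asks P T0)
    (h1 : Asks P T1) : Asks P (seq T0 T1 T) := by
  induction T with
  | leaf b =>
    simp only [seq]
    split_ifs <;> assumption
  | node q t0 t1 ih0 ih1 =>
    simp only [seq, Asks] at h ⊢
    exact ⟨h.1, ih0 h.2.1, ih1 h.2.2⟩

theorem or_list (P : β → Prop) (w : ℕ) (l : List (DT β))
    (h : ∀ T ∈ l, T.depth ≤ w ∧ Asks P T) :
    ∃ U : DT β, U.depth ≤ l.length * w ∧ Asks P U ∧
      ∀ A : β → Bool, U.eval A = true ↔ ∃ T ∈ l, T.eval A = true := by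
  induction l with
  | nil => exact ⟨.leaf false, by simp [DT.depth], by simp [Asks], by simp [DT.eval]⟩
  | cons T l ih =>
    obtain ⟨U, h1, h2, h3⟩ := ih fun T' hT' => h T' (List.mem_cons_of_mem _ hT')
    obtain ⟨hd, ha⟩ := h T (List.mem_cons_self)
    refine ⟨seq U (.leaf true) T, ?_, seq_asks P _ _ _ ha h2 (by simp [Asks]), fun A => ?_⟩
    · refine (seq_depth U (.leaf true) T (l.length * w) h1 (by simp [DT.depth])).trans ?_
      rw [List.length_cons, Nat.add_mul]
      omega
    · rw [seq_eval]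
      split_ifs with hT
      · simp [DT.eval, hT]
      · rw [h3 A]
        simp [hT]

theorem and_list (P : β → Prop) (w : ℕ) (l : List (DT β))
    (h : ∀ T ∈ l, T.depth ≤ w ∧ Asks P T) :
    ∃ U : DT β, U.depth ≤ l.length * w ∧ Asks P U ∧
      ∀ A : β → Bool, U.eval A = true ↔ ∀ T ∈ l, T.eval A = true := by
  induction l with
  | nil => exact ⟨.leaf true, by simp [DT.depth], by simp [Asks], by simp [DT.eval]⟩
  | cons T l ih =>
    obtain ⟨U, h1, h2, h3⟩ := ih fun T' hT' => h T' (List.mem_cons_of_mem _ hT')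
    obtain ⟨hd, ha⟩ := h T (List.mem_cons_self)
    refine ⟨seq (.leaf false) U T, ?_, seq_asks P _ _ _ ha (by simp [Asks]) h2, fun A => ?_⟩
    · refine (seq_depth (.leaf false) U T (l.length * w) (by simp [DT.depth]) h1).trans ?_
      rw [List.length_cons, Nat.add_mul]
      omega
    · rw [seq_eval]
      split_ifs with hT
      · rw [h3 A]
        simp [hT]
      · simp [DT.eval, hT]

theorem pow_count {N κ N₀ κ₀ : ℕ} (hN : N ≤ N₀) (hκ : κ ≤ κ₀) : N ^ κ ≤ (N₀ + 1) ^ κ₀ :=
  (Nat.pow_le_pow_left (by omega) κ).trans (Nat.pow_le_pow_right (by omega) hκ)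

theorem formula (P : β → Prop) (N₀ κ₀ d₀ : ℕ) : ∀ (t : ℕ) (φ : Frm β),
    φ.Within N₀ κ₀ d₀ t → φ.All P →
    ∃ U : DT β, U.depth ≤ ((N₀ + 1) ^ κ₀) ^ t * d₀ ∧ Asks P U ∧
      ∀ A : β → Bool, U.eval A = true ↔ φ.Holds A := by
  intro t
  induction t with
  | zero =>
    intro φ hw ha
    cases φ with
    | test T =>
      refine ⟨T, ?_, ?_, fun A => ?_⟩
      · simpa [Frm.Within] using hw
      · simpa [Frm.All] using ha
      · simp [Frm.Holds]
    | ex N κ φ => simp [Frm.Within] at hw
    | all N κ φ => simp [Frm.Within] at hw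
  | succ t ih =>
    intro φ hw ha
    cases φ with
    | test T =>
      refine ⟨T, ?_, ?_, fun A => ?_⟩
      · have h1 : T.depth ≤ d₀ := by simpa [Frm.Within] using hw
        refine h1.trans (Nat.le_mul_of_pos_left _ ?_)
        positivity
      · simpa [Frm.All] using ha
      · simp [Frm.Holds]
    | ex N κ φ =>
      simp only [Frm.Within] at hw
      simp only [Frm.All] at ha
      choose U h1 h2 h3 using fun y => ih (φ y) (hw.2.2 y) (ha y)
      obtain ⟨V, g1, g2, g3⟩ := or_list P (((N₀ + 1) ^ κ₀) ^ t * d₀)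
        ((Finset.univ : Finset (Fin κ → Fin N)).toList.map U) (by
          intro T hT
          rw [List.mem_map] at hT
          obtain ⟨y, _, rfl⟩ := hT
          exact ⟨h1 y, h2 y⟩)
      refine ⟨V, g1.trans ?_, g2, fun A => ?_⟩
      · rw [List.length_map, Finset.length_toList, Finset.card_univ, Fintype.card_fun,
          Fintype.card_fin, Fintype.card_fin]
        calc N ^ κ * (((N₀ + 1) ^ κ₀) ^ t * d₀)
            ≤ (N₀ + 1) ^ κ₀ * (((N₀ + 1) ^ κ₀) ^ t * d₀) :=
              Nat.mul_le_mul_right _ (pow_count hw.1 hw.2.1)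
          _ = ((N₀ + 1) ^ κ₀) ^ (t + 1) * d₀ := by ring
      · rw [g3 A]
        simp only [List.mem_map, Finset.mem_toList, Finset.mem_univ, true_and,
          exists_exists_eq_and, h3, Frm.Holds]
    | all N κ φ =>
      simp only [Frm.Within] at hw
      simp only [Frm.All] at ha
      choose U h1 h2 h3 using fun y => ih (φ y) (hw.2.2 y) (ha y)
      obtain ⟨V, g1, g2, g3⟩ := and_list P (((N₀ + 1) ^ κ₀) ^ t * d₀)
        ((Finset.univ : Finset (Fin κ → Fin N)).toList.map U) (by
          intro T hT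
          rw [List.mem_map] at hT
          obtain ⟨y, _, rfl⟩ := hT
          exact ⟨h1 y, h2 y⟩)
      refine ⟨V, g1.trans ?_, g2, fun A => ?_⟩
      · rw [List.length_map, Finset.length_toList, Finset.card_univ, Fintype.card_fun,
          Fintype.card_fin, Fintype.card_fin]
        calc N ^ κ * (((N₀ + 1) ^ κ₀) ^ t * d₀)
            ≤ (N₀ + 1) ^ κ₀ * (((N₀ + 1) ^ κ₀) ^ t * d₀) :=
              Nat.mul_le_mul_right _ (pow_count hw.1 hw.2.1)
          _ = ((N₀ + 1) ^ κ₀) ^ (t + 1) * d₀ := by ring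
      · rw [g3 A]
        simp only [List.mem_map, Finset.mem_toList, Finset.mem_univ, true_and,
          forall_exists_index, forall_apply_eq_imp_iff, h3, Frm.Holds]

theorem alg (P : β → Prop) (N₀ κ₀ d₀ t : ℕ) : ∀ (D : ℕ) (a : Alg β),
    a.Within N₀ κ₀ d₀ t D → a.All P →
    ∃ U : DT β, U.depth ≤ D + ((N₀ + 1) ^ κ₀) ^ t * d₀ ∧ Asks P U ∧
      ∀ A : β → Bool, U.eval A = true ↔ a.Accepts A := by
  intro D
  induction D with
  | zero =>
    intro a hw ha
    cases a with
    | tail φ =>
      simp only [Alg.Within] at hw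
      simp only [Alg.All] at ha
      obtain ⟨U, h1, h2, h3⟩ := formula P N₀ κ₀ d₀ t φ hw ha
      exact ⟨U, by omega, h2, fun A => by rw [h3 A]; simp [Alg.Accepts]⟩
    | read q a0 a1 => simp [Alg.Within] at hw
  | succ D ih =>
    intro a hw ha
    cases a with
    | tail φ =>
      simp only [Alg.Within] at hw
      simp only [Alg.All] at ha
      obtain ⟨U, h1, h2, h3⟩ := formula P N₀ κ₀ d₀ t φ hw ha
      exact ⟨U, by omega, h2, fun A => by rw [h3 A]; simp [Alg.Accepts]⟩
    | read q a0 a1 =>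
      simp only [Alg.Within] at hw
      simp only [Alg.All] at ha
      obtain ⟨U0, h1, h2, h3⟩ := ih a0 hw.1 ha.2.1
      obtain ⟨U1, g1, g2, g3⟩ := ih a1 hw.2 ha.2.2
      refine ⟨.node q U0 U1, ?_, ⟨ha.1, h2, g2⟩, fun A => ?_⟩
      · simp only [DT.depth]
        omega
      · simp only [DT.eval, Alg.Accepts]
        split_ifs with hq
        · exact g3 A
        · exact h3 A

theorem bound (f g t y : ℕ) (hy : 1 ≤ y) :
    f * y + ((f * y + 1) ^ g) ^ t * g ≤ ((f + 2) * y) ^ (g * t + g + 2) := by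
  set B := (f + 2) * y with hB
  have hB2 : f * y + 2 ≤ B := by
    rw [hB]
    nlinarith
  have hB1 : 2 ≤ B := by omega
  have h1 : ((f * y + 1) ^ g) ^ t ≤ B ^ (g * t) := by
    rw [← pow_mul]
    exact Nat.pow_le_pow_left (by omega) _
  have h2 : g ≤ B ^ g := (Nat.lt_pow_self (by omega : 1 < B)).le
  have h3 : ((f * y + 1) ^ g) ^ t * g ≤ B ^ (g * t + g) := by
    rw [pow_add]
    exact Nat.mul_le_mul h1 h2
  have h4 : f * y ≤ B ^ (g * t + g) * B := by
    calc f * y ≤ B := by omega
      _ = 1 * B := (one_mul B).symm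
      _ ≤ B ^ (g * t + g) * B := Nat.mul_le_mul_right _ (Nat.one_le_pow _ _ (by omega))
  have h5 : B ^ (g * t + g) ≤ B ^ (g * t + g) * B := Nat.le_mul_of_pos_right _ (by omega)
  have h6 : B ^ (g * t + g) * B + B ^ (g * t + g) * B ≤ B ^ (g * t + g + 2) := by
    rw [pow_add B (g * t + g) 2]
    have : B ^ (g * t + g) * B + B ^ (g * t + g) * B = B ^ (g * t + g) * (2 * B) := by ring
    rw [this]
    exact Nat.mul_le_mul_left _ (by nlinarith)
  omega

end BRU

theorem t_BRU : S_BRU := by
  intro t c F G a h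
  choose U h1 h2 h3 using fun k (x : List Bool) =>
    BRU.alg (fun q : Adr => q.size < F k * (x.length + 1) ^ c) (F k * (x.length + 1) ^ c) (G k)
      (G k) t (F k * (x.length + 1) ^ c) (a k x) (h k x).1 (h k x).2
  have asks_mono : ∀ (P Q : Adr → Prop), (∀ q, P q → Q q) → ∀ T : DT Adr, Asks P T → Asks Q T := by
    intro P Q hPQ T
    induction T with
    | leaf b => exact fun _ => trivial
    | node q t0 t1 ih0 ih1 => exact fun hT => ⟨hPQ q hT.1, ih0 hT.2.1, ih1 hT.2.2⟩
  refine ⟨{ c := c, F := fun k => F k + 2, G := fun k => G k * t + G k + 2, run := U,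
            asks := ?_, cost := ?_ }, fun A k x => h3 k x A⟩
  · intro k x
    refine asks_mono _ _ (fun q hq => lt_of_lt_of_le hq ?_) _ (h2 k x)
    exact Nat.mul_le_mul_right _ (by omega)
  · intro k x
    refine (h1 k x).trans ?_
    exact BRU.bound (F k) (G k) t ((x.length + 1) ^ c) (Nat.one_le_pow _ _ (by omega))

end Pool.Agent.OWH
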