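import Pool.Agent.OWH.Defs

/-!
# Project OWH (MP_95e38d_lc, OracleCollapse): statements of the modules, with proofs

OVERVIEW. Relative to the oracle `A` to be built the answer of every algorithm of the family `X` is
the parity of the block of bits `ans e k x s y`, `s` = stamp, `y ∈ [s]^(G k + 1)` (`Valid`).
Blocks are at least 8 times larger than the depth of their algorithm, and the bits of a block have
size exactly `s`, while the algorithm asks only bits of size `< s`.

Core (`S_CORE`): a formula with `r` quantifier levels over variables `U r` (the positions of a tree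
with `r+1` levels, once for `Sip` and once for every hidden block) does not notice the difference
between two inputs on which the tree has different values, and ignores one bit `loc h` of every
hidden block. Induction on `r` by the round lemma `S_RND`, which removes the lowest level of the
tree by a random projection; the formula loses one level by the projection switching lemma `S_SW`.
-/

namespace Pool.Agent.OWH
open Pool.Agent.Lib_helper62.PToda

section dt
variable {β γ : Type}

/-- The set of the questions asked on the oracle `x`. -/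
def pathOf [DecidableEq β] (x : β → Bool) : DT β → Finset β
  | .leaf _ => ∅
  | .node q t0 t1 => insert q (if x q = true then pathOf x t1 else pathOf x t0)

/-- Substitution of constants and variables for the questions. -/
def dsub (σ : β → Bool ⊕ γ) : DT β → DT γ
  | .leaf b => .leaf b
  | .node q t0 t1 => match σ q with
    | .inl true => dsub σ t1
    | .inl false => dsub σ t0
    | .inr w => .node w (dsub σ t0) (dsub σ t1)

/-- The oracle obtained from `x` by a substitution. -/
def osub (σ : β → Bool ⊕ γ) (x : γ → Bool) (q : β) : Bool := (σ q).elim id x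

/-- Substitution in formulas. -/
def Frm.sub (σ : β → Bool ⊕ γ) : Frm β → Frm γ
  | .test T => .test (dsub σ T)
  | .ex N κ φ => .ex N κ (fun y => (φ y).sub σ)
  | .all N κ φ => .all N κ (fun y => (φ y).sub σ)

end dt

/-! ## The projection switching lemma -/

section sw
variable {V W : Type}

/-- The random projection given by the state `ω`. A heavy variable (`hv v = true`) is a star if its
coordinate is `0` and has the parity of its coordinate as value otherwise. A light variable has the
neutral value `κ` of its block if its own coordinate is not `0`; otherwise it has the value `!κ` if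
the block is killed (coordinate of the block not `0`) and is a star if the block is alive. All stars
of a block are replaced by the one variable of the block. -/
def psub {R : ℕ} (blk : V → W) (hv : V → Bool) (κ : W → Bool) (ω : W ⊕ V → Fin (2 * R + 1))
    (v : V) : Bool ⊕ W :=
  if hv v = true then
    (if ω (.inr v) = 0 then .inr (blk v) else .inl (decide ((ω (.inr v) : ℕ) % 2 = 1)))
  else
    (if ω (.inr v) ≠ 0 then .inl (κ (blk v))
     else if ω (.inl (blk v)) ≠ 0 then .inl (!κ (blk v)) else .inr (blk v))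

/-- SW. Projection switching lemma. PROOF (Razborov coding). For a partial assignment `π : W →
Option Bool` of the block variables put `val ω π v = some b` if `psub ω v = inl b` and `= π w` if
`psub ω v = inr w`. TERMS: all pairs `(S, a)`,
`S : Finset V` with at most `d` elements, `a : V → Bool`, with `∀ X, (∀ v ∈ S, X v = a v) →
f X = true`, in a fixed list. `(S,a)` is falsified by `(ω, π)` if `val ω π v = some (!a v)` for
some `v ∈ S`. `Bad 0 π ω = True`; `Bad (s+1) π ω` iff there is a first term `(S,a)` not falsified by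
`(ω, π)`, the set `J` of the `v ∈ S` with `val ω π v = none` is not empty, and there is an
assignment `z` of the blocks of `J` such that `Bad s (π + z on blk '' J) ω`.
(a) If `¬ Bad s π ω` there is a tree of depth `≤ d*s` which computes `f (osub (psub ω) z)` for all
`z` extending `π` (induction: no term left: `0`; `J = ∅`: `1`; otherwise ask the blocks of `J`).
(b) COVERING. An advice is a map `Fin d → Bool × Bool`. `dec 0 π (ω', -) = (ω', -)`; `dec (s+1) π
(ω', adv)`: the first term `(S,a)` not falsified by `(ω', π)`, `J` = the elements of `S` whose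
position in `S` is marked by `adv 0`; read `c` from the coordinate of the first element `v` of `J`
(`inr v`, or `inl (blk v)` if `v` is light and `a v = !κ`): for light ones `c` = coordinate - 1, for
heavy ones `c` = (coordinate - 1)/2; set the coordinates `inr v` and, for light `v`, `inl (blk v)`,
`v ∈ J`, to `0`; add the second components of the advice to `π` as values of `blk '' J`; continue
with `s`. CLAIM: if `Bad s π ω` then for all `cs : Fin s → Fin R` there are `ω'` and `adv` with
`dec s π (ω', adv) = (ω, cs)` and `ω'` extends `ω` (that is `val ω π v = some b → val ω' π v =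
some b`, and the coordinates `inl b`, `inr v` with `b`, `blk v` in the domain of `π` are unchanged).
Step: take `ω'₁` from the induction hypothesis for `π' = π + z` and put the coordinate `inr v` (if
`v` is heavy or `a v = κ`) or `inl (blk v)` (if `v` is light and `a v = !κ`) equal to a non-zero
number which codes `c` (`c+1` for light `v`; `2c+1` or `2c+2` with the parity of `a v` for heavy
`v`), for all `v ∈ J`. These coordinates are `0` in `ω` and in `ω'₁` (their blocks are in the domain
of `π'`). Then all terms falsified by `(ω, π)` are falsified by `(ω', π)`, `(S,a)` is not, so it is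
again the first one; restoring zeros gives `ω'₁`. A variable `v` of a block of `J` which is not a
star under `ω` has a non-zero own coordinate (the block is alive), so its value does not change.
(c) Hence `#Bad * R^s ≤ #Ω * 4^(d*s)`. -/
def S_SW : Prop :=
  ∀ (V W : Type) [Fintype V] [Fintype W] [DecidableEq V] [DecidableEq W]
    (blk : V → W) (hv : V → Bool) (κ : W → Bool)
    (_ : ∀ v v', hv v = true → blk v = blk v' → v = v')
    (f : (V → Bool) → Bool) (d s R : ℕ)
    (_ : ∀ X, f X = true → ∃ S : Finset V, S.card ≤ d ∧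
      ∀ X', (∀ v ∈ S, X' v = X v) → f X' = true)
    (B : Finset (W ⊕ V → Fin (2 * R + 1)))
    (_ : ∀ ω ∈ B, ¬ ∃ T : DT W, T.depth ≤ d * s ∧ ∀ z, T.eval z = f (osub (psub blk hv κ ω) z)),
    B.card * R ^ s ≤ (2 * R + 1) ^ (Fintype.card W + Fintype.card V) * 4 ^ (d * s)

end sw

/-! ## Trees -/

/-- The positions of a tree with `r` levels of fan-in `ν` and a last level of fan-in `m`. -/
abbrev Pos (r ν m : ℕ) : Type := (Fin r → Fin ν) × Fin m

/-- The variables: the tree of `Sip` (`none`) and the hidden blocks (`some h`). -/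
abbrev U (r ν m : ℕ) (H : Type) : Type := Pos r ν m × Option H

/-- The value of the tree: level `0` is `∃`, level `1` is `∀`, ..., the last one is level `r`. -/
def Pf (r ν m : ℕ) (x : Pos r ν m → Bool) : Prop :=
  Alt ν true r (fun p => if r % 2 = 0 then ∃ j, x (p, j) = true else ∀ j, x (p, j) = true)

/-- PRB. A good state exists. PROOF. `s = a + 1`. Union bound in `I → Fin (2L+1)`:
`K * #B_i / (2L+1)^|I| ≤ L^a 4^(d s) / L^s = 4^(d(a+1)) / L < 1/2`; a set `S` of at least `L^3`
coordinates is nowhere zero for a fraction `(1 - 1/(2L+1))^|S| ≤ exp(-L^3/(2L+1)) ≤ exp(-L^2/3)` of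
the states (`(1+x)^N ≥ 1 + N x` often enough also works), and `L^a exp(-L^2/3) < 1/2` for large
`L`. -/
def S_PRB : Prop :=
  ∀ a d : ℕ, ∃ s L₀ : ℕ, ∀ L ≥ L₀, ∀ (I : Type) [Fintype I] [DecidableEq I] (K : ℕ)
    (B : Fin K → Finset (I → Fin (2 * L + 1))) (𝒮 : Finset (Finset I)),
    K ≤ L ^ a → 𝒮.card ≤ L ^ a → (∀ S ∈ 𝒮, L ^ 3 ≤ S.card) →
    (∀ i, (B i).card * L ^ s ≤ (2 * L + 1) ^ (Fintype.card I) * 4 ^ (d * s)) →
    ∃ ω : I → Fin (2 * L + 1), (∀ i, ω ∉ B i) ∧ ∀ S ∈ 𝒮, ∃ i ∈ S, ω i = 0

/-- COL. Removing the lowest level of a formula. PROOF. The `g i` are the functions given by the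
subformulas of `φ` of the form `ex _ _ (tests)` or the negations of the `all _ _ (tests)` at
nesting depth `r` (at most `((N₀+1)^κ₀)^r` of them; a tuple type has at most `(N₀+1)^κ₀` elements).
A test of depth `≤ d` which accepts `X` accepts all `X'` which agree with `X` on the path. Induction
on `r`: `r = 0`: `φ` is a test (`K = 0`), or `ex`/`all` of tests (`K = 1`); `r + 1`: a test, or
`ex`/`all` of formulas of level `r + 1`: collect the families. Tests are substituted by `dsub σ`
(depth not larger), a tree for the negation is obtained by changing the leaves. -/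
def S_COL : Prop :=
  ∀ (V : Type) (N₀ κ₀ d r : ℕ) (φ : Frm V), φ.Within N₀ κ₀ d (r + 1) →
    ∃ (K : ℕ) (g : Fin K → (V → Bool) → Bool), K ≤ ((N₀ + 1) ^ κ₀) ^ r ∧
      (∀ i X, g i X = true → ∃ S : Finset V, S.card ≤ d ∧
        ∀ X', (∀ v ∈ S, X' v = X v) → g i X' = true) ∧
      ∀ (W : Type) (σ : V → Bool ⊕ W) (w : ℕ),
        (∀ i, ∃ T : DT W, T.depth ≤ w ∧ ∀ z, T.eval z = g i (osub σ z)) →
        ∃ ψ : Frm W, ψ.Within N₀ κ₀ (max d w) r ∧ ∀ z, ψ.Holds z ↔ φ.Holds (osub σ z)

/-- The blocks of one round. -/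
abbrev Blk (r ν m : ℕ) (H : Type) : Type := (Fin (r + 1) → Fin ν) ⊕ (Pos (r + 1) ν m × H)

/-- The block of a variable: the `m` children of a position of level `r+1` of the tree of `Sip` form
a block, every variable of a hidden block is a block. -/
def blkOf {r ν m : ℕ} {H : Type} : U (r + 1) ν m H → Blk r ν m H
  | (v, none) => .inl v.1
  | (v, some h) => .inr (v, h)

/-- The heavy variables are those of the hidden blocks. -/
def hvOf {r ν m : ℕ} {H : Type} : U (r + 1) ν m H → Bool
  | (_, none) => false
  | (_, some _) => true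

/-- The neutral value of the last level `r + 1`: `true` for `∀` (odd), `false` for `∃` (even). -/
def κOf {r ν m : ℕ} {H : Type} : Blk r ν m H → Bool := fun _ => decide ((r + 1) % 2 = 1)

/-- TRE. The tree under a good projection. PROOF. `ν = m * g`; group of `i : Fin ν` is `i / g`.
Choose for all `(p', i')` an `i = sel p' i'` in the group `i'` with block coordinate `0`, and for all
`(p', i', h)` a star `((snoc p' i, j), some h)`, `i` in the group `i'`. `ρ (inl p) = inr ((p', i'),
none)` if `p = snoc p' (sel p' i')`, otherwise `inl (!κ)`; `ρ (inr (v, h)) = inr ((p', i'), some h)`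
if `v` is the chosen star of `(p', i', h)`, otherwise `inl false`. (a) For `X = osub (psub ω) (osub ρ
x)` the value of the last level at `p` (`∃ j` or `∀ j` of `X ((p,j),none)`) is: `κ`-variables are
neutral, there is a variable with own coordinate `0`: so it is `!κ` if the block is killed and
`osub ρ x (inl p)` if it is alive; that is `x ((p',i'),none)` for chosen `p` and `!κ` for all the
other `p`, the neutral value of level `r`. Now `Alt ν true (r+1) P = Alt ν true r (fun p' =>
[∃ or ∀ i, by the parity of r] P (snoc p' i))`. (b) is clear. -/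
def S_TRE : Prop :=
  ∀ (r m g R : ℕ) (H : Type) [DecidableEq H], 0 < g →
    ∀ ω : Blk r (m * g) m H ⊕ U (r + 1) (m * g) m H → Fin (2 * R + 1),
    (∀ p, ∃ j, ω (.inr ((p, j), none)) = 0) →
    (∀ (p' : Fin r → Fin (m * g)) (i' : Fin m), ∃ i : Fin (m * g), (i : ℕ) / g = i' ∧
      ω (.inl (.inl (Fin.snoc p' i))) = 0) →
    (∀ (p' : Fin r → Fin (m * g)) (i' : Fin m) (h : H), ∃ (i : Fin (m * g)) (j : Fin m),
      (i : ℕ) / g = i' ∧ ω (.inr ((Fin.snoc p' i, j), some h)) = 0) →
    ∃ ρ : Blk r (m * g) m H → Bool ⊕ U r (m * g) m H,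
      (∀ x, Pf (r + 1) (m * g) m
          (fun v => osub (psub blkOf hvOf κOf ω) (osub ρ x) (v, none)) ↔
        Pf r (m * g) m (fun v => x (v, none))) ∧
      (∀ (h : H) (v' : Pos r (m * g) m), ∃ v, ∀ q,
        (psub blkOf hvOf κOf ω q).elim .inl ρ = .inr (v', some h) ↔ q = (v, some h))

/-- RND. One round. `ν = L^6`, `m = L^3`, groups of `g = L^3` children, `R = L`.
PROOF. `S_COL` for `φ`, `S_SW` for the functions `g i` (`V = U (r+1) ..`, `W = Blk r ..`, `B i` = the
set of the `ω` for which `g i` is not a tree of depth `≤ d * s`), `S_PRB` with the sets of coordinates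
of the hypotheses of `S_TRE` (at least `L^3` coordinates each, at most `L^(6r + C + 20)` sets),
`S_TRE`; `τ q = (psub ω q).elim inl ρ`, `φ' = ψ.sub ρ`. -/
def S_RND : Prop :=
  ∀ r C d : ℕ, ∃ w L₀ : ℕ, ∀ L ≥ L₀, ∀ (H : Type) [Fintype H] [DecidableEq H],
    Fintype.card H ≤ L ^ C → ∀ N₀ κ₀ : ℕ, (N₀ + 1) ^ κ₀ ≤ L ^ C →
    ∀ φ : Frm (U (r + 1) (L ^ 6) (L ^ 3) H), φ.Within N₀ κ₀ d (r + 1) →
    ∃ (τ : U (r + 1) (L ^ 6) (L ^ 3) H → Bool ⊕ U r (L ^ 6) (L ^ 3) H)
      (φ' : Frm (U r (L ^ 6) (L ^ 3) H)),
      φ'.Within N₀ κ₀ w r ∧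
      (∀ x, φ'.Holds x ↔ φ.Holds (osub τ x)) ∧
      (∀ x, Pf (r + 1) (L ^ 6) (L ^ 3) (fun v => osub τ x (v, none)) ↔
        Pf r (L ^ 6) (L ^ 3) (fun v => x (v, none))) ∧
      (∀ (h : H) (v' : Pos r (L ^ 6) (L ^ 3)), ∃ v, ∀ q,
        τ q = .inr (v', some h) ↔ q = (v, some h))

/-- CORE. PROOF. Induction on `r` (for all `C, d`). `r = 0`: `φ` is a test of depth `≤ d < L^3`;
take `x false = 0`; the path of the test on `0` has at most `d` questions; `x true` is `1` at one
variable `((-,j), none)` not on the path; `loc h` is a position `v` with `(v, some h)` not on the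
path; all inputs in question agree with `0` on the path. `r + 1`: `S_RND`, then the induction
hypothesis for `φ'` (`C`, `w`), `x j := osub τ (x' j)`, `loc h` := the `v` with `τ q = inr (loc' h,
some h) ↔ q = (v, some h)`; if `y` agrees with `x j` outside the `(loc h, some h)` then
`y = osub τ y'` with `y'` = `x' j` changed at `(loc' h, some h)` to `y (loc h, some h)`. -/
def S_CORE : Prop :=
  ∀ r C d : ℕ, ∃ L₀ : ℕ, ∀ L ≥ L₀, ∀ (H : Type) [Fintype H] [DecidableEq H],
    Fintype.card H ≤ L ^ C → ∀ N₀ κ₀ : ℕ, (N₀ + 1) ^ κ₀ ≤ L ^ C →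
    ∀ φ : Frm (U r (L ^ 6) (L ^ 3) H), φ.Within N₀ κ₀ d r →
    ∃ (x : Bool → U r (L ^ 6) (L ^ 3) H → Bool) (loc : H → Pos r (L ^ 6) (L ^ 3)) (b : Prop),
      ¬ Pf r (L ^ 6) (L ^ 3) (fun v => x false (v, none)) ∧
      Pf r (L ^ 6) (L ^ 3) (fun v => x true (v, none)) ∧
      ∀ j y, (∀ q, (∀ h, q ≠ (loc h, some h)) → y q = x j q) → (φ.Holds y ↔ b)

/-! ## Oracles -/

/-- The bits of the block `(e,k,x)`. -/
def abit (X : ℕ → XP) (e k : ℕ) (x : List Bool)
    (y : Fin ((X e).G k + 1) → Fin ((X e).stamp k x)) : Adr :=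
  .ans e k x ((X e).stamp k x) (List.ofFn fun i => (y i : ℕ))

/-- The coded answer of the block `(e,k,x)` is correct. -/
def Valid (X : ℕ → XP) (A : Adr → Bool) (e k : ℕ) (x : List Bool) : Prop :=
  ((X e).run k x).eval A = true ↔ Odd ((X e).count A e k x)

/-- FIX. PROOF. `lev 0 = u`; `lev (M+1) q = lev M q` unless `q = abit X e k x (loc e k x)` with
stamp `M`; in this case `lev (M+1) q` is the bit for which the block has the parity of
`(run k x).eval (lev M)` (the other bits of the block are those of `u`). `A q = lev (size q + 1) q`.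
`A` and `lev M` agree on the bits of size `< M`, so `run.eval A = run.eval (lev M)` for stamp `M`. -/
def S_FIX : Prop :=
  ∀ (X : ℕ → XP) (u : Adr → Bool)
    (loc : ∀ (e k : ℕ) (x : List Bool), Fin ((X e).G k + 1) → Fin ((X e).stamp k x)),
    ∃ A : Adr → Bool, (∀ q, (∀ e k x, q ≠ abit X e k x (loc e k x)) → A q = u q) ∧
      ∀ e k x, Valid X A e k x

/-- UNI. Two oracles for which the block `(e,k,x)` is correct and which give the same answer of
the algorithm, and agree on all bits of the block except perhaps one, agree on this one, too. -/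
def S_UNI : Prop :=
  ∀ (X : ℕ → XP) (A B : Adr → Bool) (e k : ℕ) (x : List Bool)
    (y₀ : Fin ((X e).G k + 1) → Fin ((X e).stamp k x)),
    Valid X A e k x → Valid X B e k x →
    ((X e).run k x).eval A = ((X e).run k x).eval B →
    (∀ y, y ≠ y₀ → A (abit X e k x y) = B (abit X e k x y)) →
    A (abit X e k x y₀) = B (abit X e k x y₀)

/-- CLS. Closure. PROOF. For a finite set `E` of blocks let `Z E = R ∪ ⋃_{b ∈ E} path_b`. Start with
`E₀ = ∅`, `E_{i+1} = E_i ∪ {b : |bits b ∩ Z E_i| * 2 ≥ |bits b|}` (finite: such a block has a bit in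
`Z E_i`, the bits of different blocks are different). Always `∑_{b ∈ E} |bits b| ≤ 2 |Z E| ≤ 2|R| +
2 ∑ depth_b ≤ 2|R| + (1/4) ∑ |bits b|` (blocks are disjoint; `8 * depth ≤ |bits b|` as
`|bits b| = s^(G+1)`, `depth ≤ (s-8)^G`, `s ≥ 8`), so `∑ |bits b| ≤ (8/3)|R|` and `E_i` becomes
stationary. `cl = Z E ∪ ⋃_{b ∈ E} bits b`, `|cl| ≤ |R| + (9/8)(8/3)|R| = 4|R|`. -/
def S_CLS : Prop :=
  ∀ (X : ℕ → XP) (O : Adr → Bool) (R : Finset Adr), ∃ cl : Finset Adr, R ⊆ cl ∧
    cl.card ≤ 4 * R.card ∧ ∀ e k x,
      ((∀ y, abit X e k x y ∈ cl) ∧ pathOf O ((X e).run k x) ⊆ cl) ∨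
      2 * (Finset.univ.filter (fun y => abit X e k x y ∈ cl)).card <
        Fintype.card (Fin ((X e).G k + 1) → Fin ((X e).stamp k x))

/-- ASK. PROOF. Induction: a test of depth `≤ d` contains at most `2^d` questions, there are at most
`((N₀+1)^κ₀)^t` tests (`Fintype.card (Fin κ → Fin N) = N^κ ≤ (N₀+1)^κ₀`). -/
def S_ASK : Prop :=
  ∀ (β : Type) [DecidableEq β] (N₀ κ₀ d t : ℕ) (φ : Frm β), φ.Within N₀ κ₀ d t →
    ∃ Z : Finset β, Z.card ≤ ((N₀ + 1) ^ κ₀) ^ t * 2 ^ d ∧ φ.All (fun q => q ∈ Z)

/-- The address of the position `v` of the tree: `x = ξ (first coordinate)`, `y` = the other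
coordinates. -/
def liveAdr {t k n ν m : ℕ} (ξ : Fin ν → Fin k → Fin n) (hm : m ≤ ν) (v : Pos t ν m) : Adr :=
  .inp k n ((List.ofFn fun i => (ξ ((Fin.snoc (α := fun _ => Fin ν) v.1 (v.2.castLE hm) :
    Fin (t + 1) → Fin ν) 0) i : ℕ)) ++
    (List.ofFn fun l : Fin t => ((Fin.snoc (α := fun _ => Fin ν) v.1 (v.2.castLE hm) :
      Fin (t + 1) → Fin ν) l.succ : ℕ)))

/-- The sequence `w` (level `0` = the index of `x`, then `y`) is out of range at level `l`. -/
def outAt (t ν m : ℕ) (w : ℕ → ℕ) (l : ℕ) : Prop := if l = t then m ≤ w l else ν ≤ w l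

/-- SIP. The problem `Sip` is the tree on the chosen variables. `A` is `0` for the `x` which are not
`ξ i`; for `x = ξ i`, if the sequence `w = (i, y_1, ..., y_t)` is out of range (`≥ ν`, last one
`≥ m`) for the first time at level `l`, then the bit is `1` iff `l` is odd. PROOF. By induction on
the number of levels, from level `0`: at a level `∃` (even) the children out of range have only `0`
below (value `0`), at a level `∀` (odd) only `1` below (value `1`), neutral. -/
def S_SIP : Prop :=
  ∀ (t k n ν m : ℕ) (ξ : Fin ν → Fin k → Fin n) (hm : m ≤ ν) (_ : ν ≤ n) (_ : 0 < m)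
    (A : Adr → Bool), Function.Injective ξ →
    (∀ (x : Fin k → Fin n) (y : Fin t → Fin n), (∀ i, ξ i ≠ x) → A (.inp k n
      ((List.ofFn fun i => (x i : ℕ)) ++ (List.ofFn fun i => (y i : ℕ)))) = false) →
    (∀ (i : Fin ν) (y : Fin t → Fin n) (w : ℕ → ℕ) (l : ℕ), w 0 = i →
      (∀ j : Fin t, w (j + 1) = y j) → l ≤ t → outAt t ν m w l →
      (∀ l' < l, ¬ outAt t ν m w l') → A (.inp k n
      ((List.ofFn fun i' => (ξ i i' : ℕ)) ++ (List.ofFn fun i => (y i : ℕ)))) =
        decide (l % 2 = 1)) →
    (Sip A t k n ↔ Pf t ν m (fun v => A (liveAdr ξ hm v)))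

/-- NUM. The numbers. PROOF. `L` maximal with `L^(6t+12) ≤ n`, so `n < (L+1)^(6t+12) ≤ (2L)^(6t+12)`
and `L → ∞`; all other numbers are bounded by `n^(const)` with a constant depending on `t, c, k, F,
G` only. `C = (6t+13) * (everything)`. -/
def S_NUM : Prop :=
  ∀ (t c k F G : ℕ), c < k → ∃ C : ℕ, ∀ L₀ : ℕ, ∃ n₁ : ℕ, ∀ n ≥ n₁, ∃ L : ℕ, L₀ ≤ L ∧ 1 ≤ L ∧
    L ^ (6 * t + 12) ≤ n ∧ 4 * (F * n ^ c) + L ^ 6 ≤ n ^ k ∧
    (F * n ^ c + 1) ^ G ≤ L ^ C ∧ ((F * n ^ c + 1) ^ G) ^ t * 2 ^ G ≤ L ^ C

/-- STG. One stage. PROOF. Let `L` be maximal with `L^(6t+12) ≤ n`, `ν = L^6`, `m = L^3`.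
(1) `O` = `S_FIX` for `u₀` = `B` with all bits `inp k n _` set to `0` (any `loc`): valid, agrees with
`B` on sizes `< n` (induction on the size, `S_UNI`; also on blocks of stamp `≤ n`).
(2) `R` = questions of `a` before the tail on `O` (`≤ F n^c`), `φ` = the tail reached, `cl` from
`S_CLS`, `|cl| ≤ 4 F n^c`. Choose an injection `ξ : Fin ν → (Fin k → Fin n)` into the `x` such that
no `inp k n (x ++ _)` is in `cl` (`n^k ≥ n^(c+1) ≥ 4 F n^c + L^6`).
(3) `H` = the blocks with stamp `> n`, not exposed (second alternative of `S_CLS`), with a bit asked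
by `φ`: at most `L^C`. For `b ∈ H` choose an injection of `Pos t ν m` into the bits of `b` not in
`cl` (at least `s/2 * 8 > n ≥ L^(6t+3)`).
(4) `σ : Adr → Bool ⊕ U t ν m H`: `inp k n (ξ i ++ y)` with all `y_l < ν` and (last one) `< m` is the
variable with position `(i, y_1, ..., y_(t-1)), y_t` (for `t = 0`: `i < m`), `none`; for `i` or `y`
out of range the constant `level odd` for the first level which is out of range (level 0 is `i`);
the chosen bits of the blocks of `H` are variables; all other addresses are the constants `O q`.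
(`S_SIP`, `S_ASK`, `S_NUM` are used.) (5) `S_CORE` for `φ.sub σ`: `x j`, `loc`. `A` = `S_FIX` for `u = osub σ (x j)` and `loc e k x` = the
bit `loc h` for the blocks in `H`, a bit not in `cl` for the other blocks with stamp `> n` which are
not exposed, any bit for the others.
(6) CLAIM: `A q = O q` for `q ∈ cl` and for all `q` of size `≤ n` which are not `inp k n (ξ i ++ _)`;
induction on the size (`S_UNI`; for exposed blocks the path of the algorithm on `O` is in `cl`).
So `A` agrees with `B` below `n`, `a` reaches the tail `φ` on `A`, for all questions `q` of `φ`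
`A q = osub σ x̂ q`, `x̂` = values of `A` at the variables, and `x̂` agrees with `x j` outside the
`(loc h, some h)`. Hence `a.Accepts A ↔ b` and `Sip A t k n ↔ Pf t (x j) ↔ j = true`; choose `j`. -/
def S_STG : Prop :=
  ∀ (X : ℕ → XP) (t c k : ℕ) (F G : ℕ → ℕ), c < k → ∃ n₁ : ℕ, ∀ n ≥ n₁, ∀ a : Alg Adr,
    a.Within (F k * n ^ c) (G k) (G k) t (F k * n ^ c) →
    ∀ B : Adr → Bool, (∀ e k x, Valid X B e k x) →
    ∃ A : Adr → Bool, (∀ e k x, Valid X A e k x) ∧ (∀ q, q.size < n → A q = B q) ∧
      ¬ (a.Accepts A ↔ Sip A t k n)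

/-- DIA. First half of the main statement. PROOF. Enumerate the requirements `(e, k, n₀)`, `c e <
k`. `A₀` = `S_FIX` for `u = 0`. Stage `i`: `n_i` larger than `n₀`, `n₁` and all sizes of questions
of the algorithms `a e k n` of the earlier stages and the earlier `n_i`; `A_(i+1)` = `S_STG` for
`B = A_i`. The limit `A` agrees with `A_(i+1)` on sizes `< n_(i+1)`: it is valid everywhere and keeps
the failures. -/
def S_DIA : Prop :=
  ∀ (X : ℕ → XP) (a : ℕ → ℕ → ℕ → Alg Adr) (t c : ℕ → ℕ), (∀ e, TypeA (t e) (c e) (a e)) →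
    ∃ A : Adr → Bool,
      (∀ e k x, ((X e).run k x).eval A = true ↔ Odd ((X e).count A e k x)) ∧
      (∀ e k, c e < k → ∀ n₀, ∃ n ≥ n₀, ¬ ((a e k n).Accepts A ↔ Sip A (t e) k n))

/-- BRU. Second half: brute force. PROOF. A formula within `N₀, κ₀, d₀, t` asking only `P` is
equivalent to a decision tree of depth `≤ ((N₀+1)^κ₀)^t * d₀` asking only `P` (evaluate the
subformulas one after the other), an algorithm to one of depth `≤ D + ((N₀+1)^κ₀)^t * d₀`.
With `N₀ = D = F k (|x|+1)^c`: `≤ (F' k (|x|+1)^c)^(G' k)`, `F' = F + 2`, `G' = G * t + G + 2` or so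
(`M + (M+1)^(g t) g ≤ (M + 2)^(g t + g + 2)`, and `M + 2 ≤ F' (|x|+1)^c`). -/
def S_BRU : Prop :=
  ∀ (t c : ℕ) (F G : ℕ → ℕ) (a : ℕ → List Bool → Alg Adr),
    (∀ k x, (a k x).Within (F k * (x.length + 1) ^ c) (G k) (G k) t (F k * (x.length + 1) ^ c) ∧
      (a k x).All (fun q => q.size < F k * (x.length + 1) ^ c)) →
    ∃ X : XP, ∀ A k x, (X.run k x).eval A = true ↔ (a k x).Accepts A

/-- The assembly. -/
theorem main_of (h₁ : S_DIA) (h₂ : S_BRU) : MainStatement := ⟨h₁, h₂⟩

end Pool.Agent.OWH
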