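import Mathlib
import Pool.Agent.OWH.St

/-!
# Project OWH: the module CLS (closure with an amortised count)
-/

set_option autoImplicit false

namespace Pool.Agent.OWH
open Pool.Agent.Lib_helper62.PToda

namespace CLS

theorem card_pathOf {β : Type} [DecidableEq β] (x : β → Bool) (T : DT β) :
    (pathOf x T).card ≤ T.depth := by
  induction T with
  | leaf b => simp [pathOf]
  | node q t0 t1 h0 h1 =>
    simp only [pathOf, DT.depth]
    refine (Finset.card_insert_le _ _).trans ?_
    by_cases hq : x q = true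
    · rw [if_pos hq]
      exact Nat.add_le_add_right (h1.trans (le_max_right _ _)) 1
    · rw [if_neg hq]
      exact Nat.add_le_add_right (h0.trans (le_max_left _ _)) 1

theorem abit_inj (X : ℕ → XP) (e k : ℕ) (x : List Bool) :
    Function.Injective (fun y => abit X e k x y) := by
  intro y y' h
  simp only [abit, Adr.ans.injEq] at h
  have h1 := List.ofFn_injective h.2.2.2.2
  funext i
  exact Fin.ext (congrFun h1 i)

/-- the index of a block -/
abbrev Bk : Type := ℕ × ℕ × List Bool

/-- the bits of a block -/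
noncomputable def bits (X : ℕ → XP) (b : Bk) : Finset Adr :=
  Finset.univ.image (fun y => abit X b.1 b.2.1 b.2.2 y)

/-- the number of the bits of a block -/
def sz (X : ℕ → XP) (b : Bk) : ℕ :=
  Fintype.card (Fin ((X b.1).G b.2.1 + 1) → Fin ((X b.1).stamp b.2.1 b.2.2))

/-- the path of the algorithm of a block -/
def pth (X : ℕ → XP) (O : Adr → Bool) (b : Bk) : Finset Adr :=
  pathOf O ((X b.1).run b.2.1 b.2.2)

theorem card_bits (X : ℕ → XP) (b : Bk) : (bits X b).card = sz X b := by
  rw [bits, Finset.card_image_of_injective _ (abit_inj X b.1 b.2.1 b.2.2), Finset.card_univ, sz]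

theorem bits_disj (X : ℕ → XP) (b b' : Bk) (h : b ≠ b') : Disjoint (bits X b) (bits X b') := by
  rw [Finset.disjoint_left]
  intro q hq hq'
  rw [bits, Finset.mem_image] at hq hq'
  obtain ⟨y, _, rfl⟩ := hq
  obtain ⟨y', _, h'⟩ := hq'
  simp only [abit, Adr.ans.injEq] at h'
  exact h (Prod.ext h'.1.symm (Prod.ext h'.2.1.symm h'.2.2.1.symm))

theorem stamp_ge (X : XP) (k : ℕ) (x : List Bool) : 8 ≤ X.stamp k x := by
  unfold XP.stamp
  omega

theorem sz_pos (X : ℕ → XP) (b : Bk) : 1 ≤ sz X b := by
  have h := stamp_ge (X b.1) b.2.1 b.2.2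
  rw [sz, Fintype.card_fun, Fintype.card_fin, Fintype.card_fin]
  exact Nat.one_le_pow _ _ (by omega)

theorem pth_le (X : ℕ → XP) (O : Adr → Bool) (b : Bk) : 8 * (pth X O b).card ≤ sz X b := by
  have h1 : (pth X O b).card ≤ ((X b.1).F b.2.1 * (b.2.2.length + 1) ^ (X b.1).c) ^ (X b.1).G b.2.1 :=
    (card_pathOf O _).trans ((X b.1).cost b.2.1 b.2.2)
  have h2 : ((X b.1).F b.2.1 * (b.2.2.length + 1) ^ (X b.1).c) ^ (X b.1).G b.2.1 ≤
      ((X b.1).stamp b.2.1 b.2.2) ^ (X b.1).G b.2.1 := by
    refine Nat.pow_le_pow_left ?_ _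
    unfold XP.stamp
    omega
  rw [sz, Fintype.card_fun, Fintype.card_fin, Fintype.card_fin, pow_succ]
  calc 8 * (pth X O b).card ≤ 8 * ((X b.1).stamp b.2.1 b.2.2) ^ (X b.1).G b.2.1 :=
        Nat.mul_le_mul_left _ (h1.trans h2)
    _ = ((X b.1).stamp b.2.1 b.2.2) ^ (X b.1).G b.2.1 * 8 := Nat.mul_comm _ _
    _ ≤ _ := Nat.mul_le_mul_left _ (stamp_ge _ _ _)

/-- the queried bits of a set of blocks, and `R` -/
def Z (X : ℕ → XP) (O : Adr → Bool) (R : Finset Adr) (E : Finset Bk) : Finset Adr :=
  R ∪ E.biUnion (pth X O)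

/-- the invariant -/
def Ivr (X : ℕ → XP) (O : Adr → Bool) (R : Finset Adr) (E : Finset Bk) : Prop :=
  ∑ b ∈ E, sz X b ≤ 2 * (Z X O R E ∩ E.biUnion (bits X)).card

theorem card_Z (X : ℕ → XP) (O : Adr → Bool) (R : Finset Adr) (E : Finset Bk) :
    8 * (Z X O R E).card ≤ 8 * R.card + ∑ b ∈ E, sz X b := by
  have h1 : (Z X O R E).card ≤ R.card + ∑ b ∈ E, (pth X O b).card :=
    (Finset.card_union_le _ _).trans (Nat.add_le_add_left Finset.card_biUnion_le _)
  have h2 : 8 * ∑ b ∈ E, (pth X O b).card ≤ ∑ b ∈ E, sz X b := by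
    rw [Finset.mul_sum]
    exact Finset.sum_le_sum fun b _ => pth_le X O b
  omega

theorem inv_sum {X : ℕ → XP} {O : Adr → Bool} {R : Finset Adr} {E : Finset Bk}
    (h : Ivr X O R E) : 3 * ∑ b ∈ E, sz X b ≤ 8 * R.card := by
  have h1 := card_Z X O R E
  have h2 : (Z X O R E ∩ E.biUnion (bits X)).card ≤ (Z X O R E).card :=
    Finset.card_le_card Finset.inter_subset_left
  unfold Ivr at h
  omega

theorem inv_card {X : ℕ → XP} {O : Adr → Bool} {R : Finset Adr} {E : Finset Bk}
    (h : Ivr X O R E) : E.card ≤ 8 * R.card := by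
  have h1 := inv_sum h
  have h2 : E.card ≤ ∑ b ∈ E, sz X b := by
    rw [Finset.card_eq_sum_ones]
    exact Finset.sum_le_sum fun b _ => sz_pos X b
  omega

theorem Z_mono (X : ℕ → XP) (O : Adr → Bool) (R : Finset Adr) {E E' : Finset Bk} (h : E ⊆ E') :
    Z X O R E ⊆ Z X O R E' :=
  Finset.union_subset_union_right (Finset.biUnion_subset_biUnion_of_subset_left _ h)

theorem inv_insert {X : ℕ → XP} {O : Adr → Bool} {R : Finset Adr} {E : Finset Bk} {b : Bk}
    (h : Ivr X O R E) (hb : b ∉ E) (h2 : sz X b ≤ 2 * (Z X O R E ∩ bits X b).card) :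
    Ivr X O R (insert b E) := by
  unfold Ivr at h ⊢
  rw [Finset.sum_insert hb]
  have hd : Disjoint (Z X O R E ∩ bits X b) (Z X O R E ∩ E.biUnion (bits X)) := by
    refine Finset.disjoint_of_subset_left Finset.inter_subset_right
      (Finset.disjoint_of_subset_right Finset.inter_subset_right ?_)
    rw [Finset.disjoint_biUnion_right]
    intro b' hb'
    exact bits_disj X b b' (fun h => hb (h ▸ hb'))
  have h3 : (Z X O R E ∩ bits X b).card + (Z X O R E ∩ E.biUnion (bits X)).card ≤
      (Z X O R (insert b E) ∩ (insert b E).biUnion (bits X)).card := by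
    rw [← Finset.card_union_of_disjoint hd]
    apply Finset.card_le_card
    rw [Finset.biUnion_insert, ← Finset.inter_union_distrib_left]
    exact Finset.inter_subset_inter_right (Z_mono X O R (Finset.subset_insert b E))
  omega

end CLS

open CLS in
theorem t_CLS : S_CLS := by
  intro X O R
  have hne : {n : ℕ | ∃ E, Ivr X O R E ∧ E.card = n}.Nonempty :=
    ⟨0, ∅, by simp [Ivr], rfl⟩
  have hbd : BddAbove {n : ℕ | ∃ E, Ivr X O R E ∧ E.card = n} :=
    ⟨8 * R.card, by rintro n ⟨E, hE, rfl⟩; exact inv_card hE⟩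
  obtain ⟨E, hE, hEc⟩ := Nat.sSup_mem hne hbd
  have hmax : ∀ E', Ivr X O R E' → E'.card ≤ E.card := by
    intro E' hE'
    rw [hEc]
    exact le_csSup hbd ⟨E', hE', rfl⟩
  refine ⟨Z X O R E ∪ E.biUnion (bits X), ?_, ?_, ?_⟩
  · exact Finset.subset_union_left.trans Finset.subset_union_left
  · have h1 := card_Z X O R E
    have h2 := inv_sum hE
    have h3 : (E.biUnion (bits X)).card ≤ ∑ b ∈ E, sz X b := by
      refine Finset.card_biUnion_le.trans ?_
      exact Finset.sum_le_sum fun b _ => (card_bits X b).le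
    have h4 := Finset.card_union_le (Z X O R E) (E.biUnion (bits X))
    omega
  · intro e k x
    by_cases hb : (e, k, x) ∈ E
    · left
      refine ⟨fun y => ?_, ?_⟩
      · apply Finset.mem_union_right
        rw [Finset.mem_biUnion]
        exact ⟨(e, k, x), hb, Finset.mem_image_of_mem _ (Finset.mem_univ y)⟩
      · intro q hq
        apply Finset.mem_union_left
        apply Finset.mem_union_right
        rw [Finset.mem_biUnion]
        exact ⟨(e, k, x), hb, hq⟩
    · right
      by_contra hcon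
      push Not at hcon
      have h5 : (Finset.univ.filter (fun y => abit X e k x y ∈ Z X O R E ∪ E.biUnion (bits X))).card ≤
          (Z X O R E ∩ bits X (e, k, x)).card := by
        refine Finset.card_le_card_of_injOn (fun y => abit X e k x y) ?_
          (fun y _ y' _ h => abit_inj X e k x h)
        intro y hy
        have hy' := (Finset.mem_filter.mp (Finset.mem_coe.mp hy)).2
        have hyb : abit X e k x y ∈ bits X (e, k, x) :=
          Finset.mem_image_of_mem _ (Finset.mem_univ y)
        rw [Finset.mem_coe, Finset.mem_inter]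
        refine ⟨?_, hyb⟩
        rcases Finset.mem_union.mp hy' with h | h
        · exact h
        · exfalso
          rw [Finset.mem_biUnion] at h
          obtain ⟨b', hb', hq⟩ := h
          exact Finset.disjoint_left.mp (bits_disj X (e, k, x) b' (fun h => hb (h ▸ hb'))) hyb hq
      have h6 : sz X (e, k, x) ≤ 2 * (Z X O R E ∩ bits X (e, k, x)).card := by
        have : sz X (e, k, x) = Fintype.card (Fin ((X e).G k + 1) → Fin ((X e).stamp k x)) := rfl
        omega
      have h7 := hmax _ (inv_insert hE hb h6)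
      rw [Finset.card_insert_of_notMem hb] at h7
      omega

end Pool.Agent.OWH
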