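import Pool.Agent.OWH.St

/-!
# Project OWH: module COL
-/

set_option autoImplicit false

namespace Pool.Agent.OWH
open Pool.Agent.Lib_helper62.PToda

namespace COL

/-- Negated leaves. -/
def neg {β : Type} : DT β → DT β
  | .leaf b => .leaf (!b)
  | .node q t0 t1 => .node q (neg t0) (neg t1)

theorem depth_neg {β : Type} (T : DT β) : (neg T).depth = T.depth := by
  induction T with
  | leaf b => rfl
  | node q t0 t1 h0 h1 => simp only [neg, DT.depth, h0, h1]

theorem eval_neg {β : Type} (x : β → Bool) (T : DT β) : (neg T).eval x = !(T.eval x) := by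
  induction T with
  | leaf b => rfl
  | node q t0 t1 h0 h1 =>
    simp only [neg, DT.eval, h0, h1]
    split_ifs <;> rfl

theorem depth_dsub {β γ : Type} (σ : β → Bool ⊕ γ) (T : DT β) :
    (dsub σ T).depth ≤ T.depth := by
  induction T with
  | leaf b => exact le_refl _
  | node q t0 t1 h0 h1 =>
    simp only [dsub]
    rcases hq : σ q with b | w
    · cases b
      · simp only [DT.depth]
        omega
      · simp only [DT.depth]
        omega
    · simp only [DT.depth]
      omega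

theorem eval_dsub {β γ : Type} (σ : β → Bool ⊕ γ) (z : γ → Bool) (T : DT β) :
    (dsub σ T).eval z = T.eval (osub σ z) := by
  induction T with
  | leaf b => rfl
  | node q t0 t1 h0 h1 =>
    simp only [dsub, DT.eval]
    rcases hq : σ q with b | w
    · cases b
      · have h2 : osub σ z q = false := by simp [osub, hq]
        simp [h2, h0]
      · have h2 : osub σ z q = true := by simp [osub, hq]
        simp [h2, h1]
    · have h2 : osub σ z q = z w := by simp [osub, hq]
      simp only [DT.eval, h2, h0, h1]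

/-- The set of the questions on a path determines the value. -/
theorem path {β : Type} (T : DT β) (X : β → Bool) : ∃ S : Finset β, S.card ≤ T.depth ∧
    ∀ X', (∀ v ∈ S, X' v = X v) → T.eval X' = T.eval X := by
  classical
  induction T with
  | leaf b => exact ⟨∅, le_refl _, fun X' _ => rfl⟩
  | node q t0 t1 h0 h1 =>
    obtain ⟨S0, hS0, hv0⟩ := h0
    obtain ⟨S1, hS1, hv1⟩ := h1
    by_cases hq : X q = true
    · refine ⟨insert q S1, ?_, fun X' hX' => ?_⟩
      · simp only [DT.depth]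
        have := Finset.card_insert_le q S1
        omega
      · have h2 : X' q = true := by rw [hX' q (Finset.mem_insert_self q S1), hq]
        simp only [DT.eval, h2, hq, if_true]
        exact hv1 X' fun v hv => hX' v (Finset.mem_insert_of_mem hv)
    · refine ⟨insert q S0, ?_, fun X' hX' => ?_⟩
      · simp only [DT.depth]
        have := Finset.card_insert_le q S0
        omega
      · have h2 : ¬ X' q = true := by rw [hX' q (Finset.mem_insert_self q S0)]; exact hq
        simp only [DT.eval, if_neg h2, if_neg hq]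
        exact hv0 X' fun v hv => hX' v (Finset.mem_insert_of_mem hv)

/-- The assertion for one formula. -/
def Goal {V : Type} (N₀ κ₀ d r : ℕ) (φ : Frm V) : Prop :=
  ∃ (K : ℕ) (g : Fin K → (V → Bool) → Bool), K ≤ ((N₀ + 1) ^ κ₀) ^ r ∧
    (∀ i X, g i X = true → ∃ S : Finset V, S.card ≤ d ∧
      ∀ X', (∀ v ∈ S, X' v = X v) → g i X' = true) ∧
    ∀ (W : Type) (σ : V → Bool ⊕ W) (w : ℕ),
      (∀ i, ∃ T : DT W, T.depth ≤ w ∧ ∀ z, T.eval z = g i (osub σ z)) →
      ∃ ψ : Frm W, ψ.Within N₀ κ₀ (max d w) r ∧ ∀ z, ψ.Holds z ↔ φ.Holds (osub σ z)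

theorem within_test {V : Type} {N₀ κ₀ d r : ℕ} {T : DT V} :
    (Frm.test T).Within N₀ κ₀ d r ↔ T.depth ≤ d := by
  cases r <;> simp [Frm.Within]

theorem goal_test {V : Type} {N₀ κ₀ d r : ℕ} {T : DT V} (h : T.depth ≤ d) :
    Goal N₀ κ₀ d r (.test T) := by
  refine ⟨0, fun i => i.elim0, Nat.zero_le _, fun i => i.elim0, fun W σ w _ => ?_⟩
  refine ⟨.test (dsub σ T), ?_, fun z => ?_⟩
  · rw [within_test]
    exact ((depth_dsub σ T).trans h).trans (le_max_left _ _)
  · simp only [Frm.Holds, eval_dsub]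

theorem of_within_zero {V : Type} {N₀ κ₀ d : ℕ} {φ : Frm V} (h : φ.Within N₀ κ₀ d 0) :
    ∃ T : DT V, φ = .test T ∧ T.depth ≤ d := by
  cases φ with
  | test T => exact ⟨T, rfl, by simpa [Frm.Within] using h⟩
  | ex N κ φ => simp [Frm.Within] at h
  | all N κ φ => simp [Frm.Within] at h

theorem card_tuples {N₀ κ₀ N κ : ℕ} (hN : N ≤ N₀) (hκ : κ ≤ κ₀) :
    Fintype.card (Fin κ → Fin N) ≤ (N₀ + 1) ^ κ₀ := by
  rw [Fintype.card_fun, Fintype.card_fin, Fintype.card_fin]
  calc N ^ κ ≤ (N₀ + 1) ^ κ := Nat.pow_le_pow_left (by omega) κ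
    _ ≤ (N₀ + 1) ^ κ₀ := Nat.pow_le_pow_right (by omega) hκ

/-- Collecting families. -/
theorem collect {V : Type} {N₀ κ₀ d r N κ : ℕ} (hN : N ≤ N₀) (hκ : κ ≤ κ₀)
    (φ : (Fin κ → Fin N) → Frm V) (h : ∀ y, Goal N₀ κ₀ d r (φ y)) :
    ∃ (K : ℕ) (g : Fin K → (V → Bool) → Bool), K ≤ ((N₀ + 1) ^ κ₀) ^ (r + 1) ∧
    (∀ i X, g i X = true → ∃ S : Finset V, S.card ≤ d ∧
      ∀ X', (∀ v ∈ S, X' v = X v) → g i X' = true) ∧
    ∀ (W : Type) (σ : V → Bool ⊕ W) (w : ℕ),
      (∀ i, ∃ T : DT W, T.depth ≤ w ∧ ∀ z, T.eval z = g i (osub σ z)) →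
      ∃ ψ : (Fin κ → Fin N) → Frm W, ∀ y, (ψ y).Within N₀ κ₀ (max d w) r ∧
        ∀ z, (ψ y).Holds z ↔ (φ y).Holds (osub σ z) := by
  choose K g hK hg hψ using h
  refine ⟨Fintype.card (Σ y : (Fin κ → Fin N), Fin (K y)),
    fun i => g ((Fintype.equivFin (Σ y : (Fin κ → Fin N), Fin (K y))).symm i).1
      ((Fintype.equivFin (Σ y : (Fin κ → Fin N), Fin (K y))).symm i).2, ?_, ?_, ?_⟩
  · rw [Fintype.card_sigma]
    calc ∑ y : (Fin κ → Fin N), Fintype.card (Fin (K y))
        ≤ ∑ _y : (Fin κ → Fin N), ((N₀ + 1) ^ κ₀) ^ r := by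
          apply Finset.sum_le_sum
          intro y _
          rw [Fintype.card_fin]
          exact hK y
      _ = Fintype.card (Fin κ → Fin N) * ((N₀ + 1) ^ κ₀) ^ r := by
          rw [Finset.sum_const, Finset.card_univ, smul_eq_mul]
      _ ≤ (N₀ + 1) ^ κ₀ * ((N₀ + 1) ^ κ₀) ^ r := Nat.mul_le_mul_right _ (card_tuples hN hκ)
      _ = _ := by rw [pow_succ, mul_comm]
  · intro i X hX
    exact hg _ _ X hX
  · intro W σ w hT
    have h1 : ∀ y, ∃ ψ : Frm W, ψ.Within N₀ κ₀ (max d w) r ∧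
        ∀ z, ψ.Holds z ↔ (φ y).Holds (osub σ z) := by
      intro y
      refine hψ y W σ w fun j => ?_
      obtain ⟨T, hT1, hT2⟩ := hT (Fintype.equivFin (Σ y : (Fin κ → Fin N), Fin (K y)) ⟨y, j⟩)
      refine ⟨T, hT1, fun z => ?_⟩
      have h2 := hT2 z
      have key : ∀ p : (Σ y : (Fin κ → Fin N), Fin (K y)), p = ⟨y, j⟩ → g p.1 p.2 = g y j := by
        rintro _ rfl
        rfl
      rw [h2]
      exact congrFun (key _ (Equiv.symm_apply_apply _ _)) (osub σ z)
    choose ψ hψ' using h1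
    exact ⟨ψ, hψ'⟩

end COL

theorem t_COL : S_COL := by
  classical
  intro V N₀ κ₀ d r φ hφ
  change COL.Goal N₀ κ₀ d r φ
  induction r generalizing φ with
  | zero =>
    cases φ with
    | test T => exact COL.goal_test (COL.within_test.1 hφ)
    | ex N κ φ =>
      obtain ⟨hN, hκ, hy⟩ := hφ
      choose T hT hd using fun y => COL.of_within_zero (hy y)
      refine ⟨1, fun _ X => decide (∃ y, (T y).eval X = true), by simp, ?_, ?_⟩
      · intro i X hX
        obtain ⟨y, hy⟩ := of_decide_eq_true hX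
        obtain ⟨S, hS, hv⟩ := COL.path (T y) X
        refine ⟨S, hS.trans (hd y), fun X' hX' => decide_eq_true ⟨y, ?_⟩⟩
        rw [hv X' hX', hy]
      · intro W σ w hW
        obtain ⟨T', hT1, hT2⟩ := hW 0
        refine ⟨.test T', ?_, fun z => ?_⟩
        · rw [COL.within_test]
          exact hT1.trans (le_max_right _ _)
        · simp only [Frm.Holds, hT2, decide_eq_true_eq]
          refine exists_congr fun y => ?_
          rw [hT y]
          rfl
    | all N κ φ =>
      obtain ⟨hN, hκ, hy⟩ := hφ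
      choose T hT hd using fun y => COL.of_within_zero (hy y)
      refine ⟨1, fun _ X => decide (∃ y, (T y).eval X = false), by simp, ?_, ?_⟩
      · intro i X hX
        obtain ⟨y, hy⟩ := of_decide_eq_true hX
        obtain ⟨S, hS, hv⟩ := COL.path (T y) X
        refine ⟨S, hS.trans (hd y), fun X' hX' => decide_eq_true ⟨y, ?_⟩⟩
        rw [hv X' hX', hy]
      · intro W σ w hW
        obtain ⟨T', hT1, hT2⟩ := hW 0
        refine ⟨.test (COL.neg T'), ?_, fun z => ?_⟩
        · rw [COL.within_test, COL.depth_neg]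
          exact hT1.trans (le_max_right _ _)
        · simp only [Frm.Holds, COL.eval_neg, hT2, Bool.not_eq_true', decide_eq_false_iff_not,
            not_exists, Bool.not_eq_false]
          refine forall_congr' fun y => ?_
          rw [hT y]
          rfl
  | succ r ih =>
    cases φ with
    | test T => exact COL.goal_test (COL.within_test.1 hφ)
    | ex N κ φ =>
      obtain ⟨hN, hκ, hy⟩ := hφ
      obtain ⟨K, g, hK, hg, hψ⟩ := COL.collect hN hκ φ fun y => ih (φ y) (hy y)
      refine ⟨K, g, hK, hg, fun W σ w hW => ?_⟩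
      obtain ⟨ψ, hψ'⟩ := hψ W σ w hW
      exact ⟨.ex N κ ψ, ⟨hN, hκ, fun y => (hψ' y).1⟩, fun z => exists_congr fun y => (hψ' y).2 z⟩
    | all N κ φ =>
      obtain ⟨hN, hκ, hy⟩ := hφ
      obtain ⟨K, g, hK, hg, hψ⟩ := COL.collect hN hκ φ fun y => ih (φ y) (hy y)
      refine ⟨K, g, hK, hg, fun W σ w hW => ?_⟩
      obtain ⟨ψ, hψ'⟩ := hψ W σ w hW
      exact ⟨.all N κ ψ, ⟨hN, hκ, fun y => (hψ' y).1⟩, fun z => forall_congr' fun y => (hψ' y).2 z⟩

end Pool.Agent.OWH
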