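import Pool.Agent.OWH.St

/-!
# The core: induction on the number of levels (module OWH_CORE, MP_95e38d_lc)
-/

namespace Pool.Agent.OWH
open Pool.Agent.Lib_helper62.PToda

namespace CORE

variable {β γ : Type}

theorem card_pathOf [DecidableEq β] (x : β → Bool) (T : DT β) :
    (pathOf x T).card ≤ T.depth := by
  induction T with
  | leaf b => simp [pathOf]
  | node q t0 t1 h0 h1 =>
    simp only [pathOf, DT.depth]
    refine (Finset.card_insert_le _ _).trans ?_
    by_cases hq : x q = true
    · rw [if_pos hq]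
      exact Nat.add_le_add_right (h1.trans (le_max_right _ _)) 1
    · rw [if_neg hq]
      exact Nat.add_le_add_right (h0.trans (le_max_left _ _)) 1

theorem eval_of_path [DecidableEq β] (x y : β → Bool) (T : DT β)
    (h : ∀ q ∈ pathOf x T, y q = x q) : T.eval y = T.eval x := by
  induction T with
  | leaf b => rfl
  | node q t0 t1 h0 h1 =>
    simp only [pathOf] at h
    have hq : y q = x q := h q (Finset.mem_insert_self _ _)
    simp only [DT.eval, hq]
    by_cases hx : x q = true
    · rw [if_pos hx, if_pos hx]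
      refine h1 fun q' hq' => h q' (Finset.mem_insert_of_mem ?_)
      rw [if_pos hx]
      exact hq'
    · rw [if_neg hx, if_neg hx]
      refine h0 fun q' hq' => h q' (Finset.mem_insert_of_mem ?_)
      rw [if_neg hx]
      exact hq'

/-- A position outside of a small set. -/
theorem exists_pos {ν m : ℕ} {K : Type} [DecidableEq K] (k : K) (P : Finset (Pos 0 ν m × K))
    (h : P.card < m) : ∃ j : Fin m, (((Fin.elim0, j), k) : Pos 0 ν m × K) ∉ P := by
  by_contra hc
  push Not at hc
  have hinj : Function.Injective fun j : Fin m => (((Fin.elim0, j), k) : Pos 0 ν m × K) := by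
    intro a b hab
    simpa using hab
  have h1 : (Finset.univ.image fun j : Fin m => (((Fin.elim0, j), k) : Pos 0 ν m × K)) ⊆ P := by
    intro u hu
    obtain ⟨j, -, rfl⟩ := Finset.mem_image.1 hu
    exact hc j
  have h2 := Finset.card_le_card h1
  rw [Finset.card_image_of_injective _ hinj, Finset.card_univ, Fintype.card_fin] at h2
  omega

theorem base (C d : ℕ) : ∃ L₀ : ℕ, ∀ L ≥ L₀, ∀ (H : Type) [Fintype H] [DecidableEq H],
    Fintype.card H ≤ L ^ C → ∀ N₀ κ₀ : ℕ, (N₀ + 1) ^ κ₀ ≤ L ^ C →
    ∀ φ : Frm (U 0 (L ^ 6) (L ^ 3) H), φ.Within N₀ κ₀ d 0 →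
    ∃ (x : Bool → U 0 (L ^ 6) (L ^ 3) H → Bool) (loc : H → Pos 0 (L ^ 6) (L ^ 3)) (b : Prop),
      ¬ Pf 0 (L ^ 6) (L ^ 3) (fun v => x false (v, none)) ∧
      Pf 0 (L ^ 6) (L ^ 3) (fun v => x true (v, none)) ∧
      ∀ j y, (∀ q, (∀ h, q ≠ (loc h, some h)) → y q = x j q) → (φ.Holds y ↔ b) := by
  refine ⟨d + 1, fun L hL H _ _ _ N₀ κ₀ _ φ hφ => ?_⟩
  cases φ with
  | ex N κ φ => exact absurd hφ (by simp [Frm.Within])
  | all N κ φ => exact absurd hφ (by simp [Frm.Within])
  | test T =>
    have hd : T.depth ≤ d := by simpa [Frm.Within] using hφ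
    have hL3 : d < L ^ 3 := by
      have : L ≤ L ^ 3 := Nat.le_self_pow (by norm_num) L
      omega
    have hP : (pathOf (fun _ => false) T).card < L ^ 3 :=
      ((card_pathOf _ T).trans hd).trans_lt hL3
    obtain ⟨j₀, hj₀⟩ := exists_pos (none : Option H) (pathOf (fun _ => false) T) hP
    have hloc : ∀ h : H, ∃ j : Fin (L ^ 3),
        (((Fin.elim0, j), some h) : U 0 (L ^ 6) (L ^ 3) H) ∉ pathOf (fun _ => false) T :=
      fun h => exists_pos (some h) _ hP
    choose loc hloc using hloc
    refine ⟨fun j q => j && decide (q = ((Fin.elim0, j₀), none)), fun h => (Fin.elim0, loc h),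
      T.eval (fun _ => false) = true, ?_, ?_, ?_⟩
    · simp [Pf, Alt]
    · simp only [Pf, Alt]
      rw [if_pos (by norm_num)]
      exact ⟨j₀, by simp⟩
    · intro j y hy
      have key : T.eval y = T.eval (fun _ => false) := by
        refine eval_of_path _ _ T fun q hq => ?_
        have h1 : ∀ h, q ≠ (((Fin.elim0, loc h), some h) : U 0 (L ^ 6) (L ^ 3) H) := by
          rintro h rfl
          exact hloc h hq
        rw [hy q h1]
        have h2 : q ≠ ((Fin.elim0, j₀), none) := by
          rintro rfl
          exact hj₀ hq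
        simp [h2]
      show T.eval y = true ↔ _
      rw [key]

end CORE

open CORE in
theorem t_CORE (hRND : S_RND) : S_CORE := by
  intro r
  induction r with
  | zero => exact base
  | succ r ih =>
    intro C d
    obtain ⟨w, L₁, h1⟩ := hRND r C d
    obtain ⟨L₂, h2⟩ := ih C w
    refine ⟨max L₁ L₂, fun L hL H _ _ hH N₀ κ₀ hN φ hφ => ?_⟩
    obtain ⟨τ, φ', a1, a2, a3, a4⟩ := h1 L ((le_max_left _ _).trans hL) H hH N₀ κ₀ hN φ hφ
    obtain ⟨x', loc', b, b1, b2, b3⟩ := h2 L ((le_max_right _ _).trans hL) H hH N₀ κ₀ hN φ' a1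
    have h4 := fun h => a4 h (loc' h)
    choose loc hloc using h4
    refine ⟨fun j => osub τ (x' j), loc, b, fun hc => b1 ((a3 _).1 hc), (a3 _).2 b2, ?_⟩
    intro j y hy
    classical
    let y' : U r (L ^ 6) (L ^ 3) H → Bool := fun u =>
      match u.2 with
      | none => x' j u
      | some h => if u.1 = loc' h then y (loc h, some h) else x' j u
    have y1 : ∀ h, y' (loc' h, some h) = y (loc h, some h) := fun h => by simp [y']
    have y2 : ∀ u, (∀ h, u ≠ (loc' h, some h)) → y' u = x' j u := by
      rintro ⟨v, _ | h⟩ hu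
      · rfl
      · have hv : v ≠ loc' h := fun e => hu h (by rw [e])
        simp [y', hv]
    have key : y = osub τ y' := by
      funext q
      by_cases hq : ∃ h, q = (loc h, some h)
      · obtain ⟨h, rfl⟩ := hq
        have e := (hloc h (loc h, some h)).2 rfl
        simp only [osub, e, Sum.elim_inr, y1]
      · push Not at hq
        rw [hy q hq]
        cases e : τ q with
        | inl c => simp [osub, e]
        | inr u =>
          have hu : ∀ h, u ≠ (loc' h, some h) := by
            rintro h rfl
            exact hq h ((hloc h q).1 e)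
          simp only [osub, e, Sum.elim_inr, y2 u hu]
    rw [key, ← a2]
    exact b3 j y' y2

end Pool.Agent.OWH
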