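import Pool.Agent.OWH.St

/-!
# OWH, module DIA: the diagonalization
-/

set_option autoImplicit false

namespace Pool.Agent.OWH
open Pool.Agent.Lib_helper62.PToda

namespace DIA

lemma asks_mono {β : Type} {P Q : β → Prop} (h : ∀ q, P q → Q q) :
    ∀ T : DT β, Asks P T → Asks Q T
  | .leaf _, _ => trivial
  | .node q t0 t1, ⟨h1, h2, h3⟩ => ⟨h q h1, asks_mono h t0 h2, asks_mono h t1 h3⟩

lemma frm_mono {β : Type} {P Q : β → Prop} (h : ∀ q, P q → Q q) :
    ∀ φ : Frm β, φ.All P → φ.All Q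
  | .test T, h1 => asks_mono h T h1
  | .ex _ _ φ, h1 => fun y => frm_mono h (φ y) (h1 y)
  | .all _ _ φ, h1 => fun y => frm_mono h (φ y) (h1 y)

lemma alg_mono {β : Type} {P Q : β → Prop} (h : ∀ q, P q → Q q) :
    ∀ a : Alg β, a.All P → a.All Q
  | .tail φ, h1 => frm_mono h φ h1
  | .read q a0 a1, ⟨h1, h2, h3⟩ => ⟨h q h1, alg_mono h a0 h2, alg_mono h a1 h3⟩

lemma asks_congr {β : Type} {P : β → Prop} {A B : β → Bool} (h : ∀ q, P q → A q = B q) :
    ∀ T : DT β, Asks P T → T.eval A = T.eval B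
  | .leaf _, _ => rfl
  | .node q t0 t1, ⟨h1, h2, h3⟩ => by
    simp only [DT.eval, h q h1, asks_congr h t0 h2, asks_congr h t1 h3]

lemma frm_congr {β : Type} {P : β → Prop} {A B : β → Bool} (h : ∀ q, P q → A q = B q) :
    ∀ φ : Frm β, φ.All P → (φ.Holds A ↔ φ.Holds B)
  | .test T, h1 => by
    simp only [Frm.Holds]
    rw [asks_congr h T h1]
  | .ex _ _ φ, h1 => exists_congr fun y => frm_congr h (φ y) (h1 y)
  | .all _ _ φ, h1 => forall_congr' fun y => frm_congr h (φ y) (h1 y)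

lemma alg_congr {β : Type} {P : β → Prop} {A B : β → Bool} (h : ∀ q, P q → A q = B q) :
    ∀ a : Alg β, a.All P → (a.Accepts A ↔ a.Accepts B)
  | .tail φ, h1 => frm_congr h φ h1
  | .read q a0 a1, ⟨h1, h2, h3⟩ => by
    simp only [Alg.Accepts, h q h1]
    split_ifs
    · exact alg_congr h a1 h3
    · exact alg_congr h a0 h2

lemma asks_bound : ∀ T : DT Adr, ∃ M, Asks (fun q => q.size < M) T
  | .leaf _ => ⟨0, trivial⟩
  | .node q t0 t1 => by
    obtain ⟨M0, h0⟩ := asks_bound t0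
    obtain ⟨M1, h1⟩ := asks_bound t1
    refine ⟨q.size + 1 + M0 + M1, by omega, asks_mono (fun q hq => ?_) t0 h0,
      asks_mono (fun q hq => ?_) t1 h1⟩ <;> omega

lemma frm_bound : ∀ φ : Frm Adr, ∃ M, φ.All (fun q => q.size < M)
  | .test T => asks_bound T
  | .ex N κ φ => by
    choose M hM using fun y => frm_bound (φ y)
    refine ⟨∑ y, M y, fun y => frm_mono (fun q hq => ?_) _ (hM y)⟩
    exact lt_of_lt_of_le hq (Finset.single_le_sum (fun _ _ => Nat.zero_le _) (Finset.mem_univ y))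
  | .all N κ φ => by
    choose M hM using fun y => frm_bound (φ y)
    refine ⟨∑ y, M y, fun y => frm_mono (fun q hq => ?_) _ (hM y)⟩
    exact lt_of_lt_of_le hq (Finset.single_le_sum (fun _ _ => Nat.zero_le _) (Finset.mem_univ y))

lemma alg_bound : ∀ a : Alg Adr, ∃ M, a.All (fun q => q.size < M)
  | .tail φ => frm_bound φ
  | .read q a0 a1 => by
    obtain ⟨M0, h0⟩ := alg_bound a0
    obtain ⟨M1, h1⟩ := alg_bound a1
    refine ⟨q.size + 1 + M0 + M1, by omega, alg_mono (fun q hq => ?_) a0 h0,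
      alg_mono (fun q hq => ?_) a1 h1⟩ <;> omega

lemma alt_congr {n : ℕ} : ∀ (t : ℕ) (o : Bool) (P Q : (Fin t → Fin n) → Prop),
    (∀ p, P p ↔ Q p) → (Alt n o t P ↔ Alt n o t Q)
  | 0, _, P, Q, h => by
    cases ‹Bool› <;> exact h _
  | t + 1, true, P, Q, h => exists_congr fun i => alt_congr t false _ _ fun p => h _
  | t + 1, false, P, Q, h => forall_congr' fun i => alt_congr t true _ _ fun p => h _

lemma sip_congr {A B : Adr → Bool} {t k n : ℕ} (h : ∀ q : Adr, q.size = n → A q = B q) :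
    Sip A t k n ↔ Sip B t k n := by
  unfold Sip
  refine exists_congr fun x => alt_congr t false _ _ fun y => ?_
  rw [h _ rfl]

lemma valid_congr {X : ℕ → XP} {A B : Adr → Bool} {e k : ℕ} {x : List Bool}
    (h : ∀ q : Adr, q.size ≤ (X e).stamp k x → A q = B q) (hA : Valid X A e k x) :
    Valid X B e k x := by
  unfold Valid at hA ⊢
  have h1 : ((X e).run k x).eval A = ((X e).run k x).eval B := by
    refine asks_congr (P := fun q => q.size < (X e).F k * (x.length + 1) ^ (X e).c)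
      (fun q hq => h q ?_) _ ((X e).asks k x)
    unfold XP.stamp
    omega
  have h2 : (X e).count A e k x = (X e).count B e k x := by
    unfold XP.count
    congr 1
    refine Finset.filter_congr fun y _ => ?_
    rw [h _ le_rfl]
  rw [← h1, ← h2]
  exact hA

section main

variable (X : ℕ → XP) (a : ℕ → ℕ → ℕ → Alg Adr) (t c : ℕ → ℕ)

/-- A stage: a valid oracle and the size up to which it is fixed. -/
structure Stg where
  A : Adr → Bool
  N : ℕ
  val : ∀ e k x, Valid X A e k x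

lemma step (hSTG : S_STG) (hT : ∀ e, TypeA (t e) (c e) (a e)) (e k n₀ : ℕ) (s : Stg X) :
    ∃ s' : Stg X, s.N < s'.N ∧ (∀ q : Adr, q.size < s.N → s'.A q = s.A q) ∧
      (c e < k → ∃ n ≥ n₀, n < s'.N ∧ (a e k n).All (fun q => q.size < s'.N) ∧
        ¬ ((a e k n).Accepts s'.A ↔ Sip s'.A (t e) k n)) := by
  by_cases hc : c e < k
  · obtain ⟨F, G, hFG⟩ := hT e
    obtain ⟨n₁, h1⟩ := hSTG X (t e) (c e) k F G hc
    obtain ⟨n, hn⟩ : ∃ n, n = n₀ + n₁ + s.N := ⟨_, rfl⟩
    obtain ⟨A', hv, hag, hf⟩ := h1 n (by omega) (a e k n) (hFG k n) s.A s.val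
    obtain ⟨M, hM⟩ := alg_bound (a e k n)
    refine ⟨⟨A', n + M + 1, hv⟩, ?_, fun q hq => hag q (by omega), fun _ => ⟨n, by omega, ?_, ?_, hf⟩⟩
    · change s.N < n + M + 1
      omega
    · change n < n + M + 1
      omega
    · refine alg_mono (fun q hq => ?_) _ hM
      change q.size < n + M + 1
      omega
  · exact ⟨⟨s.A, s.N + 1, s.val⟩, Nat.lt_succ_self _, fun _ _ => rfl, fun h => absurd h hc⟩

end main

end DIA

open DIA in
/-- **DIA** -/
theorem t_DIA (hFIX : S_FIX) (hSTG : S_STG) : S_DIA := by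
  intro X a t c hT
  have hpos : ∀ e k x, 0 < (X e).stamp k x := fun e k x => by
    unfold XP.stamp
    omega
  obtain ⟨A₀, -, hA₀⟩ := hFIX X (fun _ => false) (fun e k x _ => ⟨0, hpos e k x⟩)
  choose nxt hnxt using step X a t c hSTG hT
  let S : ℕ → Stg X := fun i => Nat.rec ⟨A₀, 0, hA₀⟩
    (fun i s => nxt i.unpair.1 i.unpair.2.unpair.1 i.unpair.2.unpair.2 s) i
  have hS : ∀ i, S (i + 1) = nxt i.unpair.1 i.unpair.2.unpair.1 i.unpair.2.unpair.2 (S i) :=
    fun i => rfl
  have hN : ∀ i, (S i).N < (S (i + 1)).N := fun i => by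
    rw [hS]
    exact (hnxt _ _ _ _).1
  have hmono : ∀ i j, i ≤ j → (S i).N ≤ (S j).N := by
    intro i j hij
    induction hij with
    | refl => exact le_rfl
    | step _ ih => exact ih.trans (hN _).le
  have hge : ∀ i, i ≤ (S i).N := by
    intro i
    induction i with
    | zero => exact Nat.zero_le _
    | succ i ih => exact Nat.succ_le_of_lt (lt_of_le_of_lt ih (hN i))
  have hstab : ∀ i j, i ≤ j → ∀ q : Adr, q.size < (S i).N → (S j).A q = (S i).A q := by
    intro i j hij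
    induction hij with
    | refl => exact fun _ _ => rfl
    | @step j hj ih =>
      intro q hq
      rw [← ih q hq, hS]
      exact (hnxt _ _ _ _).2.1 q (lt_of_lt_of_le hq (hmono i j hj))
  obtain ⟨A, hA⟩ : ∃ A : Adr → Bool, A = fun q => (S (q.size + 1)).A q := ⟨_, rfl⟩
  have hlim : ∀ i, ∀ q : Adr, q.size < (S i).N → A q = (S i).A q := by
    intro i q hq
    rw [hA]
    change (S (q.size + 1)).A q = (S i).A q
    rcases le_total i (q.size + 1) with h | h
    · exact hstab i _ h q hq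
    · refine (hstab _ i h q ?_).symm
      exact lt_of_lt_of_le (Nat.lt_succ_self _) (hge _)
  refine ⟨A, fun e k x => ?_, fun e k hk n₀ => ?_⟩
  · refine valid_congr (X := X) (A := (S ((X e).stamp k x + 1)).A) (fun q hq => ?_)
      ((S ((X e).stamp k x + 1)).val e k x)
    refine (hlim ((X e).stamp k x + 1) q ?_).symm
    exact lt_of_lt_of_le (Nat.lt_succ_of_le hq) (hge _)
  · obtain ⟨i, hi⟩ : ∃ i : ℕ, i = Nat.pair e (Nat.pair k n₀) := ⟨_, rfl⟩
    have h1 : i.unpair.1 = e := by rw [hi, Nat.unpair_pair]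
    have h2 : i.unpair.2.unpair.1 = k := by rw [hi, Nat.unpair_pair, Nat.unpair_pair]
    have h3 : i.unpair.2.unpair.2 = n₀ := by rw [hi, Nat.unpair_pair, Nat.unpair_pair]
    have h4 := (hnxt i.unpair.1 i.unpair.2.unpair.1 i.unpair.2.unpair.2 (S i)).2.2
    rw [← hS, h1, h2, h3] at h4
    obtain ⟨n, hn, hnN, hall, hf⟩ := h4 hk
    refine ⟨n, hn, fun h => hf ?_⟩
    have e1 : (a e k n).Accepts A ↔ (a e k n).Accepts (S (i + 1)).A :=
      alg_congr (fun q hq => hlim (i + 1) q hq) _ hall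
    have e2 : Sip A (t e) k n ↔ Sip (S (i + 1)).A (t e) k n :=
      sip_congr fun q hq => hlim (i + 1) q (by rw [hq]; exact hnN)
    exact e1.symm.trans (h.trans e2)

end Pool.Agent.OWH
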