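import Pool.Agent.Lib_helper62.PToda.Model

/-!
# An oracle with an infinite W-hierarchy relative to which the parameterized Toda theorem holds

Definitions (project OWH, problem MP_95e38d_lc).
-/

namespace Pool.Agent.OWH
open Pool.Agent.Lib_helper62.PToda

/-- Every question asked by a decision tree satisfies `P`. -/
def Asks {β : Type} (P : β → Prop) : DT β → Prop
  | .leaf _ => True
  | .node q t0 t1 => P q ∧ Asks P t0 ∧ Asks P t1

/-- Formulas: quantifiers over the tuples of length `κ` of elements of a set of `N` elements,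
with decision trees (tests) at the leaves. -/
inductive Frm (β : Type) : Type where
  | test (T : DT β) : Frm β
  | ex (N κ : ℕ) (φ : (Fin κ → Fin N) → Frm β) : Frm β
  | all (N κ : ℕ) (φ : (Fin κ → Fin N) → Frm β) : Frm β

/-- Truth of a formula for an oracle. -/
def Frm.Holds {β : Type} (A : β → Bool) : Frm β → Prop
  | .test T => T.eval A = true
  | .ex _ _ φ => ∃ y, (φ y).Holds A
  | .all _ _ φ => ∀ y, (φ y).Holds A

/-- At most `t` nested quantifier blocks, each over tuples of length at most `κ₀` of elements of a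
set with at most `N₀` elements, and tests of depth at most `d₀`. -/
def Frm.Within {β : Type} (N₀ κ₀ d₀ : ℕ) : ℕ → Frm β → Prop
  | _, .test T => T.depth ≤ d₀
  | 0, .ex _ _ _ => False
  | 0, .all _ _ _ => False
  | t + 1, .ex N κ φ => N ≤ N₀ ∧ κ ≤ κ₀ ∧ ∀ y, (φ y).Within N₀ κ₀ d₀ t
  | t + 1, .all N κ φ => N ≤ N₀ ∧ κ ≤ κ₀ ∧ ∀ y, (φ y).Within N₀ κ₀ d₀ t

/-- Every question of a formula satisfies `P`. -/
def Frm.All {β : Type} (P : β → Prop) : Frm β → Prop
  | .test T => Asks P T
  | .ex _ _ φ => ∀ y, (φ y).All P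
  | .all _ _ φ => ∀ y, (φ y).All P

/-- Oracle algorithms with a tail: a deterministic computation which asks oracle bits, followed by
a formula. -/
inductive Alg (β : Type) : Type where
  | tail (φ : Frm β) : Alg β
  | read (q : β) (a0 a1 : Alg β) : Alg β

/-- Acceptance. -/
def Alg.Accepts {β : Type} (A : β → Bool) : Alg β → Prop
  | .tail φ => φ.Holds A
  | .read q a0 a1 => if A q = true then a1.Accepts A else a0.Accepts A

/-- At most `D` questions before the tail, and a tail with the bounds `N₀, κ₀, d₀, t`. -/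
def Alg.Within {β : Type} (N₀ κ₀ d₀ t : ℕ) : ℕ → Alg β → Prop
  | _, .tail φ => φ.Within N₀ κ₀ d₀ t
  | 0, .read _ _ _ => False
  | D + 1, .read _ a0 a1 => a0.Within N₀ κ₀ d₀ t D ∧ a1.Within N₀ κ₀ d₀ t D

/-- Every question of an algorithm satisfies `P`. -/
def Alg.All {β : Type} (P : β → Prop) : Alg β → Prop
  | .tail φ => φ.All P
  | .read q a0 a1 => P q ∧ a0.All P ∧ a1.All P

/-- The addresses of the bits of an oracle. -/
inductive Adr : Type where
  | inp (k n : ℕ) (l : List ℕ) : Adr
  | ans (e k : ℕ) (x : List Bool) (s : ℕ) (y : List ℕ) : Adr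
  deriving DecidableEq

/-- The size of an address: one of the numbers which have to be written down for a question. -/
def Adr.size : Adr → ℕ
  | .inp _ n _ => n
  | .ans _ _ _ s _ => s

/-- XP algorithms with questions of fpt size. On the parameter `k` and the input `x` the algorithm
`run k x` asks only bits of size less than `F k * (|x|+1)^c`, and at most
`(F k * (|x|+1)^c)^(G k)` of them on every path. -/
structure XP where
  c : ℕ
  F : ℕ → ℕ
  G : ℕ → ℕ
  run : ℕ → List Bool → DT Adr
  asks : ∀ k x, Asks (fun q => q.size < F k * (x.length + 1) ^ c) (run k x)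
  cost : ∀ k x, (run k x).depth ≤ (F k * (x.length + 1) ^ c) ^ G k

/-- The numbers `s` used in the addresses of the coded answer. -/
def XP.stamp (X : XP) (k : ℕ) (x : List Bool) : ℕ := X.F k * (x.length + 1) ^ X.c + 8

/-- The number of `y` in `{0,...,s-1}^(G k + 1)` with `A (e, k, x, s, y) = 1`. -/
noncomputable def XP.count (X : XP) (A : Adr → Bool) (e k : ℕ) (x : List Bool) : ℕ :=
  (Finset.univ.filter (fun y : Fin (X.G k + 1) → Fin (X.stamp k x) =>
    A (.ans e k x (X.stamp k x) (List.ofFn fun i => (y i : ℕ))) = true)).card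

/-- Alternating quantifiers over `{0,...,n-1}`, the first one is `∃` if `o = true`. -/
def Alt (n : ℕ) : Bool → (t : ℕ) → ((Fin t → Fin n) → Prop) → Prop
  | _, 0, P => P Fin.elim0
  | true, t + 1, P => ∃ i, Alt n false t (fun p => P (Fin.cons i p))
  | false, t + 1, P => ∀ i, Alt n true t (fun p => P (Fin.cons i p))

/-- The problem `Sip_t` with parameter `k` on the input `n`: is there `x` in `{0,...,n-1}^k` such
that for all `y₁` there is `y₂` ... (`t` alternating quantifiers over `{0,...,n-1}`) the bit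
`A (k, n, x y)` is one? -/
def Sip (A : Adr → Bool) (t k n : ℕ) : Prop :=
  ∃ x : Fin k → Fin n, Alt n false t (fun y => A (.inp k n
    ((List.ofFn fun i => (x i : ℕ)) ++ (List.ofFn fun i => (y i : ℕ)))) = true)

/-- Algorithms of type `A[t]` on the inputs `(k, n)`: with parameter `k` and size `n` at most
`F k * n ^ c` questions, then a formula with `t` quantifier blocks of at most `G k` variables over
a set of `F k * n ^ c` elements and tests with at most `G k` questions. -/
def TypeA (t c : ℕ) (a : ℕ → ℕ → Alg Adr) : Prop :=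
  ∃ F G : ℕ → ℕ, ∀ k n, (a k n).Within (F k * n ^ c) (G k) (G k) t (F k * n ^ c)

/-- The main statement. -/
def MainStatement : Prop :=
  (∀ (X : ℕ → XP) (a : ℕ → ℕ → ℕ → Alg Adr) (t c : ℕ → ℕ), (∀ e, TypeA (t e) (c e) (a e)) →
    ∃ A : Adr → Bool,
      (∀ e k x, ((X e).run k x).eval A = true ↔ Odd ((X e).count A e k x)) ∧
      (∀ e k, c e < k → ∀ n₀, ∃ n ≥ n₀, ¬ ((a e k n).Accepts A ↔ Sip A (t e) k n))) ∧
  (∀ (t c : ℕ) (F G : ℕ → ℕ) (a : ℕ → List Bool → Alg Adr),
    (∀ k x, (a k x).Within (F k * (x.length + 1) ^ c) (G k) (G k) t (F k * (x.length + 1) ^ c) ∧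
      (a k x).All (fun q => q.size < F k * (x.length + 1) ^ c)) →
    ∃ X : XP, ∀ A k x, (X.run k x).eval A = true ↔ (a k x).Accepts A)

end Pool.Agent.OWH
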