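import Pool.Agent.OWH.St

/-!
# Project OWH, module FIX: an oracle in which all coded answers are correct
-/

namespace Pool.Agent.OWH
open Pool.Agent.Lib_helper62.PToda

namespace FIXw

/-- A decision tree sees only the oracle on the bits it asks. -/
lemma eval_congr {β : Type} {P : β → Prop} {A B : β → Bool} (h : ∀ q, P q → A q = B q) :
    ∀ T : DT β, Asks P T → T.eval A = T.eval B
  | .leaf _, _ => rfl
  | .node q t0 t1, hT => by
      obtain ⟨hq, h0, h1⟩ := hT
      simp only [DT.eval, h q hq, eval_congr h t0 h0, eval_congr h t1 h1]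

open Classical in
/-- The number of the ones of the block `(e,k,x)` outside the bit `loc`. -/
noncomputable def c0 (X : ℕ → XP) (u : Adr → Bool) (e k : ℕ) (x : List Bool)
    (y₀ : Fin ((X e).G k + 1) → Fin ((X e).stamp k x)) : ℕ :=
  (Finset.univ.filter (fun y => y ≠ y₀ ∧ u (abit X e k x y) = true)).card

open Classical in
/-- The bit which makes the parity right. -/
noncomputable def fbit (X : ℕ → XP) (u : Adr → Bool)
    (loc : ∀ (e k : ℕ) (x : List Bool), Fin ((X e).G k + 1) → Fin ((X e).stamp k x))
    (v : Adr → Bool) (e k : ℕ) (x : List Bool) : Bool :=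
  decide (((X e).run k x).eval v = true ↔ ¬ Odd (c0 X u e k x (loc e k x)))

open Classical in
/-- The oracle after the treatment of the stamps `< M`. -/
noncomputable def lev (X : ℕ → XP) (u : Adr → Bool)
    (loc : ∀ (e k : ℕ) (x : List Bool), Fin ((X e).G k + 1) → Fin ((X e).stamp k x)) :
    ℕ → Adr → Bool
  | 0 => u
  | M + 1 => fun q => match q with
    | .inp k n l => u (.inp k n l)
    | .ans e k x s y =>
      if s = M ∧ s = (X e).stamp k x ∧ y = List.ofFn (fun i => (loc e k x i : ℕ)) then
        fbit X u loc (lev X u loc M) e k x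
      else lev X u loc M (.ans e k x s y)

variable (X : ℕ → XP) (u : Adr → Bool)
    (loc : ∀ (e k : ℕ) (x : List Bool), Fin ((X e).G k + 1) → Fin ((X e).stamp k x))

lemma lev_inp (M : ℕ) (k n : ℕ) (l : List ℕ) : lev X u loc M (.inp k n l) = u (.inp k n l) := by
  cases M <;> rfl

lemma lev_stable (q : Adr) (M : ℕ) (h : q.size < M) : lev X u loc M q = lev X u loc (q.size + 1) q := by
  cases q with
  | inp k n l => rw [lev_inp, lev_inp]
  | ans e k x s y =>
    simp only [Adr.size] at h ⊢
    induction M with
    | zero => omega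
    | succ M ih =>
      rcases Nat.lt_or_ge s M with h' | h'
      · rw [← ih h']
        have : ¬ (s = M ∧ s = (X e).stamp k x ∧ y = List.ofFn (fun i => (loc e k x i : ℕ))) := by
          rintro ⟨h1, -⟩
          omega
        simp only [lev, this, if_false]
      · have : s = M := by omega
        subst this
        rfl

/-- The final oracle. -/
noncomputable def fin (q : Adr) : Bool := lev X u loc (q.size + 1) q

lemma fin_eq_lev (q : Adr) (M : ℕ) (h : q.size < M) : fin X u loc q = lev X u loc M q :=
  (lev_stable X u loc q M h).symm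

lemma lev_of_not (M : ℕ) (q : Adr) (h : ∀ e k x, q ≠ abit X e k x (loc e k x)) :
    lev X u loc M q = u q := by
  cases q with
  | inp k n l => rw [lev_inp]
  | ans e k x s y =>
    induction M with
    | zero => rfl
    | succ M ih =>
      have : ¬ (s = M ∧ s = (X e).stamp k x ∧ y = List.ofFn (fun i => (loc e k x i : ℕ))) := by
        rintro ⟨-, h2, h3⟩
        apply h e k x
        rw [h2, h3]
        rfl
      simp only [lev, this, if_false]
      exact ih

lemma fin_loc (e k : ℕ) (x : List Bool) :
    fin X u loc (abit X e k x (loc e k x)) =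
      fbit X u loc (lev X u loc ((X e).stamp k x)) e k x := by
  have : (abit X e k x (loc e k x)).size = (X e).stamp k x := rfl
  unfold fin
  rw [this]
  simp only [lev, abit, and_self, if_true]

lemma abit_inj {e k : ℕ} {x : List Bool} {y y' : Fin ((X e).G k + 1) → Fin ((X e).stamp k x)}
    (h : abit X e k x y = abit X e k x y') : y = y' := by
  simp only [abit, Adr.ans.injEq, true_and] at h
  have h1 := List.ofFn_injective h
  funext i
  exact Fin.ext (congrFun h1 i)

lemma abit_ne_loc {e k : ℕ} {x : List Bool} {y : Fin ((X e).G k + 1) → Fin ((X e).stamp k x)}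
    (hy : y ≠ loc e k x) (e' k' : ℕ) (x' : List Bool) :
    abit X e k x y ≠ abit X e' k' x' (loc e' k' x') := by
  intro h
  have h0 := h
  simp only [abit, Adr.ans.injEq] at h
  obtain ⟨he, hk, hx, -, -⟩ := h
  subst he hk hx
  exact hy (abit_inj X h0)

lemma count_fin (e k : ℕ) (x : List Bool) :
    (X e).count (fin X u loc) e k x = c0 X u e k x (loc e k x) +
      (if fin X u loc (abit X e k x (loc e k x)) = true then 1 else 0) := by
  classical
  unfold XP.count c0
  have h1 : (Finset.univ.filter (fun y : Fin ((X e).G k + 1) → Fin ((X e).stamp k x) =>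
      fin X u loc (.ans e k x ((X e).stamp k x) (List.ofFn fun i => (y i : ℕ))) = true)) =
      (Finset.univ.filter (fun y => y ≠ loc e k x ∧ u (abit X e k x y) = true)) ∪
      (Finset.univ.filter (fun y => y = loc e k x ∧ fin X u loc (abit X e k x y) = true)) := by
    ext y
    simp only [Finset.mem_filter, Finset.mem_univ, true_and, Finset.mem_union]
    by_cases hy : y = loc e k x
    · subst hy
      simp [abit]
    · have h2 : fin X u loc (abit X e k x y) = u (abit X e k x y) :=
        lev_of_not X u loc _ _ (abit_ne_loc X loc hy)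
      constructor
      · intro h3
        left
        refine ⟨hy, ?_⟩
        rw [← h2]
        exact h3
      · rintro (⟨-, h3⟩ | ⟨h3, -⟩)
        · rw [← h2] at h3
          exact h3
        · exact absurd h3 hy
  rw [h1, Finset.card_union_of_disjoint]
  · congr 1
    split_ifs with h2
    · rw [Finset.card_eq_one]
      refine ⟨loc e k x, ?_⟩
      ext y
      simp only [Finset.mem_filter, Finset.mem_univ, true_and, Finset.mem_singleton]
      constructor
      · exact fun h => h.1
      · rintro rfl
        exact ⟨rfl, h2⟩
    · rw [Finset.card_eq_zero, Finset.filter_eq_empty_iff]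
      rintro y - ⟨h3, h4⟩
      subst h3
      exact h2 h4
  · rw [Finset.disjoint_filter]
    rintro y - ⟨h3, -⟩ ⟨h4, -⟩
    exact h3 h4

lemma eval_fin (e k : ℕ) (x : List Bool) :
    ((X e).run k x).eval (fin X u loc) =
      ((X e).run k x).eval (lev X u loc ((X e).stamp k x)) := by
  refine eval_congr ?_ _ ((X e).asks k x)
  intro q hq
  refine fin_eq_lev X u loc q _ (lt_of_lt_of_le hq ?_)
  unfold XP.stamp
  omega

lemma valid_fin (e k : ℕ) (x : List Bool) : Valid X (fin X u loc) e k x := by
  classical
  unfold Valid
  rw [count_fin, fin_loc, eval_fin]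
  unfold fbit
  by_cases h1 : ((X e).run k x).eval (lev X u loc ((X e).stamp k x)) = true <;>
    by_cases h2 : Odd (c0 X u e k x (loc e k x)) <;>
    simp [h1, h2, Nat.odd_add_one]

end FIXw

theorem t_FIX : S_FIX := by
  intro X u loc
  exact ⟨FIXw.fin X u loc, fun q h => FIXw.lev_of_not X u loc _ q h,
    fun e k x => FIXw.valid_fin X u loc e k x⟩

end Pool.Agent.OWH
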