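import Pool.Agent.OWH.St

/-!
# Project OWH: lemmas for the stage (module STG)
-/

namespace Pool.Agent.OWH
open Pool.Agent.Lib_helper62.PToda

/-- AGR. Two correct oracles agree on `P`. PROOF. Strong induction on `q.size`. In the second case
the questions `q'` on the path of the algorithm on `B` have `P q'` and size `< F * (|x|+1)^c <
stamp = q.size` (`XP.asks`, questions on the path are questions of the tree), so `A q' = B q'`; then
`eval A = eval B` for the tree `run k x` (oracles which agree on `pathOf B T` give the same answer)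
and `S_UNI`. The theorem may be `t_AGR (h : S_UNI) : S_AGR`. -/
def S_AGR : Prop :=
  ∀ (X : ℕ → XP) (A B : Adr → Bool) (P : Adr → Prop),
    (∀ e k x, Valid X A e k x) → (∀ e k x, Valid X B e k x) →
    (∀ q, P q → A q = B q ∨ ∃ e k x y₀, q = abit X e k x y₀ ∧
      (∀ y, y ≠ y₀ → A (abit X e k x y) = B (abit X e k x y)) ∧
      ∀ q' ∈ pathOf B ((X e).run k x), P q') →
    ∀ q, P q → A q = B q

/-- SUB. Substitution in formulas. Induction on `φ` (and on the trees). -/
def S_SUB : Prop :=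
  ∀ (β γ : Type) (σ : β → Bool ⊕ γ) (φ : Frm β),
    (∀ x, (φ.sub σ).Holds x ↔ φ.Holds (osub σ x)) ∧
    ∀ N₀ κ₀ d t, φ.Within N₀ κ₀ d t → (φ.sub σ).Within N₀ κ₀ d t

/-- CNG. A formula sees only the bits which it asks. -/
def S_CNG : Prop :=
  ∀ (β : Type) (P : β → Prop) (A B : β → Bool) (φ : Frm β), φ.All P →
    (∀ q, P q → A q = B q) → (φ.Holds A ↔ φ.Holds B)

/-- PTH. The questions before the tail on the oracle `O`, and the tail. -/
def S_PTH : Prop :=
  ∀ (β : Type) [DecidableEq β] (N₀ κ₀ d t D : ℕ) (O : β → Bool) (a : Alg β),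
    a.Within N₀ κ₀ d t D →
    ∃ (R : Finset β) (φ : Frm β), R.card ≤ D ∧ φ.Within N₀ κ₀ d t ∧
      ∀ A, (∀ q ∈ R, A q = O q) → (a.Accepts A ↔ φ.Holds A)

/-- XI. PROOF. The number of the `x : Fin k → Fin n` with `inp k n (x ++ l) ∈ cl` for some `l` is at
most `|cl|` (the first `k` entries of the list determine `x`), so at least `ν` elements of
`Fin k → Fin n` (`n ^ k` elements) remain. -/
def S_XI : Prop :=
  ∀ (k n ν K : ℕ) (cl : Finset Adr), cl.card ≤ K → K + ν ≤ n ^ k →
    ∃ ξ : Fin ν → Fin k → Fin n, Function.Injective ξ ∧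
      ∀ i l, Adr.inp k n ((List.ofFn fun j => (ξ i j : ℕ)) ++ l) ∉ cl

/-- INJ. PROOF. More than half of the `s ^ (G+1) ≥ s > n` bits are not in `cl`, and there are
`(L^6)^t * L^3 = L^(6t+3)` positions, `2 * L^(6t+3) ≤ L^(6t+12) ≤ n`. -/
def S_INJ : Prop :=
  ∀ (X : ℕ → XP) (cl : Finset Adr) (n L t : ℕ), 2 ≤ L → L ^ (6 * t + 12) ≤ n →
    ∀ e k x, n < (X e).stamp k x →
    2 * (Finset.univ.filter (fun y => abit X e k x y ∈ cl)).card <
      Fintype.card (Fin ((X e).G k + 1) → Fin ((X e).stamp k x)) →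
    ∃ ι : Pos t (L ^ 6) (L ^ 3) → Fin ((X e).G k + 1) → Fin ((X e).stamp k x),
      Function.Injective ι ∧ ∀ v, abit X e k x (ι v) ∉ cl

/-- LIV. The substitution for the bits `inp k n _`. PROOF. `s l = inr v` if `inp k n l = liveAdr v`
(unique as `ξ` is injective and both parts of the list have given lengths); otherwise `s l = inl b`
with `b = true` iff there are `i`, `y : Fin t → Fin n` with `l = ξ i ++ y` such that the first level
which is out of range (`outAt`, `w = (i, y_1, ..., y_t)`) is odd. Last clause: `S_SIP`. An address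
`ξ i ++ y` with a level out of range is not a `liveAdr` (all levels of those are in range). The
theorem may be `t_LIV (h : S_SIP) : S_LIV`. -/
def S_LIV : Prop :=
  ∀ (t k n ν m : ℕ) (ξ : Fin ν → Fin k → Fin n) (hm : m ≤ ν), ν ≤ n → 0 < m →
    Function.Injective ξ →
    ∃ s : List ℕ → Bool ⊕ Pos t ν m,
      (∀ v, ∃ l, liveAdr ξ hm v = .inp k n l ∧ s l = .inr v) ∧
      (∀ l v, s l = .inr v → Adr.inp k n l = liveAdr ξ hm v) ∧
      (∀ l, (∀ i l', l ≠ (List.ofFn fun j => (ξ i j : ℕ)) ++ l') → s l = .inl false) ∧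
      ∀ A : Adr → Bool, (∀ l b, s l = .inl b → A (.inp k n l) = b) →
        (Sip A t k n ↔ Pf t ν m (fun v => A (liveAdr ξ hm v)))

end Pool.Agent.OWH
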