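import Mathlib
import Pool.Agent.OWH.St2

/-!
# Project OWH: the module INJ
-/

set_option autoImplicit false

namespace Pool.Agent.OWH
open Pool.Agent.Lib_helper62.PToda

theorem t_INJ : S_INJ := by
  intro X cl n L t hL hn e k x hs hcl
  have hcard : Fintype.card (Pos t (L ^ 6) (L ^ 3)) = (L ^ 6) ^ t * L ^ 3 := by
    simp [Pos]
  have hpow : (L ^ 6) ^ t * L ^ 3 = L ^ (6 * t + 3) := by
    rw [← pow_mul, ← pow_add]
  have h2 : 2 * L ^ (6 * t + 3) ≤ L ^ (6 * t + 12) := by
    have h9 : 2 ≤ L ^ 9 := hL.trans (Nat.le_self_pow (by norm_num) L)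
    calc 2 * L ^ (6 * t + 3) ≤ L ^ 9 * L ^ (6 * t + 3) := Nat.mul_le_mul_right _ h9
      _ = L ^ (6 * t + 12) := by rw [← pow_add]; congr 1; ring
  have htot : (X e).stamp k x ≤
      Fintype.card (Fin ((X e).G k + 1) → Fin ((X e).stamp k x)) := by
    rw [Fintype.card_fun, Fintype.card_fin, Fintype.card_fin]
    exact Nat.le_self_pow (by omega) _
  have hsplit := Finset.card_filter_add_card_filter_not
    (s := (Finset.univ : Finset (Fin ((X e).G k + 1) → Fin ((X e).stamp k x))))
    (fun y => abit X e k x y ∈ cl)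
  rw [Finset.card_univ] at hsplit
  have hle : Fintype.card (Pos t (L ^ 6) (L ^ 3)) ≤ Fintype.card
      {y : Fin ((X e).G k + 1) → Fin ((X e).stamp k x) // abit X e k x y ∉ cl} := by
    rw [Fintype.card_subtype, hcard, hpow]
    omega
  obtain ⟨f⟩ := Function.Embedding.nonempty_of_card_le hle
  exact ⟨fun v => (f v).1, fun v v' h => f.injective (Subtype.ext h), fun v => (f v).2⟩

end Pool.Agent.OWH
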