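import Pool.Agent.OWH.St2

/-!
# Project OWH, module INJ: injections of the positions into the free bits of a block
-/

namespace Pool.Agent.OWH
open Pool.Agent.Lib_helper62.PToda

theorem t_INJ2 : S_INJ := by
  classical
  intro X cl n L t hL hLn e k x hn hcl
  set S := Finset.univ.filter (fun y : Fin ((X e).G k + 1) → Fin ((X e).stamp k x) =>
    abit X e k x y ∉ cl) with hS
  have h1 : (Finset.univ.filter (fun y : Fin ((X e).G k + 1) → Fin ((X e).stamp k x) =>
      abit X e k x y ∈ cl)).card + S.card =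
      Fintype.card (Fin ((X e).G k + 1) → Fin ((X e).stamp k x)) := by
    rw [← Finset.card_univ]
    exact Finset.card_filter_add_card_filter_not _
  have h2 : Fintype.card (Fin ((X e).G k + 1) → Fin ((X e).stamp k x)) =
      (X e).stamp k x ^ ((X e).G k + 1) := by simp
  have h3 : (X e).stamp k x ≤ (X e).stamp k x ^ ((X e).G k + 1) :=
    Nat.le_self_pow (by omega) _
  have h4 : Fintype.card (Pos t (L ^ 6) (L ^ 3)) = L ^ (6 * t + 3) := by
    simp only [Fintype.card_prod, Fintype.card_fun, Fintype.card_fin]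
    rw [← pow_mul, ← pow_add]
  have h5 : 2 * L ^ (6 * t + 3) ≤ L ^ (6 * t + 12) := by
    have : L ^ (6 * t + 12) = L ^ (6 * t + 3) * L ^ 8 * L := by ring
    rw [this]
    have h6 : 1 ≤ L ^ 8 := Nat.one_le_pow _ _ (by omega)
    nlinarith [Nat.mul_le_mul (Nat.mul_le_mul (le_refl (L ^ (6 * t + 3))) h6) hL]
  have h6 : Fintype.card (Pos t (L ^ 6) (L ^ 3)) ≤ Fintype.card {y // y ∈ S} := by
    rw [Fintype.card_coe, h4]
    omega
  obtain ⟨f⟩ := Function.Embedding.nonempty_of_card_le h6
  refine ⟨fun v => (f v).1, fun v v' h => f.injective (Subtype.ext h), fun v => ?_⟩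
  exact (Finset.mem_filter.1 (f v).2).2

end Pool.Agent.OWH
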