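import Pool.Agent.OWH.St2

/-!
# OWH, module LIV: the substitution for the bits of the problem Sip
-/

namespace Pool.Agent.OWH
open Pool.Agent.Lib_helper62.PToda

namespace LIVx

variable {t k n ν m : ℕ}

/-- The sequence of a position. -/
def sq (hm : m ≤ ν) (v : Pos t ν m) : Fin (t + 1) → Fin ν :=
  Fin.snoc (α := fun _ => Fin ν) v.1 (v.2.castLE hm)

lemma sq_inj (hm : m ≤ ν) : Function.Injective (sq (t := t) hm) := by
  intro v v' h
  have h1 : ∀ j : Fin t, v.1 j = v'.1 j := by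
    intro j
    have := congrFun h j.castSucc
    simpa only [sq, Fin.snoc_castSucc] using this
  have h2 : v.2.castLE hm = v'.2.castLE hm := by
    have := congrFun h (Fin.last t)
    simpa only [sq, Fin.snoc_last] using this
  exact Prod.ext (funext h1) (Fin.castLE_injective hm h2)

/-- The list of a position. -/
def lv (ξ : Fin ν → Fin k → Fin n) (hm : m ≤ ν) (v : Pos t ν m) : List ℕ :=
  (List.ofFn fun i => (ξ (sq hm v 0) i : ℕ)) ++ List.ofFn fun l : Fin t => (sq hm v l.succ : ℕ)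

lemma liveAdr_eq (ξ : Fin ν → Fin k → Fin n) (hm : m ≤ ν) (v : Pos t ν m) :
    liveAdr ξ hm v = .inp k n (lv ξ hm v) := rfl

lemma split {x x' : Fin k → Fin n} {l l' : List ℕ}
    (h : (List.ofFn fun j => (x j : ℕ)) ++ l = (List.ofFn fun j => (x' j : ℕ)) ++ l') :
    x = x' ∧ l = l' := by
  obtain ⟨h1, h2⟩ := List.append_inj h (by rw [List.length_ofFn, List.length_ofFn])
  have h3 := List.ofFn_injective h1
  exact ⟨funext fun j => Fin.ext (congrFun h3 j), h2⟩

lemma lv_inj (ξ : Fin ν → Fin k → Fin n) (hm : m ≤ ν) (hξ : Function.Injective ξ) :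
    Function.Injective (lv (t := t) ξ hm) := by
  intro v v' h
  obtain ⟨h1, h2⟩ := split h
  have h3 := hξ h1
  have h4 := List.ofFn_injective h2
  apply sq_inj hm
  funext l
  refine Fin.cases h3 (fun l => ?_) l
  exact Fin.ext (congrFun h4 l)

/-- The first level out of range of `(i, y)` is `l`. -/
def FirstOut (t ν m : ℕ) {n : ℕ} (i : Fin ν) (y : Fin t → Fin n) (l : ℕ) : Prop :=
  ∃ w : ℕ → ℕ, w 0 = i ∧ (∀ j : Fin t, w (j + 1) = y j) ∧ l ≤ t ∧ outAt t ν m w l ∧
    ∀ l' < l, ¬ outAt t ν m w l'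

lemma outAt_congr {w w' : ℕ → ℕ} {l : ℕ} (h : w l = w' l) (h' : outAt t ν m w l) :
    outAt t ν m w' l := by
  unfold outAt at h' ⊢
  rwa [h] at h'

lemma agree {i : Fin ν} {y : Fin t → Fin n} {w w' : ℕ → ℕ} (h0 : w 0 = i)
    (h1 : ∀ j : Fin t, w (j + 1) = y j) (h0' : w' 0 = i)
    (h1' : ∀ j : Fin t, w' (j + 1) = y j) {p : ℕ} (hp : p ≤ t) : w p = w' p := by
  rcases Nat.eq_zero_or_pos p with h | h
  · rw [h, h0, h0']
  · obtain ⟨q, rfl⟩ : ∃ q, p = q + 1 := ⟨p - 1, by omega⟩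
    have e1 := h1 ⟨q, by omega⟩
    have e2 := h1' ⟨q, by omega⟩
    simp only at e1 e2
    rw [e1, e2]

lemma first_unique {i : Fin ν} {y : Fin t → Fin n} {l l' : ℕ} (h : FirstOut t ν m i y l)
    (h' : FirstOut t ν m i y l') : l = l' := by
  obtain ⟨w, h0, h1, hl, ho, hf⟩ := h
  obtain ⟨w', h0', h1', hl', ho', hf'⟩ := h'
  rcases lt_trichotomy l l' with h | h | h
  · exact absurd (outAt_congr (agree h0 h1 h0' h1' hl) ho) (hf' l h)
  · exact h
  · exact absurd (outAt_congr (agree h0' h1' h0 h1 hl') ho') (hf l' h)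

lemma not_live {ξ : Fin ν → Fin k → Fin n} {hm : m ≤ ν} (hξ : Function.Injective ξ) {i : Fin ν}
    {y : Fin t → Fin n} {l : ℕ} (h : FirstOut t ν m i y l) (v : Pos t ν m)
    (hv : lv ξ hm v = (List.ofFn fun j => (ξ i j : ℕ)) ++ List.ofFn fun j => (y j : ℕ)) :
    False := by
  obtain ⟨w, h0, h1, hl, ho, -⟩ := h
  obtain ⟨h3, h4⟩ := split hv
  have h5 := hξ h3
  have h6 := List.ofFn_injective h4
  have h7 : ∀ p : Fin (t + 1), w p = sq hm v p := by
    intro p
    refine Fin.cases ?_ (fun q => ?_) p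
    · rw [h5]
      exact h0
    · have e1 := h1 q
      have e2 := congrFun h6 q
      rw [Fin.val_succ, e1, ← e2]
  have h8 := h7 ⟨l, by omega⟩
  simp only at h8
  unfold outAt at ho
  split_ifs at ho with hlt
  · have e : (⟨l, by omega⟩ : Fin (t + 1)) = Fin.last t := Fin.ext hlt
    rw [e] at h8
    have e2 : (sq hm v (Fin.last t) : ℕ) = v.2 := by
      simp only [sq, Fin.snoc_last, Fin.val_castLE]
    have := v.2.2
    omega
  · have := (sq hm v ⟨l, by omega⟩).2
    omega

end LIVx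

open LIVx in
/-- LIV: the substitution for the bits of the problem Sip. -/
theorem t_LIV (h : S_SIP) : S_LIV := by
  classical
  intro t k n ν m ξ hm hν h0 hξ
  set Q : List ℕ → Prop := fun l => ∃ (i : Fin ν) (y : Fin t → Fin n) (p : ℕ),
    l = (List.ofFn fun j => (ξ i j : ℕ)) ++ (List.ofFn fun j => (y j : ℕ)) ∧
      FirstOut t ν m i y p ∧ p % 2 = 1 with hQ
  set s : List ℕ → Bool ⊕ Pos t ν m := fun l =>
    if hl : ∃ v, lv ξ hm v = l then .inr hl.choose else .inl (decide (Q l)) with hs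
  have hs1 : ∀ v, s (lv ξ hm v) = .inr v := by
    intro v
    have hl : ∃ v', lv ξ hm v' = lv ξ hm v := ⟨v, rfl⟩
    have e : s (lv ξ hm v) = .inr hl.choose := dif_pos hl
    rw [e, lv_inj ξ hm hξ hl.choose_spec]
  have hs2 : ∀ l, (¬ ∃ v, lv ξ hm v = l) → s l = .inl (decide (Q l)) := fun l hl => dif_neg hl
  refine ⟨s, fun v => ⟨lv ξ hm v, rfl, hs1 v⟩, ?_, ?_, ?_⟩
  · intro l v hl
    by_cases h1 : ∃ v' : Pos t ν m, lv ξ hm v' = l
    · obtain ⟨v', rfl⟩ := h1
      rw [hs1] at hl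
      rw [Sum.inr.inj hl]
      rfl
    · rw [hs2 l h1] at hl
      exact absurd hl (by simp)
  · intro l hl
    rw [hs2 l fun ⟨v, hv⟩ => hl _ _ hv.symm]
    congr 1
    rw [decide_eq_false_iff_not]
    rintro ⟨i, y, p, h1, -⟩
    exact hl _ _ h1
  · intro A hA
    apply h t k n ν m ξ hm hν h0 A hξ
    · intro x y hx
      apply hA
      rw [hs2]
      · congr 1
        rw [decide_eq_false_iff_not]
        rintro ⟨i, y', p, h1, -⟩
        exact hx i (split h1).1.symm
      · rintro ⟨v, hv⟩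
        exact hx _ (split hv).1
    · intro i y w l h1 h2 h3 h4 h5
      have hF : FirstOut t ν m i y l := ⟨w, h1, h2, h3, h4, h5⟩
      apply hA
      rw [hs2 _ fun ⟨v, hv⟩ => not_live hξ hF v hv]
      congr 1
      rw [decide_eq_decide]
      constructor
      · rintro ⟨i', y', p, e1, e2, e3⟩
        obtain ⟨e4, e5⟩ := split e1
        have e6 := hξ e4
        have e7 := List.ofFn_injective e5
        have e8 : y = y' := funext fun j => Fin.ext (congrFun e7 j)
        subst e6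
        subst e8
        rw [first_unique hF e2]
        exact e3
      · intro hl
        exact ⟨i, y, l, rfl, hF, hl⟩

end Pool.Agent.OWH
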