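import Pool.Agent.OWH.St

/-!
# Project OWH, module NUM: the numbers
-/

set_option autoImplicit false

namespace Pool.Agent.OWH

open Pool.Agent.Lib_helper62.PToda

theorem t_NUM : S_NUM := by
  intro t c k F G hck
  refine ⟨(2 * (6 * t + 12) * c + 1) * G + (2 * (6 * t + 12) * c + 1) * G * t + G, fun L₀ => ?_⟩
  refine ⟨(L₀ + 4 * F + 2) ^ (6 * t + 12), fun n hn => ?_⟩
  have hpos : 0 < (L₀ + 4 * F + 2) ^ (6 * t + 12) := by positivity
  have hn1 : 1 ≤ n := by omega
  set L := Nat.findGreatest (fun L => L ^ (6 * t + 12) ≤ n) n with hL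
  have hLle : L₀ + 4 * F + 2 ≤ L := by
    refine Nat.le_findGreatest ?_ hn
    refine le_trans ?_ hn
    exact Nat.le_self_pow (by omega) _
  have h1 : L ^ (6 * t + 12) ≤ n := by
    have := Nat.findGreatest_spec (P := fun L => L ^ (6 * t + 12) ≤ n) (n := n) (m := 1) hn1
      (by simpa using hn1)
    exact this
  have h2 : n < (L + 1) ^ (6 * t + 12) := by
    by_contra hcon
    push Not at hcon
    have h3 : L + 1 ≤ n := le_trans (Nat.le_self_pow (by omega) _) hcon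
    have h4 := Nat.le_findGreatest (P := fun L => L ^ (6 * t + 12) ≤ n) h3 hcon
    omega
  have h3 : n ≤ L ^ (2 * (6 * t + 12)) := by
    refine le_trans h2.le ?_
    rw [pow_mul]
    refine Nat.pow_le_pow_left ?_ _
    nlinarith
  have hL1 : 1 ≤ L := by omega
  refine ⟨L, by omega, hL1, h1, ?_, ?_⟩
  · have h4 : L ^ 12 ≤ n := le_trans (Nat.pow_le_pow_right hL1 (by omega)) h1
    have h5 : L ^ 12 = L ^ 6 * L ^ 6 := by ring
    have h6 : L ≤ L ^ 6 := Nat.le_self_pow (by omega) _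
    have h7 : 4 * F + L ^ 6 ≤ n := by
      refine le_trans ?_ h4
      rw [h5]
      nlinarith
    have h8 : n ^ (c + 1) ≤ n ^ k := Nat.pow_le_pow_right hn1 hck
    refine le_trans ?_ h8
    rw [pow_succ]
    have h9 : 1 ≤ n ^ c := Nat.one_le_pow _ _ hn1
    calc 4 * (F * n ^ c) + L ^ 6 ≤ 4 * (F * n ^ c) + n ^ c * L ^ 6 := by
          have : 1 * L ^ 6 ≤ n ^ c * L ^ 6 := Nat.mul_le_mul_right _ h9
          omega
      _ = n ^ c * (4 * F + L ^ 6) := by ring
      _ ≤ n ^ c * n := Nat.mul_le_mul_left _ h7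
  · have h4 : F * n ^ c + 1 ≤ L ^ (2 * (6 * t + 12) * c + 1) := by
      have h5 : 1 ≤ n ^ c := Nat.one_le_pow _ _ hn1
      have h6 : n ^ c ≤ L ^ (2 * (6 * t + 12) * c) := by
        rw [pow_mul]
        exact Nat.pow_le_pow_left h3 _
      calc F * n ^ c + 1 ≤ F * n ^ c + n ^ c := by omega
        _ = (F + 1) * n ^ c := by ring
        _ ≤ L * L ^ (2 * (6 * t + 12) * c) := Nat.mul_le_mul (by omega) h6
        _ = L ^ (2 * (6 * t + 12) * c + 1) := by ring
    have h5 : (F * n ^ c + 1) ^ G ≤ L ^ ((2 * (6 * t + 12) * c + 1) * G) := by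
      rw [pow_mul]
      exact Nat.pow_le_pow_left h4 _
    refine ⟨le_trans h5 (Nat.pow_le_pow_right hL1 (by omega)), ?_⟩
    have h6 : ((F * n ^ c + 1) ^ G) ^ t ≤ L ^ ((2 * (6 * t + 12) * c + 1) * G * t) := by
      rw [pow_mul _ _ t]
      exact Nat.pow_le_pow_left h5 _
    have h7 : 2 ^ G ≤ L ^ G := Nat.pow_le_pow_left (by omega) _
    calc ((F * n ^ c + 1) ^ G) ^ t * 2 ^ G ≤
          L ^ ((2 * (6 * t + 12) * c + 1) * G * t) * L ^ G := Nat.mul_le_mul h6 h7
      _ = L ^ ((2 * (6 * t + 12) * c + 1) * G * t + G) := by rw [← pow_add]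
      _ ≤ _ := Nat.pow_le_pow_right hL1 (by omega)

end Pool.Agent.OWH
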