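import Pool.Agent.OWH.St

/-! # Module PRB of the project OWH: union bound in a finite product space -/

set_option autoImplicit false
set_option maxHeartbeats 4000000

namespace Pool.Agent.OWH

namespace PRB

theorem bern (L : ℕ) (h : 0 < L) : 2 * (2 * L) ^ (2 * L) ≤ (2 * L + 1) ^ (2 * L) := by
  obtain ⟨m, hm⟩ : ∃ m, 2 * L = m + 1 := ⟨2 * L - 1, by omega⟩
  rw [hm]
  have h1 : (m + 1 : ℕ) * (m + 1) ^ m + (m + 1) ^ (m + 1) ≤ (m + 1 + 1) ^ (m + 1) := by
    have h2 := add_pow (m + 1 : ℕ) 1 (m + 1)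
    rw [h2]
    have h3 : (Finset.range (m + 1 + 1)).sum
        (fun k => (m + 1) ^ k * 1 ^ (m + 1 - k) * ((m + 1).choose k)) ≥
        (({m, m + 1} : Finset ℕ)).sum
        (fun k => (m + 1) ^ k * 1 ^ (m + 1 - k) * ((m + 1).choose k)) := by
      apply Finset.sum_le_sum_of_subset
      intro x hx
      simp only [Finset.mem_insert, Finset.mem_singleton] at hx
      simp only [Finset.mem_range]
      omega
    refine le_trans ?_ h3
    rw [Finset.sum_pair (by omega)]
    simp only [one_pow, mul_one, Nat.choose_self, Nat.choose_succ_self_right]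
    rw [mul_comm]
  calc 2 * (m + 1) ^ (m + 1) = (m + 1) * (m + 1) ^ m + (m + 1) ^ (m + 1) := by ring
    _ ≤ _ := h1

theorem key (L k : ℕ) (h : 0 < L) (hk : 2 * L * L ≤ k) : 2 ^ L * (2 * L) ^ k ≤ (2 * L + 1) ^ k := by
  obtain ⟨j, rfl⟩ := Nat.exists_eq_add_of_le hk
  have h1 : (2 * (2 * L) ^ (2 * L)) ^ L ≤ ((2 * L + 1) ^ (2 * L)) ^ L :=
    Nat.pow_le_pow_left (bern L h) L
  rw [mul_pow, ← pow_mul, ← pow_mul] at h1
  calc 2 ^ L * (2 * L) ^ (2 * L * L + j) = (2 ^ L * (2 * L) ^ (2 * L * L)) * (2 * L) ^ j := by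
        rw [pow_add]; ring
    _ ≤ (2 * L + 1) ^ (2 * L * L) * (2 * L + 1) ^ j :=
        Nat.mul_le_mul h1 (Nat.pow_le_pow_left (by omega) j)
    _ = _ := by rw [pow_add]

theorem grow (a : ℕ) : ∃ L₀ : ℕ, ∀ L ≥ L₀, 4 * L ^ a ≤ 2 ^ L := by
  have h := tendsto_pow_const_div_const_pow_of_one_lt a (show (1 : ℝ) < 2 by norm_num)
  have h2 := h.eventually (gt_mem_nhds (show (0 : ℝ) < 1 / 4 by norm_num))
  obtain ⟨L₀, hL⟩ := Filter.eventually_atTop.1 h2
  refine ⟨L₀, fun L hL' => ?_⟩
  have h3 := hL L hL'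
  have h4 : (0 : ℝ) < 2 ^ L := by positivity
  rw [div_lt_iff₀ h4] at h3
  have h5 : (4 : ℝ) * (L : ℝ) ^ a ≤ 2 ^ L := by linarith
  exact_mod_cast h5

section
variable {I : Type} [Fintype I] [DecidableEq I]

/-- The states which are nowhere zero on `S`. -/
def nz (M : ℕ) (S : Finset I) : Finset (I → Fin (M + 1)) :=
  Fintype.piFinset (fun i => if i ∈ S then Finset.univ.erase 0 else Finset.univ)

theorem mem_nz (M : ℕ) (S : Finset I) (ω : I → Fin (M + 1)) :
    ω ∈ nz M S ↔ ∀ i ∈ S, ω i ≠ 0 := by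
  unfold nz
  rw [Fintype.mem_piFinset]
  constructor
  · intro h i hi
    have := h i
    rw [if_pos hi] at this
    simpa using this
  · intro h i
    by_cases hi : i ∈ S
    · rw [if_pos hi]
      simpa using h i hi
    · rw [if_neg hi]
      exact Finset.mem_univ _

theorem card_nz (M : ℕ) (S : Finset I) :
    (nz M S).card * (M + 1) ^ S.card = M ^ S.card * (M + 1) ^ Fintype.card I := by
  unfold nz
  rw [Fintype.card_piFinset]
  have h1 : ∀ i : I, (if i ∈ S then (Finset.univ : Finset (Fin (M + 1))).erase 0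
      else Finset.univ).card = if i ∈ S then M else M + 1 := by
    intro i
    by_cases hi : i ∈ S
    · rw [if_pos hi, if_pos hi, Finset.card_erase_of_mem (Finset.mem_univ _)]
      simp
    · rw [if_neg hi, if_neg hi]
      simp
  rw [Finset.prod_congr rfl (fun i _ => h1 i)]
  have h2 : ((Finset.univ : Finset I).prod fun i => if i ∈ S then M else M + 1) *
      ((Finset.univ : Finset I).prod fun i => if i ∈ S then M + 1 else 1) =
      ((Finset.univ : Finset I).prod fun i => if i ∈ S then M else 1) *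
      ((Finset.univ : Finset I).prod fun _ => M + 1) := by
    rw [← Finset.prod_mul_distrib, ← Finset.prod_mul_distrib]
    refine Finset.prod_congr rfl fun i _ => ?_
    by_cases hi : i ∈ S
    · simp [hi]
    · simp [hi]
  have h3 : ((Finset.univ : Finset I).prod fun i => if i ∈ S then M + 1 else 1) =
      (M + 1) ^ S.card := by
    rw [Finset.prod_ite_mem, Finset.univ_inter, Finset.prod_const]
  have h4 : ((Finset.univ : Finset I).prod fun i => if i ∈ S then M else 1) = M ^ S.card := by
    rw [Finset.prod_ite_mem, Finset.univ_inter, Finset.prod_const]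
  have h5 : ((Finset.univ : Finset I).prod fun _ => M + 1) = (M + 1) ^ Fintype.card I := by
    rw [Finset.prod_const, Finset.card_univ]
  rw [h3, h4, h5] at h2
  exact h2

end

end PRB

open PRB in
theorem t_PRB : S_PRB := by
  intro a d
  obtain ⟨L₁, hL₁⟩ := grow a
  refine ⟨a + 1, L₁ + 4 * 4 ^ (d * (a + 1)) + 2, ?_⟩
  intro L hL I _ _ K B 𝒮 hK h𝒮 hS hB
  set C : ℕ := 4 ^ (d * (a + 1)) with hC
  have hCpos : 0 < C := by positivity
  have hLpos : 0 < L := by omega
  have hgr : 4 * L ^ a ≤ 2 ^ L := hL₁ L (by omega)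
  set N : ℕ := (2 * L + 1) ^ Fintype.card I with hN
  have hNpos : 0 < N := by positivity
  have hLa : 0 < L ^ a := by positivity
  -- first family
  have h1 : (Finset.univ.sum fun i => (B i).card) * 4 ≤ N := by
    have h2 : (Finset.univ.sum fun i => (B i).card) * L ^ (a + 1) ≤ L ^ a * (N * C) := by
      rw [Finset.sum_mul]
      calc (Finset.univ.sum fun i => (B i).card * L ^ (a + 1))
          ≤ Finset.univ.sum fun _ : Fin K => N * C := Finset.sum_le_sum fun i _ => hB i
        _ = K * (N * C) := by simp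
        _ ≤ L ^ a * (N * C) := Nat.mul_le_mul_right _ hK
    have h3 : (Finset.univ.sum fun i => (B i).card) * L ≤ N * C := by
      have h4 : L ^ a * ((Finset.univ.sum fun i => (B i).card) * L) ≤ L ^ a * (N * C) := by
        calc L ^ a * ((Finset.univ.sum fun i => (B i).card) * L)
            = (Finset.univ.sum fun i => (B i).card) * L ^ (a + 1) := by rw [pow_succ]; ring
          _ ≤ _ := h2
      exact Nat.le_of_mul_le_mul_left h4 hLa
    have h5 : 4 * C ≤ L := by omega
    have h6 : C * ((Finset.univ.sum fun i => (B i).card) * 4) ≤ C * N := by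
      calc C * ((Finset.univ.sum fun i => (B i).card) * 4)
          = (Finset.univ.sum fun i => (B i).card) * (4 * C) := by ring
        _ ≤ (Finset.univ.sum fun i => (B i).card) * L := Nat.mul_le_mul_left _ h5
        _ ≤ N * C := h3
        _ = C * N := by ring
    exact Nat.le_of_mul_le_mul_left h6 hCpos
  -- second family
  have h2 : (𝒮.sum fun S => (nz (2 * L) S).card) * 4 ≤ N := by
    have h3 : ∀ S ∈ 𝒮, (nz (2 * L) S).card * (4 * L ^ a) ≤ N := by
      intro S hSS
      have hk : 2 * L * L ≤ S.card := by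
        have h4 := hS S hSS
        have h5 : 2 * L * L ≤ L ^ 3 := by
          have h6 : L ^ 3 = L * L * L := by ring
          rw [h6]
          exact Nat.mul_le_mul_right _ (Nat.mul_le_mul_right _ (by omega))
        omega
      have h4 := key L S.card hLpos hk
      have h5 := card_nz (2 * L) S
      have hpos : 0 < (2 * L + 1) ^ S.card := by positivity
      have h6 : (2 * L + 1) ^ S.card * ((nz (2 * L) S).card * (4 * L ^ a)) ≤
          (2 * L + 1) ^ S.card * N := by
        calc (2 * L + 1) ^ S.card * ((nz (2 * L) S).card * (4 * L ^ a))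
            = ((nz (2 * L) S).card * (2 * L + 1) ^ S.card) * (4 * L ^ a) := by ring
          _ = ((2 * L) ^ S.card * N) * (4 * L ^ a) := by rw [h5]
          _ ≤ ((2 * L) ^ S.card * N) * 2 ^ L := Nat.mul_le_mul_left _ hgr
          _ = (2 ^ L * (2 * L) ^ S.card) * N := by ring
          _ ≤ (2 * L + 1) ^ S.card * N := Nat.mul_le_mul_right _ h4
      exact Nat.le_of_mul_le_mul_left h6 hpos
    have h4 : L ^ a * ((𝒮.sum fun S => (nz (2 * L) S).card) * 4) ≤ L ^ a * N := by
      calc L ^ a * ((𝒮.sum fun S => (nz (2 * L) S).card) * 4)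
          = (𝒮.sum fun S => (nz (2 * L) S).card) * (4 * L ^ a) := by ring
        _ = 𝒮.sum fun S => (nz (2 * L) S).card * (4 * L ^ a) := by rw [Finset.sum_mul]
        _ ≤ 𝒮.sum fun _ => N := Finset.sum_le_sum h3
        _ = 𝒮.card * N := by simp
        _ ≤ L ^ a * N := Nat.mul_le_mul_right _ h𝒮
    exact Nat.le_of_mul_le_mul_left h4 hLa
  -- union bound
  by_contra hcon
  push Not at hcon
  have hcov : (Finset.univ : Finset (I → Fin (2 * L + 1))) ⊆
      (Finset.univ.biUnion B) ∪ (𝒮.biUnion fun S => nz (2 * L) S) := by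
    intro ω _
    by_cases hω : ∀ i, ω ∉ B i
    · obtain ⟨S, hSS, hz⟩ := hcon ω hω
      refine Finset.mem_union_right _ (Finset.mem_biUnion.2 ⟨S, hSS, ?_⟩)
      rw [mem_nz]
      exact hz
    · push Not at hω
      obtain ⟨i, hi⟩ := hω
      exact Finset.mem_union_left _ (Finset.mem_biUnion.2 ⟨i, Finset.mem_univ _, hi⟩)
  have hcard := Finset.card_le_card hcov
  have hcu : (Finset.univ : Finset (I → Fin (2 * L + 1))).card = N := by
    rw [Finset.card_univ, Fintype.card_fun, Fintype.card_fin, hN]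
  rw [hcu] at hcard
  have hu := Finset.card_union_le (Finset.univ.biUnion B) (𝒮.biUnion fun S => nz (2 * L) S)
  have hu1 : (Finset.univ.biUnion B).card ≤ Finset.univ.sum fun i => (B i).card :=
    Finset.card_biUnion_le
  have hu2 : (𝒮.biUnion fun S => nz (2 * L) S).card ≤ 𝒮.sum fun S => (nz (2 * L) S).card :=
    Finset.card_biUnion_le
  omega

end Pool.Agent.OWH
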