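import Pool.Agent.OWH.St

/-!
# OWH, module RND: assembly of one round
-/

namespace Pool.Agent.OWH
open Pool.Agent.Lib_helper62.PToda

namespace RNDx

section sub
variable {β γ δ : Type}

lemma dsub_depth (σ : β → Bool ⊕ γ) (T : DT β) : (dsub σ T).depth ≤ T.depth := by
  induction T with
  | leaf b => exact le_rfl
  | node q t0 t1 h0 h1 =>
    simp only [dsub, DT.depth]
    rcases hq : σ q with b | w
    · cases b
      · show (dsub σ t0).depth ≤ _
        omega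
      · show (dsub σ t1).depth ≤ _
        omega
    · simp only [DT.depth]
      omega

lemma dsub_eval (σ : β → Bool ⊕ γ) (x : γ → Bool) (T : DT β) :
    (dsub σ T).eval x = T.eval (osub σ x) := by
  induction T with
  | leaf b => rfl
  | node q t0 t1 h0 h1 =>
    simp only [dsub, DT.eval]
    rcases hq : σ q with b | w
    · cases b
      · have e : osub σ x q = false := by simp [osub, hq]
        rw [e, ← h0]
        rfl
      · have e : osub σ x q = true := by simp [osub, hq]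
        rw [e, ← h1]
        rfl
    · have e : osub σ x q = x w := by simp [osub, hq]
      rw [e, ← h0, ← h1]
      rfl

lemma sub_within (σ : β → Bool ⊕ γ) {N₀ κ₀ d : ℕ} (φ : Frm β) :
    ∀ t, φ.Within N₀ κ₀ d t → (φ.sub σ).Within N₀ κ₀ d t := by
  induction φ with
  | test T =>
    intro t h
    have hT : T.depth ≤ d := by
      cases t <;> exact h
    have h2 : (dsub σ T).depth ≤ d := (dsub_depth σ T).trans hT
    cases t <;> exact h2
  | ex N κ φ ih =>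
    intro t h
    cases t with
    | zero => exact absurd h (by simp [Frm.Within])
    | succ t =>
      obtain ⟨hN, hκ, hy⟩ : N ≤ N₀ ∧ κ ≤ κ₀ ∧ ∀ y, (φ y).Within N₀ κ₀ d t := h
      exact ⟨hN, hκ, fun y => ih y t (hy y)⟩
  | all N κ φ ih =>
    intro t h
    cases t with
    | zero => exact absurd h (by simp [Frm.Within])
    | succ t =>
      obtain ⟨hN, hκ, hy⟩ : N ≤ N₀ ∧ κ ≤ κ₀ ∧ ∀ y, (φ y).Within N₀ κ₀ d t := h
      exact ⟨hN, hκ, fun y => ih y t (hy y)⟩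

lemma sub_holds (σ : β → Bool ⊕ γ) (x : γ → Bool) (φ : Frm β) :
    (φ.sub σ).Holds x ↔ φ.Holds (osub σ x) := by
  induction φ with
  | test T =>
    show (dsub σ T).eval x = true ↔ T.eval (osub σ x) = true
    rw [dsub_eval]
  | ex N κ φ ih => exact exists_congr ih
  | all N κ φ ih => exact forall_congr' ih

lemma osub_comp (σ : β → Bool ⊕ γ) (ρ : γ → Bool ⊕ δ) (x : δ → Bool) :
    osub (fun q => (σ q).elim .inl ρ) x = osub σ (osub ρ x) := by
  funext q
  simp only [osub]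
  rcases σ q with b | w
  · rfl
  · rfl

end sub

lemma heavy {r ν m : ℕ} {H : Type} (v v' : U (r + 1) ν m H) (h : hvOf v = true)
    (h' : blkOf v = blkOf v') : v = v' := by
  obtain ⟨p, o⟩ := v
  obtain ⟨p', o'⟩ := v'
  cases o with
  | none => exact absurd h (by simp [hvOf])
  | some a =>
    cases o' with
    | none => exact absurd h' (by simp [blkOf])
    | some a' =>
      simp only [blkOf, Sum.inr.injEq, Prod.mk.injEq] at h'
      rw [h'.1, h'.2]

lemma grp (m g : ℕ) (i' : Fin m) :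
    g ≤ (Finset.univ.filter fun i : Fin (m * g) => (i : ℕ) / g = i').card := by
  rcases Nat.eq_zero_or_pos g with hg | hg
  · rw [hg]
    exact Nat.zero_le _
  have hlt : ∀ a : Fin g, (i' : ℕ) * g + a < m * g := by
    intro a
    have h1 : ((i' : ℕ) + 1) * g ≤ m * g := Nat.mul_le_mul_right g i'.2
    have h2 : ((i' : ℕ) + 1) * g = i' * g + g := by ring
    have h3 := a.2
    omega
  have h := Finset.card_le_card_of_injOn (s := (Finset.univ : Finset (Fin g)))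
    (t := Finset.univ.filter fun i : Fin (m * g) => (i : ℕ) / g = i')
    (fun a => ⟨(i' : ℕ) * g + a, hlt a⟩) ?_ ?_
  · rwa [Finset.card_univ, Fintype.card_fin] at h
  · intro a _
    rw [Finset.mem_coe, Finset.mem_filter]
    refine ⟨Finset.mem_univ _, ?_⟩
    show ((i' : ℕ) * g + a) / g = i'
    rw [Nat.add_comm, Nat.add_mul_div_right _ _ hg, Nat.div_eq_of_lt a.2, Nat.zero_add]
  · intro a _ b _ he
    have h1 := congrArg Fin.val he
    apply Fin.ext
    have h2 : (i' : ℕ) * g + a = i' * g + b := h1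
    omega

/-- The coordinates. -/
abbrev Co (r ν m : ℕ) (H : Type) : Type := Blk r ν m H ⊕ U (r + 1) ν m H

/-- The index set of the sets of coordinates. -/
abbrev Ix (r ν m : ℕ) (H : Type) : Type :=
  (Fin (r + 1) → Fin ν) ⊕ (((Fin r → Fin ν) × Fin m) ⊕ ((Fin r → Fin ν) × (Fin m × H)))

lemma snoc_inj {r ν : ℕ} (p : Fin r → Fin ν) :
    Function.Injective fun i : Fin ν => (Fin.snoc (α := fun _ => Fin ν) p i : Fin (r + 1) → Fin ν) := by
  intro a b hab
  have h2 := congrFun hab (Fin.last r)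
  simp only [Fin.snoc_last] at h2
  exact h2

/-- The sets of coordinates. -/
def St (r m g : ℕ) (H : Type) : Ix r (m * g) m H → Finset (Co r (m * g) m H)
  | .inl p => Finset.univ.map ⟨fun j : Fin m => Sum.inr ((p, j), none), fun a b hab => by
      simpa using hab⟩
  | .inr (.inl q) => (Finset.univ.filter fun i : Fin (m * g) => (i : ℕ) / g = q.2).map
      ⟨fun i => Sum.inl (Sum.inl (Fin.snoc (α := fun _ => Fin (m * g)) q.1 i)), fun a b hab =>
        snoc_inj q.1 (Sum.inl.inj (Sum.inl.inj hab))⟩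
  | .inr (.inr q) => ((Finset.univ.filter fun i : Fin (m * g) => (i : ℕ) / g = q.2.1) ×ˢ
      (Finset.univ : Finset (Fin m))).map
      ⟨fun ij => Sum.inr ((Fin.snoc (α := fun _ => Fin (m * g)) q.1 ij.1, ij.2), some q.2.2),
        fun a b hab => by
          have h1 := Sum.inr.inj hab
          rw [Prod.mk.injEq, Prod.mk.injEq] at h1
          exact Prod.ext (snoc_inj q.1 h1.1.1) h1.1.2⟩

lemma St_card (r m g : ℕ) (H : Type) (hm : 0 < m) (hgm : g ≤ m) (q : Ix r (m * g) m H) :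
    g ≤ (St r m g H q).card := by
  rcases q with p | q | q
  · simp only [St]
    rw [Finset.card_map, Finset.card_univ, Fintype.card_fin]
    exact hgm
  · simp only [St]
    rw [Finset.card_map]
    exact grp m g q.2
  · simp only [St]
    rw [Finset.card_map, Finset.card_product, Finset.card_univ, Fintype.card_fin]
    exact (grp m g q.2.1).trans (Nat.le_mul_of_pos_right _ hm)

lemma family {I P : Type} [Fintype P] (F : P → Finset I) :
    ∃ 𝒮 : Finset (Finset I), 𝒮.card ≤ Fintype.card P ∧ (∀ p, F p ∈ 𝒮) ∧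
      ∀ S ∈ 𝒮, ∃ p, F p = S := by
  classical
  refine ⟨Finset.univ.image F, Finset.card_image_le.trans (le_of_eq Finset.card_univ),
    fun p => Finset.mem_image_of_mem F (Finset.mem_univ p), fun S hS => ?_⟩
  obtain ⟨p, -, hp⟩ := Finset.mem_image.1 hS
  exact ⟨p, hp⟩

lemma bad {I : Type} [Fintype I] {N : ℕ} (Q : (I → Fin N) → Prop) :
    ∃ B : Finset (I → Fin N), ∀ ω, ω ∈ B ↔ Q ω := by
  classical
  exact ⟨Finset.univ.filter Q, fun ω => by simp⟩

lemma Ix_card (r ν m : ℕ) (H : Type) [Fintype H] :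
    Fintype.card (Ix r ν m H) = ν ^ (r + 1) + (ν ^ r * m + ν ^ r * (m * Fintype.card H)) := by
  rw [Fintype.card_sum, Fintype.card_sum, Fintype.card_fun, Fintype.card_prod, Fintype.card_prod,
    Fintype.card_prod, Fintype.card_fun, Fintype.card_fin, Fintype.card_fin, Fintype.card_fin,
    Fintype.card_fin]

lemma num {L C r h : ℕ} (hL : 3 ≤ L) (hh : h ≤ L ^ C) :
    (L ^ 3 * L ^ 3) ^ (r + 1) + ((L ^ 3 * L ^ 3) ^ r * L ^ 3 +
      (L ^ 3 * L ^ 3) ^ r * (L ^ 3 * h)) ≤ L ^ (C * r + 6 * r + C + 20) := by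
  have hL1 : 1 ≤ L := by omega
  set A := C * r + 6 * r + C + 19 with hA
  have e0 : C * r + 6 * r + C + 20 = A + 1 := by omega
  have e1 : (L ^ 3 * L ^ 3) ^ (r + 1) ≤ L ^ A := by
    rw [← pow_add, ← pow_mul]
    exact Nat.pow_le_pow_right hL1 (by omega)
  have e2 : (L ^ 3 * L ^ 3) ^ r * L ^ 3 ≤ L ^ A := by
    rw [← pow_add, ← pow_mul, ← pow_add]
    exact Nat.pow_le_pow_right hL1 (by omega)
  have e3 : (L ^ 3 * L ^ 3) ^ r * (L ^ 3 * h) ≤ L ^ A := by
    calc (L ^ 3 * L ^ 3) ^ r * (L ^ 3 * h) ≤ (L ^ 3 * L ^ 3) ^ r * (L ^ 3 * L ^ C) :=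
          Nat.mul_le_mul_left _ (Nat.mul_le_mul_left _ hh)
      _ ≤ L ^ A := by
        rw [← pow_add, ← pow_mul, ← pow_add, ← pow_add]
        exact Nat.pow_le_pow_right hL1 (by omega)
  rw [e0, pow_succ L A]
  have e4 : L ^ A * 3 ≤ L ^ A * L := Nat.mul_le_mul_left _ hL
  omega

end RNDx

open RNDx in
/-- One round, with a general fan-in. -/
theorem rnd_gen (hSW : S_SW) (hPRB : S_PRB) (hCOL : S_COL) (hTRE : S_TRE) :
    ∀ r C d : ℕ, ∃ w L₀ : ℕ, ∀ L ≥ L₀, ∀ ν : ℕ, L ^ 3 * L ^ 3 = ν →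
    ∀ (H : Type) [Fintype H] [DecidableEq H],
    Fintype.card H ≤ L ^ C → ∀ N₀ κ₀ : ℕ, (N₀ + 1) ^ κ₀ ≤ L ^ C →
    ∀ φ : Frm (U (r + 1) ν (L ^ 3) H), φ.Within N₀ κ₀ d (r + 1) →
    ∃ (τ : U (r + 1) ν (L ^ 3) H → Bool ⊕ U r ν (L ^ 3) H)
      (φ' : Frm (U r ν (L ^ 3) H)),
      φ'.Within N₀ κ₀ w r ∧
      (∀ x, φ'.Holds x ↔ φ.Holds (osub τ x)) ∧
      (∀ x, Pf (r + 1) ν (L ^ 3) (fun v => osub τ x (v, none)) ↔
        Pf r ν (L ^ 3) (fun v => x (v, none))) ∧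
      (∀ (h : H) (v' : Pos r ν (L ^ 3)), ∃ v, ∀ q,
        τ q = .inr (v', some h) ↔ q = (v, some h)) := by
  classical
  intro r C d
  obtain ⟨s, L₀, hs⟩ := hPRB (C * r + 6 * r + C + 20) d
  refine ⟨max d (d * s), max L₀ 3, ?_⟩
  intro L hL ν hν H _ _ hH N₀ κ₀ hN φ hφ
  subst hν
  have hL0 : L₀ ≤ L := (le_max_left _ _).trans hL
  have hL3 : 3 ≤ L := (le_max_right _ _).trans hL
  have hLp : 0 < L ^ 3 := by positivity
  obtain ⟨K, g, hK, hg, hψ⟩ := hCOL (U (r + 1) (L ^ 3 * L ^ 3) (L ^ 3) H) N₀ κ₀ d r φ hφ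
  obtain ⟨𝒮, h𝒮1, h𝒮2, h𝒮3⟩ := family (St r (L ^ 3) (L ^ 3) H)
  have hB' : ∀ i : Fin K, ∃ B : Finset (Co r (L ^ 3 * L ^ 3) (L ^ 3) H → Fin (2 * L + 1)),
      ∀ ω, ω ∈ B ↔ ¬ ∃ T : DT (Blk r (L ^ 3 * L ^ 3) (L ^ 3) H),
        T.depth ≤ d * s ∧ ∀ z, T.eval z = g i (osub (psub blkOf hvOf κOf ω) z) := fun i => bad _
  choose B hB using hB'
  have c1 : K ≤ L ^ (C * r + 6 * r + C + 20) := by
    have h1 : K ≤ (L ^ C) ^ r := hK.trans (Nat.pow_le_pow_left hN r)
    rw [← pow_mul] at h1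
    exact h1.trans (Nat.pow_le_pow_right (by omega) (by omega))
  have c2 : 𝒮.card ≤ L ^ (C * r + 6 * r + C + 20) := by
    refine h𝒮1.trans ?_
    rw [Ix_card]
    exact num hL3 hH
  have c3 : ∀ S ∈ 𝒮, L ^ 3 ≤ S.card := by
    intro S hS
    obtain ⟨q, rfl⟩ := h𝒮3 S hS
    exact St_card r (L ^ 3) (L ^ 3) H hLp le_rfl q
  have c4 : ∀ i, (B i).card * L ^ s ≤
      (2 * L + 1) ^ (Fintype.card (Co r (L ^ 3 * L ^ 3) (L ^ 3) H)) * 4 ^ (d * s) := by
    intro i
    have h := hSW (U (r + 1) (L ^ 3 * L ^ 3) (L ^ 3) H) (Blk r (L ^ 3 * L ^ 3) (L ^ 3) H)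
      blkOf hvOf κOf heavy (g i) d s L (hg i) (B i) (fun ω hω => (hB i ω).1 hω)
    rw [Fintype.card_sum]
    exact h
  obtain ⟨ω, hω1, hω2⟩ := hs L hL0 (Co r (L ^ 3 * L ^ 3) (L ^ 3) H) K B 𝒮 c1 c2 c3 c4
  obtain ⟨ψ, hψ1, hψ2⟩ := hψ (Blk r (L ^ 3 * L ^ 3) (L ^ 3) H) (psub blkOf hvOf κOf ω) (d * s)
    (fun i => by
      have h := hω1 i
      rw [hB] at h
      exact not_not.1 h)
  obtain ⟨ρ, hρ1, hρ2⟩ := hTRE r (L ^ 3) (L ^ 3) L H hLp ω
    (fun p => by
      obtain ⟨i, hi, hi0⟩ := hω2 _ (h𝒮2 (.inl p))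
      simp only [St] at hi
      obtain ⟨j, -, rfl⟩ := Finset.mem_map.1 hi
      exact ⟨j, hi0⟩)
    (fun p' i' => by
      obtain ⟨i, hi, hi0⟩ := hω2 _ (h𝒮2 (.inr (.inl (p', i'))))
      simp only [St] at hi
      obtain ⟨j, hj, rfl⟩ := Finset.mem_map.1 hi
      exact ⟨j, (Finset.mem_filter.1 hj).2, hi0⟩)
    (fun p' i' h => by
      obtain ⟨i, hi, hi0⟩ := hω2 _ (h𝒮2 (.inr (.inr (p', (i', h)))))
      simp only [St] at hi
      obtain ⟨j, hj, rfl⟩ := Finset.mem_map.1 hi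
      rw [Finset.mem_product] at hj
      exact ⟨j.1, j.2, (Finset.mem_filter.1 hj.1).2, hi0⟩)
  refine ⟨fun q => (psub blkOf hvOf κOf ω q).elim .inl ρ, ψ.sub ρ, sub_within ρ ψ r hψ1, ?_, ?_,
    hρ2⟩
  · intro x
    rw [sub_holds, hψ2, osub_comp]
  · intro x
    rw [osub_comp]
    exact hρ1 x

/-- RND: one round. -/
theorem t_RND (hSW : S_SW) (hPRB : S_PRB) (hCOL : S_COL) (hTRE : S_TRE) : S_RND := by
  intro r C d
  obtain ⟨w, L₀, h⟩ := rnd_gen hSW hPRB hCOL hTRE r C d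
  exact ⟨w, L₀, fun L hL H _ _ hH => h L hL (L ^ 6) (by rw [← pow_add]) H hH⟩

end Pool.Agent.OWH
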