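import Mathlib
import Pool.Agent.OWH.St

/-!
# `OWH_SIP`: restriction of alternating quantifiers with neutral values out of range
-/

set_option autoImplicit false

namespace Pool.Agent.OWH

open Pool.Agent.Lib_helper62.PToda

namespace SIP

theorem alt_zero (n : ℕ) (o : Bool) (P : (Fin 0 → Fin n) → Prop) : Alt n o 0 P ↔ P Fin.elim0 := by
  cases o <;> rfl

theorem alt_congr (n : ℕ) : ∀ (t : ℕ) (o : Bool) (P Q : (Fin t → Fin n) → Prop),
    (∀ y, P y ↔ Q y) → (Alt n o t P ↔ Alt n o t Q)
  | 0, o, P, Q, h => by
    rw [alt_zero, alt_zero]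
    exact h _
  | t+1, true, P, Q, h => exists_congr fun i => alt_congr n t false _ _ fun y => h _
  | t+1, false, P, Q, h => forall_congr' fun i => alt_congr n t true _ _ fun y => h _

theorem alt_const {n : ℕ} (hn : 0 < n) : ∀ (t : ℕ) (o : Bool) (P : (Fin t → Fin n) → Prop)
    (c : Prop), (∀ y, P y ↔ c) → (Alt n o t P ↔ c)
  | 0, o, P, c, h => by
    rw [alt_zero]
    exact h _
  | t+1, true, P, c, h => by
    constructor
    · rintro ⟨i, hi⟩
      exact (alt_const hn t false _ c fun y => h _).1 hi
    · intro hc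
      exact ⟨⟨0, hn⟩, (alt_const hn t false _ c fun y => h _).2 hc⟩
  | t+1, false, P, c, h => by
    constructor
    · intro hi
      exact (alt_const hn t true _ c fun y => h _).1 (hi ⟨0, hn⟩)
    · intro hc i
      exact (alt_const hn t true _ c fun y => h _).2 hc

/-- out of range at the index `l` -/
def out (ν m s : ℕ) {n : ℕ} (y : Fin (s + 1) → Fin n) (l : Fin (s + 1)) : Prop :=
  if l.val = s then m ≤ (y l : ℕ) else ν ≤ (y l : ℕ)

/-- the values out of range are neutral; `o` is the first quantifier -/
def Neu (ν m s : ℕ) {n : ℕ} (o : Bool) (P : (Fin (s + 1) → Fin n) → Prop) : Prop :=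
  ∀ y l, out ν m s y l → (∀ l' < l, ¬ out ν m s y l') →
    (P y ↔ if o = true then l.val % 2 = 1 else l.val % 2 = 0)

/-- the last quantifier is `∃` -/
def lastE (o : Bool) (s : ℕ) : Prop := if o = true then s % 2 = 0 else s % 2 = 1

/-- extension of a sequence by the last element -/
def ext {ν m n s : ℕ} (hν : ν ≤ n) (hm : m ≤ ν) (p : Fin s → Fin ν) (j : Fin m) :
    Fin (s + 1) → Fin n :=
  fun l => ((Fin.snoc (α := fun _ => Fin ν) p (j.castLE hm) : Fin (s + 1) → Fin ν) l).castLE hν

theorem ext_zero {ν m n : ℕ} (hν : ν ≤ n) (hm : m ≤ ν) (p : Fin 0 → Fin ν) (j : Fin m)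
    (q : Fin 0 → Fin n) :
    ext hν hm p j = Fin.cons ((j.castLE hm).castLE hν) q := by
  funext l
  have h : l = Fin.last 0 := by
    apply Fin.ext
    have := l.2
    simp only [Fin.val_last]
    omega
  subst h
  simp only [ext, Fin.snoc_last]
  rfl

theorem ext_cons {ν m n s : ℕ} (hν : ν ≤ n) (hm : m ≤ ν) (i : Fin ν) (p : Fin s → Fin ν)
    (j : Fin m) :
    ext hν hm (Fin.cons i p : Fin (s + 1) → Fin ν) j =
      Fin.cons (i.castLE hν) (ext hν hm p j) := by
  funext l
  unfold ext
  rw [← Fin.cons_snoc_eq_snoc_cons]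
  refine Fin.cases ?_ (fun l => ?_) l
  · rfl
  · rfl

theorem neu_tail {ν m n s : ℕ} {o : Bool} {P : (Fin (s + 1 + 1) → Fin n) → Prop}
    (h : Neu ν m (s + 1) o P) (i : Fin n) (hi : (i : ℕ) < ν) :
    Neu ν m s (!o) (fun p => P (Fin.cons i p)) := by
  intro y l hl hl'
  have h1 := h (Fin.cons i y) l.succ (by
    unfold out at hl ⊢
    simp only [Fin.val_succ, add_left_inj, Fin.cons_succ]
    exact hl) (by
    intro l' hlt
    refine Fin.cases (motive := fun l' => l' < l.succ → ¬ out ν m (s + 1) (Fin.cons i y) l') ?_ ?_ l' hlt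
    · intro _ h2
      unfold out at h2
      rw [if_neg (by simp)] at h2
      simp only [Fin.cons_zero] at h2
      omega
    · intro l'' h3 h2
      refine hl' l'' (Fin.succ_lt_succ_iff.1 h3) ?_
      unfold out at h2 ⊢
      simp only [Fin.val_succ, add_left_inj, Fin.cons_succ] at h2
      exact h2)
  change P (Fin.cons i y) ↔ _
  rw [h1]
  cases o
  · simp only [Fin.val_succ, Bool.not_false, Bool.false_eq_true, if_true, if_false]
    omega
  · simp only [Fin.val_succ, Bool.not_true, Bool.false_eq_true, if_true, if_false]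
    omega

theorem neu_head {ν m n s : ℕ} {o : Bool} {P : (Fin (s + 1 + 1) → Fin n) → Prop}
    (h : Neu ν m (s + 1) o P) (i : Fin n) (hi : ν ≤ (i : ℕ)) (p : Fin (s + 1) → Fin n) :
    P (Fin.cons i p) ↔ o = false := by
  have h1 := h (Fin.cons i p) 0 (by
    unfold out
    rw [if_neg (by simp)]
    exact hi) (by
    intro l' hlt
    exact absurd hlt (by simp))
  rw [h1]
  cases o <;> simp

theorem neu_base {ν m n : ℕ} {o : Bool} {P : (Fin (0 + 1) → Fin n) → Prop}
    (h : Neu ν m 0 o P) (i : Fin n) (hi : m ≤ (i : ℕ)) (p : Fin 0 → Fin n) :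
    P (Fin.cons i p) ↔ o = false := by
  have h1 := h (Fin.cons i p) 0 (by
    unfold out
    rw [if_pos (by simp)]
    exact hi) (by
    intro l' hlt
    exact absurd hlt (by simp))
  rw [h1]
  cases o <;> simp

open Classical in
theorem key {ν m n : ℕ} (hν : ν ≤ n) (hm : m ≤ ν) (hn : 0 < n) :
    ∀ (s : ℕ) (o : Bool) (P : (Fin (s + 1) → Fin n) → Prop), Neu ν m s o P →
      (Alt n o (s + 1) P ↔ Alt ν o s (fun p =>
        if lastE o s then ∃ j : Fin m, P (ext hν hm p j) else ∀ j : Fin m, P (ext hν hm p j)))
  | 0, true, P, h => by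
    rw [alt_zero, if_pos (show lastE true 0 from rfl)]
    constructor
    · rintro ⟨i, hi⟩
      rw [alt_zero] at hi
      by_cases him : (i : ℕ) < m
      · refine ⟨⟨i, him⟩, ?_⟩
        rw [ext_zero hν hm _ _ Fin.elim0]
        exact hi
      · have := (neu_base h i (by omega) Fin.elim0).1 hi
        simp at this
    · rintro ⟨j, hj⟩
      refine ⟨(j.castLE hm).castLE hν, ?_⟩
      rw [alt_zero]
      rw [ext_zero hν hm _ _ Fin.elim0] at hj
      exact hj
  | 0, false, P, h => by
    rw [alt_zero, if_neg (show ¬ lastE false 0 by simp [lastE])]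
    constructor
    · intro hi j
      have h1 := hi ((j.castLE hm).castLE hν)
      rw [alt_zero] at h1
      rw [ext_zero hν hm _ _ Fin.elim0]
      exact h1
    · intro hj i
      rw [alt_zero]
      by_cases him : (i : ℕ) < m
      · have h1 := hj ⟨i, him⟩
        rw [ext_zero hν hm _ _ Fin.elim0] at h1
        exact h1
      · exact (neu_base h i (by omega) Fin.elim0).2 rfl
  | s+1, true, P, h => by
    have hl : lastE true (s + 1) ↔ lastE false s := by
      simp only [lastE, Bool.false_eq_true, if_true, if_false]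
      omega
    have hstep : ∀ i : Fin ν, (Alt n false (s + 1) (fun p => P (Fin.cons (i.castLE hν) p)) ↔
        Alt ν false s (fun p => if lastE true (s + 1) then
          ∃ j : Fin m, P (ext hν hm (Fin.cons i p : Fin (s + 1) → Fin ν) j) else
          ∀ j : Fin m, P (ext hν hm (Fin.cons i p : Fin (s + 1) → Fin ν) j))) := by
      intro i
      rw [key hν hm hn s false _ (neu_tail h (i.castLE hν) i.2)]
      refine alt_congr _ _ _ _ _ fun p => ?_
      simp only [ext_cons, hl]
    constructor
    · rintro ⟨i, hi⟩
      by_cases hiν : (i : ℕ) < ν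
      · exact ⟨⟨i, hiν⟩, (hstep ⟨i, hiν⟩).1 hi⟩
      · have := (alt_const hn _ _ _ _ fun y => neu_head h i (by omega) y).1 hi
        simp at this
    · rintro ⟨i, hi⟩
      exact ⟨i.castLE hν, (hstep i).2 hi⟩
  | s+1, false, P, h => by
    have hl : lastE false (s + 1) ↔ lastE true s := by
      simp only [lastE, Bool.false_eq_true, if_true, if_false]
      omega
    have hstep : ∀ i : Fin ν, (Alt n true (s + 1) (fun p => P (Fin.cons (i.castLE hν) p)) ↔
        Alt ν true s (fun p => if lastE false (s + 1) then
          ∃ j : Fin m, P (ext hν hm (Fin.cons i p : Fin (s + 1) → Fin ν) j) else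
          ∀ j : Fin m, P (ext hν hm (Fin.cons i p : Fin (s + 1) → Fin ν) j))) := by
      intro i
      rw [key hν hm hn s true _ (neu_tail h (i.castLE hν) i.2)]
      refine alt_congr _ _ _ _ _ fun p => ?_
      simp only [ext_cons, hl]
    constructor
    · intro hi i
      exact (hstep i).1 (hi _)
    · intro hi i
      by_cases hiν : (i : ℕ) < ν
      · exact (hstep ⟨i, hiν⟩).2 (hi _)
      · exact (alt_const hn _ _ _ _ fun y => neu_head h i (by omega) y).2 rfl

end SIP

open SIP in
theorem t_SIP : S_SIP := by
  intro t k n ν m ξ hm hν hm0 A hξ hoff hout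
  have hn : 0 < n := by omega
  -- level 0
  have h0 : Sip A t k n ↔ ∃ i : Fin ν, Alt n false t (fun y => A (.inp k n
      ((List.ofFn fun i' => (ξ i i' : ℕ)) ++ (List.ofFn fun i => (y i : ℕ)))) = true) := by
    constructor
    · rintro ⟨x, hx⟩
      by_cases hex : ∃ i, ξ i = x
      · obtain ⟨i, rfl⟩ := hex
        exact ⟨i, hx⟩
      · push Not at hex
        have := (alt_const hn t false _ False fun y => by
          rw [hoff x y hex]
          simp).1 hx
        exact this.elim
    · rintro ⟨i, hi⟩
      exact ⟨ξ i, hi⟩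
  rw [h0]
  rcases t with _ | t
  · unfold Pf
    rw [alt_zero, if_pos rfl]
    constructor
    · rintro ⟨i, hi⟩
      rw [alt_zero] at hi
      by_cases him : (i : ℕ) < m
      · refine ⟨⟨i, him⟩, ?_⟩
        unfold liveAdr
        have e1 : ((Fin.snoc (α := fun _ => Fin ν) (Fin.elim0 : Fin 0 → Fin ν)
            ((⟨i, him⟩ : Fin m).castLE hm) : Fin (0 + 1) → Fin ν) 0) = i := by
          have : (0 : Fin (0 + 1)) = Fin.last 0 := rfl
          rw [this, Fin.snoc_last]
          rfl
        simp only [e1]
        rw [← hi]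
        rfl
      · have h1 := hout i Fin.elim0 (fun _ => i) 0 rfl (fun j => j.elim0) le_rfl
          (by unfold outAt; rw [if_pos rfl]; show m ≤ (i : ℕ); omega) (fun l' h => absurd h (by omega))
        rw [h1] at hi
        simp at hi
    · rintro ⟨j, hj⟩
      refine ⟨j.castLE hm, ?_⟩
      rw [alt_zero]
      unfold liveAdr at hj
      have e1 : ((Fin.snoc (α := fun _ => Fin ν) (Fin.elim0 : Fin 0 → Fin ν)
          (j.castLE hm) : Fin (0 + 1) → Fin ν) 0) = j.castLE hm := by
        have : (0 : Fin (0 + 1)) = Fin.last 0 := rfl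
        rw [this, Fin.snoc_last]
      simp only [e1] at hj
      rw [← hj]
      rfl
  · unfold Pf
    refine exists_congr fun i => ?_
    rw [key hν hm hn t false _ ?_]
    · refine alt_congr _ _ _ _ _ fun p => ?_
      have hl : lastE false t ↔ (t + 1) % 2 = 0 := by
        simp only [lastE, Bool.false_eq_true, if_false]
        omega
      have hA : ∀ j : Fin m, A (liveAdr ξ hm ((Fin.cons i p : Fin (t + 1) → Fin ν), j)) =
          A (.inp k n ((List.ofFn fun i' => (ξ i i' : ℕ)) ++
            (List.ofFn fun i => (ext hν hm p j i : ℕ)))) := by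
        intro j
        unfold liveAdr
        rw [← Fin.cons_snoc_eq_snoc_cons]
        rfl
      simp only [hA]
      by_cases hpar : (t + 1) % 2 = 0
      · rw [if_pos (hl.2 hpar), if_pos hpar]
      · rw [if_neg (fun h => hpar (hl.1 h)), if_neg hpar]
    · intro y l hl hl'
      have h1 := hout i y (fun a => if a = 0 then (i : ℕ) else if h : a - 1 < t + 1 then
        (y ⟨a - 1, h⟩ : ℕ) else 0) (l.val + 1) (by simp) (by
          intro j
          simp only [Nat.add_sub_cancel, Nat.add_eq_zero_iff, one_ne_zero, and_false, if_false,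
            j.2, dif_pos, Fin.eta]) (by omega) (by
          unfold outAt
          unfold out at hl
          simp only [Nat.add_sub_cancel, Nat.add_eq_zero_iff, one_ne_zero, and_false, if_false,
            l.2, dif_pos, Fin.eta, add_left_inj]
          exact hl) (by
          intro l' hlt h2
          unfold outAt at h2
          rcases l' with _ | l'
          · rw [if_neg (by omega)] at h2
            simp only [if_true] at h2
            omega
          · have hl2 : l' < t + 1 := by omega
            refine hl' ⟨l', hl2⟩ (by rw [Fin.lt_def]; simp only; omega) ?_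
            unfold out
            simp only [Nat.add_sub_cancel, Nat.add_eq_zero_iff, one_ne_zero, and_false, if_false,
              hl2, dif_pos, add_left_inj] at h2
            exact h2)
      beta_reduce
      rw [h1]
      simp only [decide_eq_true_eq, Bool.false_eq_true, if_false]
      omega

end Pool.Agent.OWH
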