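import Pool.Agent.OWH.St2

/-!
# Project OWH, module SUB: substitution, congruence, and the path of an algorithm
-/

set_option autoImplicit false

namespace Pool.Agent.OWH

open Pool.Agent.Lib_helper62.PToda

namespace SUBx

variable {β γ : Type}

lemma dsub_eval (σ : β → Bool ⊕ γ) (x : γ → Bool) (T : DT β) :
    (dsub σ T).eval x = T.eval (osub σ x) := by
  induction T with
  | leaf b => rfl
  | node q t0 t1 h0 h1 =>
    rcases hq : σ q with b | w
    · cases b
      · simp [dsub, hq, DT.eval, osub, h0]
      · simp [dsub, hq, DT.eval, osub, h1]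
    · simp [dsub, hq, DT.eval, osub, h0, h1]

lemma dsub_depth (σ : β → Bool ⊕ γ) (T : DT β) : (dsub σ T).depth ≤ T.depth := by
  induction T with
  | leaf b => exact le_rfl
  | node q t0 t1 h0 h1 =>
    rcases hq : σ q with b | w
    · cases b
      · simp only [dsub, hq, DT.depth]
        omega
      · simp only [dsub, hq, DT.depth]
        omega
    · simp only [dsub, hq, DT.depth]
      omega

lemma eval_congr (P : β → Prop) (A B : β → Bool) (h : ∀ q, P q → A q = B q) (T : DT β)
    (hT : Asks P T) : T.eval A = T.eval B := by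
  induction T with
  | leaf b => rfl
  | node q t0 t1 h0 h1 =>
    obtain ⟨hq, ha, hb⟩ := hT
    simp only [DT.eval, h q hq, h0 ha, h1 hb]

end SUBx

theorem t_SUB : S_SUB := by
  intro β γ σ φ
  induction φ with
  | test T =>
    refine ⟨fun x => ?_, fun N₀ κ₀ d t h => ?_⟩
    · simp only [Frm.sub, Frm.Holds, SUBx.dsub_eval]
    · have h1 : T.depth ≤ d := by
        cases t <;> exact h
      have h2 : (dsub σ T).depth ≤ d := (SUBx.dsub_depth σ T).trans h1
      cases t <;> exact h2
  | ex N κ φ ih =>
    refine ⟨fun x => ?_, fun N₀ κ₀ d t h => ?_⟩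
    · simp only [Frm.sub, Frm.Holds]
      exact exists_congr fun y => (ih y).1 x
    · cases t with
      | zero => exact h.elim
      | succ t => exact ⟨h.1, h.2.1, fun y => (ih y).2 _ _ _ _ (h.2.2 y)⟩
  | all N κ φ ih =>
    refine ⟨fun x => ?_, fun N₀ κ₀ d t h => ?_⟩
    · simp only [Frm.sub, Frm.Holds]
      exact forall_congr' fun y => (ih y).1 x
    · cases t with
      | zero => exact h.elim
      | succ t => exact ⟨h.1, h.2.1, fun y => (ih y).2 _ _ _ _ (h.2.2 y)⟩

theorem t_CNG : S_CNG := by
  intro β P A B φ hφ h
  induction φ with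
  | test T =>
    simp only [Frm.Holds]
    rw [SUBx.eval_congr P A B h T hφ]
  | ex N κ φ ih =>
    simp only [Frm.Holds]
    exact exists_congr fun y => ih y (hφ y)
  | all N κ φ ih =>
    simp only [Frm.Holds]
    exact forall_congr' fun y => ih y (hφ y)

theorem t_PTH : S_PTH := by
  classical
  intro β _ N₀ κ₀ d t D O a
  induction a generalizing D with
  | tail φ =>
    intro h
    refine ⟨∅, φ, Nat.zero_le _, ?_, fun A _ => Iff.rfl⟩
    cases D <;> exact h
  | read q a0 a1 h0 h1 =>
    intro h
    cases D with
    | zero => exact h.elim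
    | succ D =>
      by_cases hq : O q = true
      · obtain ⟨R, φ, hR, hφ, hA⟩ := h1 D h.2
        refine ⟨insert q R, φ, ?_, hφ, fun A hAR => ?_⟩
        · have := Finset.card_insert_le q R
          omega
        · have h2 : A q = true := by rw [hAR q (Finset.mem_insert_self _ _), hq]
          simp only [Alg.Accepts, h2, if_true]
          exact hA A fun r hr => hAR r (Finset.mem_insert_of_mem hr)
      · obtain ⟨R, φ, hR, hφ, hA⟩ := h0 D h.1
        refine ⟨insert q R, φ, ?_, hφ, fun A hAR => ?_⟩
        · have := Finset.card_insert_le q R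
          omega
        · have h2 : ¬ A q = true := by rw [hAR q (Finset.mem_insert_self _ _)]; exact hq
          simp only [Alg.Accepts, h2]
          exact hA A fun r hr => hAR r (Finset.mem_insert_of_mem hr)

end Pool.Agent.OWH
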