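import Pool.Agent.OWH.St

/-!
# OWH, module TRE: the tree under a good projection (MP_95e38d_lc)
-/

set_option autoImplicit false

namespace Pool.Agent.OWH
open Pool.Agent.Lib_helper62.PToda

namespace TRE

/-- one quantifier, `∃` if `b = true` -/
def Qt (n : ℕ) (b : Bool) (R : Fin n → Prop) : Prop := if b = true then ∃ i, R i else ∀ i, R i

theorem Qt_congr {n : ℕ} {b : Bool} {R R' : Fin n → Prop} (h : ∀ i, R i ↔ R' i) :
    Qt n b R ↔ Qt n b R' := by
  have : R = R' := funext fun i => propext (h i)
  rw [this]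

theorem Alt_congr {n : ℕ} (t : ℕ) (o : Bool) {P P' : (Fin t → Fin n) → Prop}
    (h : ∀ p, P p ↔ P' p) : Alt n o t P ↔ Alt n o t P' := by
  have : P = P' := funext fun i => propext (h i)
  rw [this]

theorem Alt_succ (n t : ℕ) (o : Bool) (P : (Fin (t + 1) → Fin n) → Prop) :
    Alt n o (t + 1) P ↔ Qt n o (fun i => Alt n (!o) t (fun p => P (Fin.cons i p))) := by
  cases o
  · simp [Alt, Qt]
  · simp [Alt, Qt]

/-- the last quantifier -/
theorem Alt_snoc (n : ℕ) : ∀ (t : ℕ) (o : Bool) (P : (Fin (t + 1) → Fin n) → Prop),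
    Alt n o (t + 1) P ↔
      Alt n o t (fun p => Qt n (o == decide (t % 2 = 0)) (fun i => P (Fin.snoc p i))) := by
  intro t
  induction t with
  | zero =>
    intro o P
    rw [Alt_succ]
    have h1 : (o == decide (0 % 2 = 0)) = o := by cases o <;> rfl
    rw [h1]
    have h2 : ∀ (o' : Bool) (P' : (Fin 0 → Fin n) → Prop), Alt n o' 0 P' = P' Fin.elim0 := by
      intro o' P'
      cases o' <;> rfl
    rw [h2]
    refine Qt_congr fun i => ?_
    rw [h2]
    have h3 : (Fin.cons i (Fin.elim0 : Fin 0 → Fin n) : Fin (0 + 1) → Fin n) =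
        Fin.snoc (Fin.elim0 : Fin 0 → Fin n) i := by
      funext j
      have hj : j = 0 := Fin.ext (by omega)
      subst hj
      rfl
    rw [h3]
  | succ t ih =>
    intro o P
    rw [Alt_succ, Alt_succ n t]
    refine Qt_congr fun i => ?_
    rw [ih]
    have h1 : ((!o) == decide (t % 2 = 0)) = (o == decide ((t + 1) % 2 = 0)) := by
      rcases Nat.mod_two_eq_zero_or_one t with h | h
      · have h2 : (t + 1) % 2 = 1 := by omega
        rw [h, h2]
        cases o <;> rfl
      · have h2 : (t + 1) % 2 = 0 := by omega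
        rw [h, h2]
        cases o <;> rfl
    refine Alt_congr _ _ fun p => ?_
    rw [h1]
    refine Qt_congr fun j => ?_
    rw [Fin.cons_snoc_eq_snoc_cons]

/-- a value with neutral elements -/
theorem Qt_neutral {n : ℕ} {E : Bool} {X : Fin n → Bool} {Y : Bool}
    (h1 : ∀ j, X j = !E ∨ X j = Y) (h2 : ∃ j, X j = Y) :
    Qt n E (fun j => X j = true) ↔ Y = true := by
  obtain ⟨j0, hj0⟩ := h2
  cases E
  · simp only [Qt, Bool.false_eq_true, if_false]
    constructor
    · intro h
      rw [← hj0]
      exact h j0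
    · intro h j
      rcases h1 j with h3 | h3
      · exact h3
      · rw [h3, h]
  · simp only [Qt, if_true]
    constructor
    · rintro ⟨j, hj⟩
      rcases h1 j with h3 | h3
      · rw [h3] at hj
        exact absurd hj (by decide)
      · rw [← h3]
        exact hj
    · intro h
      exact ⟨j0, by rw [hj0, h]⟩

/-- a quantifier over selected elements -/
theorem Qt_select {n m : ℕ} {E : Bool} {Y : Fin n → Bool} {x : Fin m → Bool} {sel : Fin m → Fin n}
    (h1 : ∀ i, Y i = !E ∨ ∃ i', Y i = x i') (h2 : ∀ i', Y (sel i') = x i') :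
    Qt n E (fun i => Y i = true) ↔ Qt m E (fun i' => x i' = true) := by
  cases E
  · simp only [Qt, Bool.false_eq_true, if_false]
    constructor
    · intro h i'
      rw [← h2]
      exact h _
    · intro h i
      rcases h1 i with h3 | ⟨i', h3⟩
      · exact h3
      · rw [h3, h]
  · simp only [Qt, if_true]
    constructor
    · rintro ⟨i, hi⟩
      rcases h1 i with h3 | ⟨i', h3⟩
      · rw [h3] at hi
        exact absurd hi (by decide)
      · exact ⟨i', by rw [← h3]; exact hi⟩
    · rintro ⟨i', hi'⟩
      exact ⟨sel i', by rw [h2]; exact hi'⟩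

theorem Pf_eq (r ν m : ℕ) (x : Pos r ν m → Bool) :
    Pf r ν m x ↔ Alt ν true r (fun p => Qt m (decide (r % 2 = 0)) (fun j => x (p, j) = true)) := by
  unfold Pf Qt
  simp only [decide_eq_true_eq]

/-- the group of a child -/
def grp (m g : ℕ) (i : Fin (m * g)) : Fin m :=
  ⟨(i : ℕ) / g, Nat.div_lt_of_lt_mul (by rw [mul_comm g m]; exact i.2)⟩

/-- the parent and the group -/
def par {r : ℕ} (m g : ℕ) (p : Fin (r + 1) → Fin (m * g)) : Pos r (m * g) m :=
  (Fin.init p, grp m g (p (Fin.last r)))

theorem par_snoc {r m g : ℕ} (p' : Fin r → Fin (m * g)) (i : Fin (m * g)) :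
    par m g (Fin.snoc p' i : Fin (r + 1) → Fin (m * g)) = (p', grp m g i) := by
  unfold par
  rw [Fin.init_snoc, Fin.snoc_last]

section values

variable {r m g R : ℕ} {H : Type}
  {ω : Blk r (m * g) m H ⊕ U (r + 1) (m * g) m H → Fin (2 * R + 1)}

theorem pl1 {v : Pos (r + 1) (m * g) m} (h : ω (.inr (v, none)) ≠ 0) :
    psub blkOf hvOf κOf ω (v, none) = .inl (decide ((r + 1) % 2 = 1)) := by
  unfold psub
  exact (if_neg Bool.false_ne_true).trans (if_pos h)

theorem pl2 {v : Pos (r + 1) (m * g) m} (h : ω (.inr (v, none)) = 0)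
    (h' : ω (.inl (.inl v.1)) ≠ 0) :
    psub blkOf hvOf κOf ω (v, none) = .inl (!decide ((r + 1) % 2 = 1)) := by
  unfold psub
  exact (if_neg Bool.false_ne_true).trans ((if_neg (fun h2 => h2 h)).trans (if_pos h'))

theorem pl3 {v : Pos (r + 1) (m * g) m} (h : ω (.inr (v, none)) = 0)
    (h' : ω (.inl (.inl v.1)) = 0) :
    psub blkOf hvOf κOf ω (v, none) = .inr (.inl v.1) := by
  unfold psub
  exact (if_neg Bool.false_ne_true).trans ((if_neg (fun h2 => h2 h)).trans
    (if_neg (fun h2 => h2 h')))

theorem ph1 {v : Pos (r + 1) (m * g) m} {h : H} (h0 : ω (.inr (v, some h)) = 0) :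
    psub blkOf hvOf κOf ω (v, some h) = .inr (.inr (v, h)) := by
  unfold psub
  exact (if_pos rfl).trans (if_pos h0)

theorem ph2 {v : Pos (r + 1) (m * g) m} {h : H} (h0 : ω (.inr (v, some h)) ≠ 0) :
    ∃ b, psub blkOf hvOf κOf ω (v, some h) = .inl b := by
  unfold psub
  exact ⟨_, (if_pos rfl).trans (if_neg h0)⟩

end values

end TRE

open TRE in
theorem t_TRE : S_TRE := by
  classical
  intro r m g R H _ hg ω h1 h2 h3
  have h2' : ∀ v' : Pos r (m * g) m, ∃ i : Fin (m * g), grp m g i = v'.2 ∧
      ω (.inl (.inl (Fin.snoc v'.1 i))) = 0 := by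
    intro v'
    obtain ⟨i, hi, hi'⟩ := h2 v'.1 v'.2
    exact ⟨i, Fin.ext hi, hi'⟩
  choose sel hsel hsel0 using h2'
  have h3' : ∀ (v' : Pos r (m * g) m) (h : H), ∃ v : Pos (r + 1) (m * g) m,
      par m g v.1 = v' ∧ ω (.inr (v, some h)) = 0 := by
    intro v' h
    obtain ⟨i, j, hi, hi'⟩ := h3 v'.1 v'.2 h
    refine ⟨(Fin.snoc v'.1 i, j), ?_, hi'⟩
    rw [par_snoc]
    exact Prod.ext rfl (Fin.ext hi)
  choose star hstar hstar0 using h3'
  let K : Bool := decide ((r + 1) % 2 = 1)
  let ρ : Blk r (m * g) m H → Bool ⊕ U r (m * g) m H := fun w =>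
    match w with
    | .inl p => if p (Fin.last r) = sel (par m g p) then .inr (par m g p, none) else .inl (!K)
    | .inr (v, h) => if v = star (par m g v.1) h then .inr (par m g v.1, some h) else .inl false
  have hρl : ∀ p, ρ (.inl p) =
      if p (Fin.last r) = sel (par m g p) then .inr (par m g p, none) else .inl (!K) := fun _ => rfl
  have hρr : ∀ v h, ρ (.inr (v, h)) =
      if v = star (par m g v.1) h then .inr (par m g v.1, some h) else .inl false := fun _ _ => rfl
  refine ⟨ρ, fun x => ?_, fun h v' => ⟨star v' h, fun q => ?_⟩⟩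
  · -- the tree
    rw [Pf_eq, Pf_eq, Alt_snoc]
    let Y : (Fin (r + 1) → Fin (m * g)) → Bool := fun p =>
      if ω (.inl (.inl p)) ≠ 0 then !K else osub ρ x (.inl p)
    have hX : ∀ (p : Fin (r + 1) → Fin (m * g)) (j : Fin m),
        osub (psub blkOf hvOf κOf ω) (osub ρ x) ((p, j), none) =
          if ω (.inr ((p, j), none)) ≠ 0 then K else Y p := by
      intro p j
      unfold osub
      by_cases e1 : ω (.inr ((p, j), none)) = 0
      · rw [if_neg (fun h => h e1)]
        by_cases e2 : ω (.inl (.inl p)) = 0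
        · rw [pl3 e1 e2]
          change osub ρ x (.inl p) = if ω (.inl (.inl p)) ≠ 0 then !K else osub ρ x (.inl p)
          rw [if_neg (fun h => h e2)]
        · rw [pl2 e1 e2]
          change (!K) = if ω (.inl (.inl p)) ≠ 0 then !K else osub ρ x (.inl p)
          rw [if_pos e2]
      · rw [if_pos e1, pl1 e1]
        rfl
    have hE : K = !decide ((r + 1) % 2 = 0) := by
      change decide ((r + 1) % 2 = 1) = !decide ((r + 1) % 2 = 0)
      rcases Nat.mod_two_eq_zero_or_one (r + 1) with e | e <;> rw [e] <;> rfl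
    have hE2 : (!K) = !decide (r % 2 = 0) := by
      change (!decide ((r + 1) % 2 = 1)) = !decide (r % 2 = 0)
      rcases Nat.mod_two_eq_zero_or_one r with e | e
      · have e2 : (r + 1) % 2 = 1 := by omega
        rw [e, e2]
        rfl
      · have e2 : (r + 1) % 2 = 0 := by omega
        rw [e, e2]
        rfl
    refine Alt_congr _ _ fun p' => ?_
    have hb : (true == decide (r % 2 = 0)) = decide (r % 2 = 0) := by
      cases decide (r % 2 = 0) <;> rfl
    rw [hb]
    have hlow : ∀ p : Fin (r + 1) → Fin (m * g),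
        Qt m (decide ((r + 1) % 2 = 0))
          (fun j => osub (psub blkOf hvOf κOf ω) (osub ρ x) ((p, j), none) = true) ↔
          Y p = true := by
      intro p
      refine Qt_neutral (fun j => ?_) ?_
      · rw [hX]
        by_cases e1 : ω (.inr ((p, j), none)) = 0
        · right
          rw [if_neg (by simpa using e1)]
        · left
          rw [if_pos e1, hE]
      · obtain ⟨j, hj⟩ := h1 p
        refine ⟨j, ?_⟩
        rw [hX, if_neg (by simpa using hj)]
    refine (Qt_congr fun i => hlow (Fin.snoc p' i)).trans ?_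
    refine Qt_select (sel := fun i' => sel (p', i')) (fun i => ?_) (fun i' => ?_)
    · by_cases e1 : ω (.inl (.inl (Fin.snoc p' i))) = 0
      · have e2 : Y (Fin.snoc p' i) = osub ρ x (.inl (Fin.snoc p' i)) := by
          change (if ω (.inl (.inl (Fin.snoc p' i))) ≠ 0 then !K else _) = _
          rw [if_neg (by simpa using e1)]
        rw [e2]
        unfold osub
        rw [hρl]
        split_ifs with e3
        · right
          refine ⟨grp m g i, ?_⟩
          rw [par_snoc]
          rfl
        · left
          exact hE2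
      · left
        change (if ω (.inl (.inl (Fin.snoc p' i))) ≠ 0 then !K else _) = _
        rw [if_pos e1, hE2]
    · have e1 : ω (.inl (.inl (Fin.snoc p' (sel (p', i'))))) = 0 := hsel0 (p', i')
      have e2 : Y (Fin.snoc p' (sel (p', i'))) = osub ρ x (.inl (Fin.snoc p' (sel (p', i')))) := by
        change (if ω (.inl (.inl (Fin.snoc p' (sel (p', i'))))) ≠ 0 then !K else _) = _
        rw [if_neg (by simpa using e1)]
      rw [e2]
      unfold osub
      have e3 : grp m g (sel (p', i')) = i' := hsel (p', i')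
      rw [hρl, par_snoc, e3, Fin.snoc_last, if_pos rfl]
      rfl
  · -- the hidden blocks
    have hstar_inj : ∀ v, v = star (par m g v.1) h → par m g v.1 = v' → v = star v' h := by
      intro v e1 e2
      rw [e2] at e1
      exact e1
    constructor
    · intro hq
      obtain ⟨v, o⟩ := q
      cases o with
      | none =>
        exfalso
        by_cases e1 : ω (.inr (v, none)) = 0
        · by_cases e2 : ω (.inl (.inl v.1)) = 0
          · rw [pl3 e1 e2, Sum.elim_inr, hρl] at hq
            split_ifs at hq with e3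
            simp at hq
          · rw [pl2 e1 e2] at hq
            simp at hq
        · rw [pl1 e1] at hq
          simp at hq
      | some h' =>
        by_cases e1 : ω (.inr (v, some h')) = 0
        · rw [ph1 e1, Sum.elim_inr, hρr] at hq
          split_ifs at hq with e3
          simp only [Sum.inr.injEq, Prod.mk.injEq, Option.some.injEq] at hq
          obtain ⟨e4, e5⟩ := hq
          subst e5
          rw [hstar_inj v e3 e4]
        · obtain ⟨b, hb⟩ := ph2 e1
          rw [hb] at hq
          simp at hq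
    · rintro rfl
      rw [ph1 (hstar0 v' h), Sum.elim_inr, hρr, hstar v' h, if_pos rfl]

end Pool.Agent.OWH
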