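import Pool.Agent.OWH.St

/-!
# Project OWH (MP_95e38d_lc): uniqueness by parity (S_UNI)
-/

set_option autoImplicit false

namespace Pool.Agent.OWH

open Pool.Agent.Lib_helper62.PToda

namespace UNI

/-- The cardinality of a filter, with one element split off. -/
theorem card_split {ι : Type} [Fintype ι] [DecidableEq ι] (p : ι → Bool) (i₀ : ι) :
    (Finset.univ.filter (fun i => p i = true)).card =
      ((Finset.univ.erase i₀).filter (fun i => p i = true)).card +
        if p i₀ = true then 1 else 0 := by
  conv_lhs => rw [← Finset.insert_erase (Finset.mem_univ i₀)]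
  rw [Finset.filter_insert]
  split_ifs with h
  · rw [Finset.card_insert_of_notMem (by simp)]
  · rfl

/-- The count of the ones of a block, with one bit split off. -/
theorem count_split (X : XP) (A : Adr → Bool) (e k : ℕ) (x : List Bool)
    (y₀ : Fin (X.G k + 1) → Fin (X.stamp k x)) :
    X.count A e k x = ((Finset.univ.erase y₀).filter (fun y =>
      A (.ans e k x (X.stamp k x) (List.ofFn fun i => (y i : ℕ))) = true)).card +
        if A (.ans e k x (X.stamp k x) (List.ofFn fun i => (y₀ i : ℕ))) = true then 1 else 0 := by
  have h := card_split (fun y : Fin (X.G k + 1) → Fin (X.stamp k x) =>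
      A (.ans e k x (X.stamp k x) (List.ofFn fun i => (y i : ℕ)))) y₀
  unfold XP.count
  convert h

end UNI

theorem t_UNI : S_UNI := by
  intro X A B e k x y₀ hA hB hev hag
  unfold Valid at hA hB
  rw [hev] at hA
  have hpar := hA.symm.trans hB
  rw [UNI.count_split (X e) A e k x y₀, UNI.count_split (X e) B e k x y₀] at hpar
  have h3 : ((Finset.univ.erase y₀).filter (fun y =>
        A (.ans e k x ((X e).stamp k x) (List.ofFn fun i => (y i : ℕ))) = true)) =
      ((Finset.univ.erase y₀).filter (fun y =>
        B (.ans e k x ((X e).stamp k x) (List.ofFn fun i => (y i : ℕ))) = true)) := by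
    apply Finset.filter_congr
    intro y hy
    have h4 := hag y (Finset.ne_of_mem_erase hy)
    unfold abit at h4
    rw [h4]
  rw [h3] at hpar
  unfold abit
  cases hAv : A (.ans e k x ((X e).stamp k x) (List.ofFn fun i => (y₀ i : ℕ))) <;>
    cases hBv : B (.ans e k x ((X e).stamp k x) (List.ofFn fun i => (y₀ i : ℕ)))
  · rfl
  · simp only [hAv, hBv, Bool.false_eq_true, if_false, if_true, add_zero] at hpar
    rw [Nat.odd_add_one] at hpar
    exact (iff_not_self hpar).elim
  · simp only [hAv, hBv, Bool.false_eq_true, if_false, if_true, add_zero] at hpar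
    rw [Nat.odd_add_one] at hpar
    exact (iff_not_self hpar.symm).elim
  · rfl

end Pool.Agent.OWH
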