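import Pool.Agent.OWH.St2

/-!
# Project OWH: module XI
-/

set_option autoImplicit false

namespace Pool.Agent.OWH

open Pool.Agent.Lib_helper62.PToda

namespace XI

open Classical in
/-- the tuples which start a closed address -/
noncomputable def bad (k n : ℕ) (cl : Finset Adr) : Finset (Fin k → Fin n) :=
  Finset.univ.filter fun x => ∃ l, Adr.inp k n ((List.ofFn fun j => (x j : ℕ)) ++ l) ∈ cl

theorem bad_card (k n : ℕ) (cl : Finset Adr) : (bad k n cl).card ≤ cl.card := by
  classical
  have h : ∀ x ∈ bad k n cl, ∃ l, Adr.inp k n ((List.ofFn fun j => (x j : ℕ)) ++ l) ∈ cl :=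
    fun x hx => (Finset.mem_filter.1 hx).2
  choose! l hl using h
  refine Finset.card_le_card_of_injOn
    (fun x => Adr.inp k n ((List.ofFn fun j => (x j : ℕ)) ++ l x)) (fun x hx => hl x hx) ?_
  intro x _ y _ hxy
  have h1 : (List.ofFn fun j => (x j : ℕ)) ++ l x = (List.ofFn fun j => (y j : ℕ)) ++ l y := by
    simpa using hxy
  have h2 := (List.append_inj h1 (by simp)).1
  have h3 := List.ofFn_injective h2
  funext j
  exact Fin.ext (congrFun h3 j)

end XI

theorem t_XI : S_XI := by
  classical
  intro k n ν K cl hcl hK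
  have h1 := XI.bad_card k n cl
  have h2 : (XI.bad k n cl)ᶜ.card + (XI.bad k n cl).card = n ^ k := by
    rw [Finset.card_compl, Nat.sub_add_cancel (Finset.card_le_univ _), Fintype.card_fun,
      Fintype.card_fin, Fintype.card_fin]
  obtain ⟨e⟩ := Function.Embedding.nonempty_of_card_le (α := Fin ν)
    (β := ((XI.bad k n cl)ᶜ : Finset (Fin k → Fin n))) (by
      rw [Fintype.card_fin, Fintype.card_coe]
      omega)
  refine ⟨fun i => (e i : Fin k → Fin n), fun i j hij => e.injective (Subtype.ext hij), ?_⟩
  intro i l hmem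
  have h3 := (e i).2
  rw [Finset.mem_compl] at h3
  exact h3 (Finset.mem_filter.2 ⟨Finset.mem_univ _, l, hmem⟩)

end Pool.Agent.OWH
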