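import Pool.Agent.OWH.SW
import Pool.Agent.OWH.PRB
import Pool.Agent.OWH.COL
import Pool.Agent.OWH.TRE
import Pool.Agent.OWH.RND
import Pool.Agent.OWH.CORE
import Pool.Agent.OWH.FIX
import Pool.Agent.OWH.UNI
import Pool.Agent.OWH.CLS
import Pool.Agent.OWH.ASK
import Pool.Agent.OWH.SIP
import Pool.Agent.OWH.NUM
import Pool.Agent.OWH.AGR
import Pool.Agent.OWH.SUB
import Pool.Agent.OWH.XI
import Pool.Agent.OWH.Inj2
import Pool.Agent.OWH.LIV
import Pool.Agent.OWH.STG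
import Pool.Agent.OWH.DIA
import Pool.Agent.OWH.BRU

/-!
# Project OWH: the assembly
-/

namespace Pool.Agent.OWH

theorem t_STG' : S_STG :=
  t_STG t_FIX (t_AGR t_UNI) t_CLS t_ASK t_NUM (t_CORE (t_RND t_SW t_PRB t_COL t_TRE)) t_SUB t_CNG
    t_PTH t_XI t_INJ2 (t_LIV t_SIP)

theorem main : MainStatement := main_of (t_DIA t_FIX t_STG') t_BRU

end Pool.Agent.OWH
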