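import Pool.Agent.OWH.St2
import Pool.Agent.OWH.FIX

/-!
# OWH, module STG: one stage of the construction
-/

set_option autoImplicit false

namespace Pool.Agent.OWH
open Pool.Agent.Lib_helper62.PToda

namespace STG

lemma asks_path {β : Type} [DecidableEq β] {P : β → Prop} (B : β → Bool) :
    ∀ T : DT β, Asks P T → ∀ q ∈ pathOf B T, P q
  | .leaf _, _, q, hq => by simp [pathOf] at hq
  | .node q' t0 t1, hT, q, hq => by
      unfold pathOf at hq
      rcases Finset.mem_insert.1 hq with rfl | hq
      · exact hT.1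
      · by_cases h : B q' = true
        · rw [if_pos h] at hq
          exact asks_path B t1 hT.2.2 q hq
        · rw [if_neg h] at hq
          exact asks_path B t0 hT.2.1 q hq

lemma path_lt (X : ℕ → XP) (B : Adr → Bool) (e k : ℕ) (x : List Bool) (q : Adr)
    (hq : q ∈ pathOf B ((X e).run k x)) : q.size < (X e).stamp k x := by
  have h := asks_path B _ ((X e).asks k x) q hq
  unfold XP.stamp
  omega

lemma stamp_pos (X : XP) (k : ℕ) (x : List Bool) : 0 < X.stamp k x := by
  unfold XP.stamp
  omega

/-- the oracle with zero inputs of size `n` -/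
lemma zero (hFIX : S_FIX) (hAGR : S_AGR) (X : ℕ → XP) (B : Adr → Bool)
    (hB : ∀ e k x, Valid X B e k x) (k n : ℕ) :
    ∃ O : Adr → Bool, (∀ e k x, Valid X O e k x) ∧ (∀ q, q.size < n → O q = B q) ∧
      ∀ l, O (.inp k n l) = false := by
  classical
  set u : Adr → Bool := fun q => match q with
    | .inp k' n' l => if k' = k ∧ n' = n then false else B (.inp k' n' l)
    | .ans e k' x s y => B (.ans e k' x s y) with hu
  obtain ⟨O, hO1, hO2⟩ := hFIX X u (fun e k' x _ => ⟨0, stamp_pos (X e) k' x⟩)
  refine ⟨O, hO2, ?_, ?_⟩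
  · refine hAGR X O B (fun q => q.size < n) hO2 hB ?_
    intro q hq
    by_cases hl : ∃ e k' x, q = abit X e k' x (fun _ => ⟨0, stamp_pos (X e) k' x⟩)
    · obtain ⟨e, k', x, rfl⟩ := hl
      right
      refine ⟨e, k', x, _, rfl, ?_, ?_⟩
      · intro y hy
        rw [hO1 _ (fun e' k'' x' => FIXw.abit_ne_loc X
          (fun e k' x _ => ⟨0, stamp_pos (X e) k' x⟩) hy e' k'' x')]
        rfl
      · intro q' hq'
        have h1 := path_lt X B e k' x q' hq'
        have h2 : (X e).stamp k' x < n := hq
        show q'.size < n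
        omega
    · left
      push Not at hl
      rw [hO1 q hl]
      cases q with
      | ans e k' x s y => rfl
      | inp k' n' l =>
        have : ¬ (k' = k ∧ n' = n) := by
          rintro ⟨-, h⟩
          have hq' : n' < n := hq
          omega
        simp only [hu, if_neg this]
  · intro l
    rw [hO1 _ (fun e k' x => by simp [abit])]
    simp [hu]

/-- the block of an address -/
def key : Adr → ℕ × ℕ × List Bool
  | .inp _ _ _ => (0, 0, [])
  | .ans e k x _ _ => (e, k, x)

end STG

open STG in
theorem t_STG (hFIX : S_FIX) (hAGR : S_AGR) (hCLS : S_CLS) (hASK : S_ASK) (hNUM : S_NUM)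
    (hCORE : S_CORE) (hSUB : S_SUB) (hCNG : S_CNG) (hPTH : S_PTH) (hXI : S_XI) (hINJ : S_INJ)
    (hLIV : S_LIV) : S_STG := by
  classical
  intro X t c k F G hck
  obtain ⟨C, hC⟩ := hNUM t c k (F k) (G k) hck
  obtain ⟨L₀, hL₀⟩ := hCORE t C (G k)
  obtain ⟨n₁, hn₁⟩ := hC (max L₀ 2)
  refine ⟨n₁, fun n hn a ha B hB => ?_⟩
  obtain ⟨L, hLL, hL1, hLn, hclb, hN, hZ⟩ := hn₁ n hn
  have hL2 : 2 ≤ L := le_trans (le_max_right _ _) hLL
  have hLL₀ : L₀ ≤ L := le_trans (le_max_left _ _) hLL
  obtain ⟨O, hO, hOB, hO0⟩ := zero hFIX hAGR X B hB k n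
  obtain ⟨R, φ, hR, hφ, hφA⟩ := hPTH Adr _ _ _ _ _ O a ha
  obtain ⟨cl, hRcl, hclc, hcl'⟩ := hCLS X O R
  obtain ⟨ξ, hξ, hξcl⟩ := hXI k n (L ^ 6) (4 * (F k * n ^ c)) cl (by omega) hclb
  have hm : L ^ 3 ≤ L ^ 6 := Nat.pow_le_pow_right (by omega) (by norm_num)
  have hνn : L ^ 6 ≤ n := le_trans (Nat.pow_le_pow_right (by omega) (by omega)) hLn
  obtain ⟨s, hs1, hs2, hs3, hs4⟩ := hLIV t k n (L ^ 6) (L ^ 3) ξ hm hνn (by positivity) hξ
  obtain ⟨Z, hZc, hZφ⟩ := hASK Adr _ _ _ _ φ hφ
  -- the hidden blocks
  set Hid : ℕ × ℕ × List Bool → Prop := fun b => n < (X b.1).stamp b.2.1 b.2.2 ∧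
    2 * (Finset.univ.filter (fun y => abit X b.1 b.2.1 b.2.2 y ∈ cl)).card <
      Fintype.card (Fin ((X b.1).G b.2.1 + 1) → Fin ((X b.1).stamp b.2.1 b.2.2)) with hHid
  set HS : Finset (ℕ × ℕ × List Bool) := (Z.image key).filter Hid with hHSdef
  have hHS : HS.card ≤ Z.card := (Finset.card_filter_le _ _).trans Finset.card_image_le
  have hι : ∀ h : {b // b ∈ HS}, ∃ ι : Pos t (L ^ 6) (L ^ 3) →
      (Fin ((X h.1.1).G h.1.2.1 + 1) → Fin ((X h.1.1).stamp h.1.2.1 h.1.2.2)),
      Function.Injective ι ∧ ∀ v, abit X h.1.1 h.1.2.1 h.1.2.2 (ι v) ∉ cl := fun h =>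
    hINJ X cl n L t hL2 hLn _ _ _ (Finset.mem_filter.1 h.2).2.1 (Finset.mem_filter.1 h.2).2.2
  choose ι hι1 hι2 using hι
  -- the addresses of the variables
  set adr : U t (L ^ 6) (L ^ 3) {b // b ∈ HS} → Adr := fun v => match v with
    | (p, none) => liveAdr ξ hm p
    | (p, some h) => abit X h.1.1 h.1.2.1 h.1.2.2 (ι h p) with hadr
  have hadr_inj : Function.Injective adr := by
    rintro ⟨p, o⟩ ⟨p', o'⟩ h
    cases o with
    | none =>
      cases o' with
      | none =>
        have h' : liveAdr ξ hm p = liveAdr ξ hm p' := h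
        obtain ⟨l, h1, h2⟩ := hs1 p
        obtain ⟨l', h1', h2'⟩ := hs1 p'
        rw [h1, h1'] at h'
        simp only [Adr.inp.injEq, true_and] at h'
        rw [h', h2'] at h2
        simp only [Sum.inr.injEq] at h2
        rw [h2]
      | some b' =>
        have h' : liveAdr ξ hm p = abit X b'.1.1 b'.1.2.1 b'.1.2.2 (ι b' p') := h
        simp [liveAdr, abit] at h'
    | some b =>
      cases o' with
      | none =>
        have h' : abit X b.1.1 b.1.2.1 b.1.2.2 (ι b p) = liveAdr ξ hm p' := h
        simp [liveAdr, abit] at h'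
      | some b' =>
        have h' : abit X b.1.1 b.1.2.1 b.1.2.2 (ι b p) =
          abit X b'.1.1 b'.1.2.1 b'.1.2.2 (ι b' p') := h
        have hb : b = b' := by
          apply Subtype.ext
          have h0 := congrArg key h'
          simpa [key, abit] using h0
        subst hb
        rw [hι1 b (FIXw.abit_inj X h')]
  -- the substitution
  set σ : Adr → Bool ⊕ U t (L ^ 6) (L ^ 3) {b // b ∈ HS} := fun q =>
    if hq : ∃ v, q = adr v then .inr hq.choose
    else match q with
      | .inp k' n' l => if k' = k ∧ n' = n then (s l).elim .inl (fun _ => .inl false)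
          else .inl (O (.inp k' n' l))
      | .ans e k' x' s' y' => .inl (O (.ans e k' x' s' y')) with hσdef
  have hσadr : ∀ v, σ (adr v) = .inr v := by
    intro v
    have hq : ∃ v', adr v = adr v' := ⟨v, rfl⟩
    have h1 : σ (adr v) = .inr hq.choose := by
      simp only [hσdef]
      rw [dif_pos hq]
    rw [h1, ← hadr_inj hq.choose_spec]
  have hσinr : ∀ q v, σ q = .inr v → q = adr v := by
    intro q v h
    by_cases hq : ∃ v, q = adr v
    · obtain ⟨v', rfl⟩ := hq
      rw [hσadr] at h
      simp only [Sum.inr.injEq] at h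
      rw [h]
    · exfalso
      simp only [hσdef] at h
      rw [dif_neg hq] at h
      cases q with
      | ans e k' x' s' y' => simp at h
      | inp k' n' l =>
        simp only at h
        split_ifs at h
        cases hsl : s l with
        | inl b => rw [hsl] at h; simp at h
        | inr w => rw [hsl] at h; simp at h
  have hne_some : ∀ q : Adr, ∀ v, q = adr v → (∃ p : Pos t (L ^ 6) (L ^ 3), q = liveAdr ξ hm p) ∨
      (∃ (h : {b // b ∈ HS}) (p : Pos t (L ^ 6) (L ^ 3)),
        q = abit X h.1.1 h.1.2.1 h.1.2.2 (ι h p)) := by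
    rintro q ⟨p, o⟩ rfl
    cases o with
    | none => exact Or.inl ⟨p, rfl⟩
    | some h => exact Or.inr ⟨h, p, rfl⟩
  -- F1
  have F1 : ∀ q ∈ cl, σ q = .inl (O q) := by
    intro q hq
    have hn' : ¬ ∃ v, q = adr v := by
      rintro ⟨v, hv⟩
      rcases hne_some q v hv with ⟨p, rfl⟩ | ⟨h, p, rfl⟩
      · exact hξcl _ _ hq
      · exact hι2 h p hq
    simp only [hσdef]
    rw [dif_neg hn']
    cases q with
    | ans e k' x' s' y' => rfl
    | inp k' n' l =>
      simp only
      split_ifs with hc'
      · obtain ⟨rfl, rfl⟩ := hc'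
        rw [hs3 l (by
          rintro i l' rfl
          exact hξcl i l' hq), hO0]
        rfl
      · rfl
  -- F2
  have F2 : ∀ e k' x' s' y', s' ≤ n → σ (.ans e k' x' s' y') = .inl (O (.ans e k' x' s' y')) := by
    intro e k' x' s' y' hs'
    have hn' : ¬ ∃ v, Adr.ans e k' x' s' y' = adr v := by
      rintro ⟨v, hv⟩
      rcases hne_some _ v hv with ⟨p, hp⟩ | ⟨h, p, hp⟩
      · simp [liveAdr] at hp
      · simp only [abit, Adr.ans.injEq] at hp
        have h3 := (Finset.mem_filter.1 h.2).2.1
        omega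
    simp only [hσdef]
    rw [dif_neg hn']
  -- F3
  have F3 : ∀ k' n' l, ¬ (k' = k ∧ n' = n) → σ (.inp k' n' l) = .inl (O (.inp k' n' l)) := by
    intro k' n' l hne
    have hn' : ¬ ∃ v, Adr.inp k' n' l = adr v := by
      rintro ⟨v, hv⟩
      rcases hne_some _ v hv with ⟨p, hp⟩ | ⟨h, p, hp⟩
      · simp only [liveAdr, Adr.inp.injEq] at hp
        exact hne ⟨hp.1, hp.2.1⟩
      · simp [abit] at hp
    simp only [hσdef]
    rw [dif_neg hn', if_neg hne]
  -- F4
  have F4 : ∀ l b, s l = .inl b → σ (.inp k n l) = .inl b := by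
    intro l b hb
    have hn' : ¬ ∃ v, Adr.inp k n l = adr v := by
      rintro ⟨v, hv⟩
      rcases hne_some _ v hv with ⟨p, hp⟩ | ⟨h, p, hp⟩
      · obtain ⟨l', h1, h2⟩ := hs1 p
        rw [h1] at hp
        simp only [Adr.inp.injEq, true_and] at hp
        rw [hp, h2] at hb
        simp at hb
      · simp [abit] at hp
    simp only [hσdef]
    rw [dif_neg hn', if_pos (by simp), hb]
    rfl
  -- the core
  have hcard : Fintype.card {b // b ∈ HS} ≤ L ^ C := by
    rw [Fintype.card_coe]
    exact (hHS.trans hZc).trans hZ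
  obtain ⟨x, loc, b, hx0, hx1, hxb⟩ := hL₀ L hLL₀ {b // b ∈ HS} hcard (F k * n ^ c) (G k) hN
    (φ.sub σ) ((hSUB _ _ σ φ).2 _ _ _ _ hφ)
  set j : Bool := decide (¬ b) with hj
  set locf : ∀ (e k' : ℕ) (x' : List Bool), Fin ((X e).G k' + 1) → Fin ((X e).stamp k' x') :=
    fun e k' x' => if h : (e, k', x') ∈ HS then ι ⟨(e, k', x'), h⟩ (loc ⟨(e, k', x'), h⟩)
      else if h2 : ∃ y, abit X e k' x' y ∉ cl then h2.choose
      else fun _ => ⟨0, stamp_pos (X e) k' x'⟩ with hlocf
  obtain ⟨A, hA1, hA2⟩ := hFIX X (osub σ (x j)) locf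
  -- agreement
  have hAO : ∀ q, (q ∈ cl ∨ (q.size ≤ n ∧ ∀ l, q ≠ .inp k n l)) → A q = O q := by
    refine hAGR X A O (fun q => q ∈ cl ∨ (q.size ≤ n ∧ ∀ l, q ≠ .inp k n l)) hA2 hO ?_
    intro q hq
    have hσq : σ q = .inl (O q) := by
      rcases hq with hq | ⟨hq1, hq2⟩
      · exact F1 q hq
      · cases q with
        | ans e k' x' s' y' => exact F2 e k' x' s' y' hq1
        | inp k' n' l =>
          refine F3 k' n' l ?_
          rintro ⟨rfl, rfl⟩
          exact hq2 l rfl
    by_cases hl : ∃ e k' x', q = abit X e k' x' (locf e k' x')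
    · obtain ⟨e, k', x', rfl⟩ := hl
      right
      refine ⟨e, k', x', _, rfl, ?_⟩
      by_cases hst : (X e).stamp k' x' ≤ n
      · refine ⟨fun y hy => ?_, fun q' hq' => ?_⟩
        · rw [hA1 _ (fun e' k'' x'' => FIXw.abit_ne_loc X locf hy e' k'' x'')]
          unfold osub abit
          rw [F2 _ _ _ _ _ hst]
          rfl
        · have h1 := path_lt X O e k' x' q' hq'
          right
          refine ⟨by omega, ?_⟩
          rintro l rfl
          have h2 : n < (X e).stamp k' x' := h1
          omega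
      · have hqcl : abit X e k' x' (locf e k' x') ∈ cl := by
          rcases hq with hq | ⟨hq1, -⟩
          · exact hq
          · exact absurd hq1 hst
        rcases hcl' e k' x' with ⟨hall, hpath⟩ | hhid
        · refine ⟨fun y hy => ?_, fun q' hq' => Or.inl (hpath hq')⟩
          rw [hA1 _ (fun e' k'' x'' => FIXw.abit_ne_loc X locf hy e' k'' x'')]
          unfold osub
          rw [F1 _ (hall y)]
          rfl
        · exfalso
          by_cases hin : (e, k', x') ∈ HS
          · have h1 : locf e k' x' = ι ⟨(e, k', x'), hin⟩ (loc ⟨(e, k', x'), hin⟩) := by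
              simp only [hlocf]
              rw [dif_pos hin]
            rw [h1] at hqcl
            exact hι2 ⟨(e, k', x'), hin⟩ _ hqcl
          · have h2 : ∃ y, abit X e k' x' y ∉ cl := by
              by_contra hcon
              push Not at hcon
              have h3 : (Finset.univ.filter (fun y => abit X e k' x' y ∈ cl)) = Finset.univ :=
                Finset.filter_true_of_mem (fun y _ => hcon y)
              rw [h3, Finset.card_univ] at hhid
              omega
            have h1 : locf e k' x' = h2.choose := by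
              simp only [hlocf]
              rw [dif_neg hin, dif_pos h2]
            rw [h1] at hqcl
            exact h2.choose_spec hqcl
    · left
      push Not at hl
      rw [hA1 q hl]
      unfold osub
      rw [hσq]
      rfl
  -- the values of the variables
  set xh : U t (L ^ 6) (L ^ 3) {b // b ∈ HS} → Bool := fun v => A (adr v) with hxh
  have hagree : ∀ v, (∀ h, v ≠ (loc h, some h)) → xh v = x j v := by
    intro v hv
    have h1 : ∀ e k' x', adr v ≠ abit X e k' x' (locf e k' x') := by
      intro e k' x'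
      rcases v with ⟨p, o⟩
      cases o with
      | none =>
        intro h
        have h' : liveAdr ξ hm p = abit X e k' x' (locf e k' x') := h
        simp [liveAdr, abit] at h'
      | some h =>
        refine FIXw.abit_ne_loc X locf (y := ι h p) ?_ e k' x'
        intro h3
        have hin : (h.1.1, h.1.2.1, h.1.2.2) ∈ HS := h.2
        have h4 : locf h.1.1 h.1.2.1 h.1.2.2 = ι h (loc h) := by
          simp only [hlocf]
          rw [dif_pos hin]
        rw [h4] at h3
        exact hv h (by rw [hι1 h h3])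
    show A (adr v) = x j v
    rw [hA1 _ h1]
    unfold osub
    rw [hσadr]
    rfl
  have hagree2 : ∀ q, q ∈ Z → A q = osub σ xh q := by
    intro q hqZ
    cases hσq : σ q with
    | inr v =>
      have h1 := hσinr q v hσq
      unfold osub
      rw [hσq, h1]
      rfl
    | inl b' =>
      have h0 : osub σ xh q = b' := by
        unfold osub
        rw [hσq]
        rfl
      rw [h0]
      by_cases hl : ∃ e k' x', q = abit X e k' x' (locf e k' x')
      · obtain ⟨e, k', x', rfl⟩ := hl
        by_cases hst : (X e).stamp k' x' ≤ n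
        · rw [hAO (abit X e k' x' (locf e k' x')) (Or.inr ⟨hst, fun l => by simp [abit]⟩)]
          have h1 := F2 e k' x' _ (List.ofFn fun i => (locf e k' x' i : ℕ)) hst
          unfold abit at hσq
          rw [h1] at hσq
          simp only [Sum.inl.injEq] at hσq
          exact hσq
        · rcases hcl' e k' x' with ⟨hall, -⟩ | hhid
          · rw [hAO _ (Or.inl (hall _))]
            rw [F1 _ (hall _)] at hσq
            simp only [Sum.inl.injEq] at hσq
            exact hσq
          · exfalso
            have hin : (e, k', x') ∈ HS := by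
              refine Finset.mem_filter.2 ⟨Finset.mem_image.2 ⟨_, hqZ, rfl⟩, ?_, hhid⟩
              show n < (X e).stamp k' x'
              omega
            have h1 : locf e k' x' = ι ⟨(e, k', x'), hin⟩ (loc ⟨(e, k', x'), hin⟩) := by
              simp only [hlocf]
              rw [dif_pos hin]
            have h2 : abit X e k' x' (locf e k' x') =
                adr (loc ⟨(e, k', x'), hin⟩, some ⟨(e, k', x'), hin⟩) := by
              rw [h1]
            rw [h2] at hσq
            have h5 := (hσadr (loc ⟨(e, k', x'), hin⟩, some ⟨(e, k', x'), hin⟩)).symm.trans hσq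
            simp at h5
      · push Not at hl
        rw [hA1 q hl]
        unfold osub
        rw [hσq]
        rfl
  have hφb : φ.Holds A ↔ b :=
    ((hCNG Adr (fun q => q ∈ Z) A (osub σ xh) φ hZφ hagree2).trans
      ((hSUB _ _ σ φ).1 xh).symm).trans (hxb j xh hagree)
  have hSip : Sip A t k n ↔ Pf t (L ^ 6) (L ^ 3) (fun v => x j (v, none)) := by
    rw [hs4 A (fun l b' hb => by
      rw [hA1 _ (fun e k' x' => by simp [abit])]
      unfold osub
      rw [F4 l b' hb]
      rfl)]
    have h1 : (fun v => A (liveAdr ξ hm v)) = fun v => x j (v, none) := by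
      funext v
      exact hagree (v, none) (fun h => by simp)
    rw [h1]
  have hacc : a.Accepts A ↔ b :=
    (hφA A (fun q hq => hAO q (Or.inl (hRcl hq)))).trans hφb
  refine ⟨A, hA2, ?_, ?_⟩
  · intro q hq
    rw [hAO q (Or.inr ⟨hq.le, ?_⟩), hOB q hq]
    rintro l rfl
    exact absurd hq (lt_irrefl n)
  · rw [hacc, hSip]
    by_cases hb : b
    · have hj' : j = false := by simp [hj, hb]
      rw [hj']
      intro h
      exact hx0 (h.1 hb)
    · have hj' : j = true := by simp [hj, hb]
      rw [hj']
      intro h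
      exact hb (h.2 hx1)

end Pool.Agent.OWH
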