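import Pool.Agent.OWH.St

/-!
# OWH, module SW: the projection switching lemma
-/

set_option autoImplicit false

namespace Pool.Agent.OWH
open Pool.Agent.Lib_helper62.PToda

namespace SW

variable {V W : Type} [DecidableEq V] [DecidableEq W]
variable {R : ℕ} (blk : V → W) (hv : V → Bool) (κ : W → Bool)

/-- value of a variable under a state and a partial assignment of the blocks -/
def val (ω : W ⊕ V → Fin (2 * R + 1)) (π : W → Option Bool) (v : V) : Option Bool :=
  (psub blk hv κ ω v).elim some π

lemma val_const {ω : W ⊕ V → Fin (2 * R + 1)} {π : W → Option Bool} {z : W → Bool}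
    (hz : ∀ w b, π w = some b → z w = b) {v : V} {b : Bool}
    (h : val blk hv κ ω π v = some b) : osub (psub blk hv κ ω) z v = b := by
  unfold val at h
  unfold osub
  cases hp : psub blk hv κ ω v with
  | inl c => rw [hp] at h; simpa using h
  | inr w => rw [hp] at h; exact hz w b (by simpa using h)

open Classical in
/-- falsified terms -/
def fals (ω : W ⊕ V → Fin (2 * R + 1)) (π : W → Option Bool) (T : Finset V × (V → Bool)) : Prop :=
  ∃ v ∈ T.1, val blk hv κ ω π v = some (!T.2 v)

open Classical in
/-- the first term which is not falsified -/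
noncomputable def first (ts : List (Finset V × (V → Bool))) (ω : W ⊕ V → Fin (2 * R + 1))
    (π : W → Option Bool) : Option (Finset V × (V → Bool)) :=
  ts.find? (fun T => decide (¬ fals blk hv κ ω π T))

lemma find_mono {α : Type} (ts : List α) (p p' : α → Bool) (h : ∀ x, p' x = true → p x = true)
    (T : α) (hT : p' T = true) (hf : ts.find? p = some T) : ts.find? p' = some T := by
  induction ts with
  | nil => simp at hf
  | cons a l ih =>
    rw [List.find?_cons] at hf ⊢
    by_cases ha : p a = true
    · rw [ha] at hf
      simp only [Option.some.injEq] at hf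
      subst hf
      rw [hT]
    · have ha' : p' a = false := by
        cases hc : p' a with
        | false => rfl
        | true => exact absurd (h a hc) ha
      simp only [Bool.not_eq_true] at ha
      rw [ha] at hf
      rw [ha']
      exact ih hf

/-- the stars of a term -/
def stars (ω : W ⊕ V → Fin (2 * R + 1)) (π : W → Option Bool) (S : Finset V) : Finset V :=
  S.filter (fun v => val blk hv κ ω π v = none)

/-- exposed blocks -/
def upd (π : W → Option Bool) (J : Finset V) (z : W → Bool) (w : W) : Option Bool :=
  if ∃ v ∈ J, blk v = w then some (z w) else π w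

/-- long path -/
def Bad (ts : List (Finset V × (V → Bool))) :
    ℕ → (W → Option Bool) → (W ⊕ V → Fin (2 * R + 1)) → Prop
  | 0, _, _ => True
  | s + 1, π, ω => ∃ T, first blk hv κ ts ω π = some T ∧ (stars blk hv κ ω π T.1).Nonempty ∧
      ∃ z : W → Bool, Bad ts s (upd blk π (stars blk hv κ ω π T.1) z) ω

/-- component of the advice at a variable -/
noncomputable def ad {d : ℕ} (adv : Fin d → Bool × Bool) (S : Finset V) (v : V) : Bool × Bool :=
  if h : S.toList.idxOf v < d then adv ⟨S.toList.idxOf v, h⟩ else (false, false)

lemma exists_ad {d : ℕ} (S : Finset V) (hS : S.card ≤ d) (g : V → Bool × Bool) :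
    ∃ adv : Fin d → Bool × Bool, ∀ v ∈ S, ad adv S v = g v := by
  classical
  refine ⟨fun i => if h : (i : ℕ) < S.toList.length then g (S.toList[(i : ℕ)]) else (false, false),
    fun v hv => ?_⟩
  have hmem : v ∈ S.toList := Finset.mem_toList.mpr hv
  have h1 : S.toList.idxOf v < S.toList.length := List.idxOf_lt_length_iff.mpr hmem
  have h2 : S.toList.idxOf v < d := lt_of_lt_of_le h1 (by rw [Finset.length_toList]; exact hS)
  unfold ad
  rw [dif_pos h2]
  simp only
  rw [dif_pos h1]
  congr 1
  exact List.getElem_idxOf h1

/-- coordinate which is changed for a literal -/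
def cd (v : V) (b : Bool) : W ⊕ V :=
  if hv v = true ∨ b = κ (blk v) then .inr v else .inl (blk v)

/-- number written for a literal -/
def nz (v : V) (b : Bool) (c : Fin R) : Fin (2 * R + 1) :=
  if hv v = true then (if b = true then ⟨2 * c + 1, by omega⟩ else ⟨2 * c + 2, by omega⟩)
  else ⟨c + 1, by omega⟩

/-- reading the choice -/
def rd (v : V) (x : Fin (2 * R + 1)) : ℕ :=
  if hv v = true then ((x : ℕ) - 1) / 2 else (x : ℕ) - 1

lemma rd_nz (v : V) (b : Bool) (c : Fin R) : rd hv v (nz hv v b c) = c := by
  unfold rd nz
  by_cases h : hv v = true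
  · rw [if_pos h, if_pos h]
    cases b <;> simp <;> omega
  · rw [if_neg h, if_neg h]
    simp

lemma nz_ne (v : V) (b : Bool) (c : Fin R) : nz hv v b c ≠ 0 := by
  unfold nz
  intro h
  have h0 := congrArg Fin.val h
  by_cases h1 : hv v = true
  · rw [if_pos h1] at h0
    cases b <;> simp at h0
  · rw [if_neg h1] at h0
    simp at h0

open Classical in
/-- satisfy the star literals of a term -/
noncomputable def put (ω : W ⊕ V → Fin (2 * R + 1)) (J : Finset V) (a : V → Bool) (c : Fin R) :
    W ⊕ V → Fin (2 * R + 1)
  | .inr v => if v ∈ J ∧ (hv v = true ∨ a v = κ (blk v)) then nz hv v (a v) c else ω (.inr v)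
  | .inl w => if ∃ v ∈ J, hv v = false ∧ blk v = w ∧ a v ≠ κ w then ⟨c + 1, by omega⟩
      else ω (.inl w)

open Classical in
/-- restore the stars -/
noncomputable def res (ω : W ⊕ V → Fin (2 * R + 1)) (J : Finset V) :
    W ⊕ V → Fin (2 * R + 1)
  | .inr v => if v ∈ J then 0 else ω (.inr v)
  | .inl w => if ∃ v ∈ J, hv v = false ∧ blk v = w then 0 else ω (.inl w)

open Classical in
/-- read the choice of a stage -/
noncomputable def rdc (ω : W ⊕ V → Fin (2 * R + 1)) (J : Finset V) (a : V → Bool) : ℕ :=
  if h : J.Nonempty then rd hv h.choose (ω (cd blk hv κ h.choose (a h.choose))) else 0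

lemma rdc_put (ω : W ⊕ V → Fin (2 * R + 1)) (J : Finset V) (a : V → Bool) (c : Fin R)
    (hJ : J.Nonempty) : rdc blk hv κ (put blk hv κ ω J a c) J a = c := by
  classical
  unfold rdc
  rw [dif_pos hJ]
  set v := hJ.choose with hvdef
  have hmem : v ∈ J := hJ.choose_spec
  unfold cd
  by_cases h : hv v = true ∨ a v = κ (blk v)
  · rw [if_pos h]
    unfold put
    simp only
    rw [if_pos ⟨hmem, h⟩]
    exact rd_nz hv v (a v) c
  · rw [if_neg h]
    push Not at h
    unfold put
    simp only
    rw [if_pos ⟨v, hmem, by simpa using h.1, rfl, h.2⟩]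
    unfold rd
    rw [if_neg (by simpa using h.1)]
    simp

lemma res_put (ω : W ⊕ V → Fin (2 * R + 1)) (J : Finset V) (a : V → Bool) (c : Fin R)
    (h1 : ∀ v ∈ J, ω (.inr v) = 0) (h2 : ∀ v ∈ J, hv v = false → ω (.inl (blk v)) = 0) :
    res blk hv (put blk hv κ ω J a c) J = ω := by
  classical
  funext i
  cases i with
  | inr v =>
    unfold res
    by_cases h : v ∈ J
    · simp only [if_pos h]
      exact (h1 v h).symm
    · simp only [if_neg h]
      unfold put
      simp only
      rw [if_neg (fun hh => h hh.1)]
  | inl w =>
    unfold res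
    by_cases h : ∃ v ∈ J, hv v = false ∧ blk v = w
    · simp only [if_pos h]
      obtain ⟨v, hvJ, hl, rfl⟩ := h
      exact (h2 v hvJ hl).symm
    · simp only [if_neg h]
      unfold put
      simp only
      rw [if_neg (fun ⟨v, hvJ, hl, hb, _⟩ => h ⟨v, hvJ, hl, hb⟩)]

/-- extension of a state -/
def Ext (π : W → Option Bool) (ω ω' : W ⊕ V → Fin (2 * R + 1)) : Prop :=
  (∀ v b, val blk hv κ ω π v = some b → val blk hv κ ω' π v = some b) ∧
  (∀ w, π w ≠ none → ω' (.inl w) = ω (.inl w)) ∧
  (∀ v, π (blk v) ≠ none → ω' (.inr v) = ω (.inr v))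

open Classical in
/-- the decoder -/
noncomputable def dec (ts : List (Finset V × (V → Bool))) {d : ℕ} :
    (s : ℕ) → (W → Option Bool) → (W ⊕ V → Fin (2 * R + 1)) →
    (Fin s → (Fin d → Bool × Bool)) → (W ⊕ V → Fin (2 * R + 1)) × (Fin s → ℕ)
  | 0, _, ω, _ => (ω, Fin.elim0)
  | s + 1, π, ω, adv =>
    match first blk hv κ ts ω π with
    | none => (ω, fun _ => 0)
    | some T =>
      let J := T.1.filter (fun v => (ad (adv 0) T.1 v).1 = true)
      let r := dec ts s (upd blk π J
        (fun w => decide (∃ v ∈ J, blk v = w ∧ (ad (adv 0) T.1 v).2 = true)))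
        (res blk hv ω J) (Fin.tail adv)
      (r.1, Fin.cons (rdc blk hv κ ω J T.2) r.2)

lemma psub_star {ω : W ⊕ V → Fin (2 * R + 1)} {v : V} {w : W}
    (h : psub blk hv κ ω v = .inr w) :
    w = blk v ∧ ω (.inr v) = 0 ∧ (hv v = false → ω (.inl (blk v)) = 0) := by
  unfold psub at h
  by_cases h1 : hv v = true
  · rw [if_pos h1] at h
    by_cases h2 : ω (.inr v) = 0
    · rw [if_pos h2] at h
      refine ⟨by simpa using h.symm, h2, fun h3 => ?_⟩
      rw [h1] at h3
      cases h3
    · rw [if_neg h2] at h
      cases h
  · rw [if_neg h1] at h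
    by_cases h2 : ω (.inr v) ≠ 0
    · rw [if_pos h2] at h
      cases h
    · rw [if_neg h2] at h
      by_cases h3 : ω (.inl (blk v)) ≠ 0
      · rw [if_pos h3] at h
        cases h
      · rw [if_neg h3] at h
        push Not at h2 h3
        exact ⟨by simpa using h.symm, h2, fun _ => h3⟩

lemma psub_of_star {ω : W ⊕ V → Fin (2 * R + 1)} {v : V} (h1 : ω (.inr v) = 0)
    (h2 : hv v = false → ω (.inl (blk v)) = 0) : psub blk hv κ ω v = .inr (blk v) := by
  unfold psub
  by_cases h : hv v = true
  · rw [if_pos h, if_pos h1]
  · rw [if_neg h, if_neg (by simpa using h1), if_neg]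
    simpa using h2 (by simpa using h)

/-- Under the state `put ...` the star literals are satisfied. -/
lemma psub_put {ω : W ⊕ V → Fin (2 * R + 1)} {J : Finset V} {a : V → Bool} {c : Fin R}
    {v : V} (hJ : v ∈ J) (h1 : ω (.inr v) = 0) :
    psub blk hv κ (put blk hv κ ω J a c) v = .inl (a v) := by
  classical
  unfold psub
  by_cases h : hv v = true
  · rw [if_pos h]
    have hp : put blk hv κ ω J a c (.inr v) = nz hv v (a v) c := by
      unfold put
      simp only
      rw [if_pos ⟨hJ, Or.inl h⟩]
    rw [hp, if_neg (nz_ne hv v (a v) c)]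
    unfold nz
    rw [if_pos h]
    cases hav : a v <;> simp <;> omega
  · rw [if_neg h]
    by_cases hk : a v = κ (blk v)
    · have hp : put blk hv κ ω J a c (.inr v) = nz hv v (a v) c := by
        unfold put
        simp only
        rw [if_pos ⟨hJ, Or.inr hk⟩]
      rw [hp, if_pos (nz_ne hv v (a v) c), hk]
    · have hp : put blk hv κ ω J a c (.inr v) = 0 := by
        unfold put
        simp only
        rw [if_neg (by push Not; exact fun _ => ⟨h, hk⟩), h1]
      rw [if_neg (by simp [hp])]
      have hq : put blk hv κ ω J a c (.inl (blk v)) ≠ 0 := by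
        unfold put
        simp only
        rw [if_pos ⟨v, hJ, by simpa using h, rfl, hk⟩]
        intro h0
        have := congrArg Fin.val h0
        simp at this
      rw [if_pos hq]
      congr 1
      cases hav : a v <;> cases hkk : κ (blk v) <;> simp_all

variable (hinj : ∀ v v', hv v = true → blk v = blk v' → v = v')
include hinj

/-- The covering claim. -/
lemma cover (ts : List (Finset V × (V → Bool))) {d : ℕ} (hts : ∀ T ∈ ts, T.1.card ≤ d) :
    ∀ (s : ℕ) (π : W → Option Bool) (ω : W ⊕ V → Fin (2 * R + 1)), Bad blk hv κ ts s π ω →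
    ∀ cs : Fin s → Fin R, ∃ (ω' : W ⊕ V → Fin (2 * R + 1)) (adv : Fin s → (Fin d → Bool × Bool)),
      dec blk hv κ ts s π ω' adv = (ω, fun i => (cs i : ℕ)) ∧ Ext blk hv κ π ω ω' := by
  classical
  intro s
  induction s with
  | zero =>
    intro π ω _ cs
    refine ⟨ω, Fin.elim0, ?_, fun v b h => h, fun _ _ => rfl, fun _ _ => rfl⟩
    unfold dec
    congr 1
    funext i
    exact i.elim0
  | succ s ih =>
    intro π ω hbad cs
    obtain ⟨T, hT, hne, z, hz⟩ := hbad
    set J := stars blk hv κ ω π T.1 with hJdef
    obtain ⟨ω₁, adv₁, hdec, hext⟩ := ih _ ω hz (Fin.tail cs)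
    -- facts about stars
    have hstar : ∀ v ∈ J, v ∈ T.1 ∧ psub blk hv κ ω v = .inr (blk v) ∧ π (blk v) = none ∧
        ω (.inr v) = 0 ∧ (hv v = false → ω (.inl (blk v)) = 0) := by
      intro v hvJ
      rw [hJdef] at hvJ
      unfold stars at hvJ
      rw [Finset.mem_filter] at hvJ
      obtain ⟨hvT, hval⟩ := hvJ
      unfold val at hval
      cases hp : psub blk hv κ ω v with
      | inl b => rw [hp] at hval; simp at hval
      | inr w =>
        rw [hp] at hval
        obtain ⟨hw, h1, h2⟩ := psub_star blk hv κ hp
        subst hw
        exact ⟨hvT, rfl, by simpa using hval, h1, h2⟩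
    have hupd : ∀ v ∈ J, upd blk π J z (blk v) ≠ none := by
      intro v hvJ
      unfold upd
      rw [if_pos ⟨v, hvJ, rfl⟩]
      simp
    have h1inr : ∀ v ∈ J, ω₁ (.inr v) = 0 := fun v hvJ => by
      rw [hext.2.2 v (hupd v hvJ)]
      exact (hstar v hvJ).2.2.2.1
    have h1inl : ∀ v ∈ J, hv v = false → ω₁ (.inl (blk v)) = 0 := fun v hvJ hl => by
      rw [hext.2.1 (blk v) (hupd v hvJ)]
      exact (hstar v hvJ).2.2.2.2 hl
    set ω' := put blk hv κ ω₁ J T.2 (cs 0) with hω'
    -- unchanged coordinates
    have hinl : ∀ w, (∀ v ∈ J, blk v ≠ w) → ω' (.inl w) = ω₁ (.inl w) := by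
      intro w hw
      rw [hω']
      unfold put
      simp only
      rw [if_neg]
      rintro ⟨v, hvJ, _, hb, _⟩
      exact hw v hvJ hb
    have hinr : ∀ v, v ∉ J → ω' (.inr v) = ω₁ (.inr v) := by
      intro v hv'
      rw [hω']
      unfold put
      simp only
      rw [if_neg (fun hh => hv' hh.1)]
    -- extension
    have hExt : Ext blk hv κ π ω ω' := by
      refine ⟨fun v b hvb => ?_, fun w hw => ?_, fun v hw => ?_⟩
      · -- values
        have hvJ : v ∉ J := fun hh => by
          have := (hstar v hh)
          unfold val at hvb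
          rw [this.2.1] at hvb
          simp [this.2.2.1] at hvb
        by_cases hb : ∃ u ∈ J, blk u = blk v
        · obtain ⟨u, huJ, hub⟩ := hb
          have huv : u ≠ v := fun hh => hvJ (hh ▸ huJ)
          -- v is light
          have hl : hv v = false := by
            cases hc : hv v with
            | false => rfl
            | true => exact absurd (hinj v u hc hub.symm).symm huv
          have hul : hv u = false := by
            cases hc : hv u with
            | false => rfl
            | true => exact absurd (hinj u v hc hub) huv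
          have hk : ω (.inl (blk v)) = 0 := by
            rw [← hub]
            exact (hstar u huJ).2.2.2.2 hul
          have hpv : π (blk v) = none := by
            rw [← hub]
            exact (hstar u huJ).2.2.1
          -- own coordinate of v is non-zero
          have hown : ω (.inr v) ≠ 0 := by
            intro h0
            have hp := psub_of_star blk hv κ (ω := ω) h0 (fun _ => hk)
            unfold val at hvb
            rw [hp] at hvb
            simp [hpv] at hvb
          have hval : psub blk hv κ ω v = .inl (κ (blk v)) := by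
            unfold psub
            rw [if_neg (by simp [hl]), if_pos hown]
          have hown' : ω' (.inr v) ≠ 0 := by
            rw [hinr v hvJ, hext.2.2 v (by rw [← hub]; exact hupd u huJ)]
            exact hown
          have hval' : psub blk hv κ ω' v = .inl (κ (blk v)) := by
            unfold psub
            rw [if_neg (by simp [hl]), if_pos hown']
          unfold val at hvb ⊢
          rw [hval] at hvb
          rw [hval']
          exact hvb
        · push Not at hb
          have hπ : upd blk π J z (blk v) = π (blk v) := by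
            unfold upd
            rw [if_neg]
            rintro ⟨u, huJ, hub⟩
            exact hb u huJ hub
          have hps : psub blk hv κ ω' v = psub blk hv κ ω₁ v := by
            unfold psub
            rw [hinr v hvJ, hinl (blk v) hb]
          have hv1 : val blk hv κ ω (upd blk π J z) v = some b := by
            unfold val at hvb ⊢
            cases hp : psub blk hv κ ω v with
            | inl c => rw [hp] at hvb; exact hvb
            | inr w =>
              rw [hp] at hvb
              obtain ⟨hw, _, _⟩ := psub_star blk hv κ hp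
              subst hw
              simpa [hπ] using hvb
          have hv2 := hext.1 v b hv1
          unfold val at hv2 ⊢
          rw [hps]
          cases hp : psub blk hv κ ω₁ v with
          | inl c => rw [hp] at hv2; exact hv2
          | inr w =>
            rw [hp] at hv2
            obtain ⟨hw, _, _⟩ := psub_star blk hv κ hp
            subst hw
            simpa [hπ] using hv2
      · have hnot : ∀ v ∈ J, blk v ≠ w := by
          intro v hvJ hb
          rw [← hb] at hw
          exact hw (hstar v hvJ).2.2.1
        rw [hinl w hnot]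
        apply hext.2.1
        unfold upd
        rw [if_neg]
        · exact hw
        · rintro ⟨v, hvJ, hb⟩
          exact hnot v hvJ hb
      · have hnJ : v ∉ J := fun hh => hw (hstar v hh).2.2.1
        rw [hinr v hnJ]
        apply hext.2.2
        unfold upd
        rw [if_neg]
        · exact hw
        · rintro ⟨u, huJ, hub⟩
          rw [← hub] at hw
          exact hw (hstar u huJ).2.2.1
    -- T is the first term not falsified by (ω', π)
    have hTf : ¬ fals blk hv κ ω π T := by
      have := List.find?_some hT
      simpa using this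
    have hTf' : ¬ fals blk hv κ ω' π T := by
      rintro ⟨v, hvT, hvv⟩
      by_cases hvJ : v ∈ J
      · have := psub_put blk hv κ (ω := ω₁) (a := T.2) (c := cs 0) hvJ (h1inr v hvJ)
        rw [← hω'] at this
        unfold val at hvv
        rw [this] at hvv
        simp at hvv
      · have hval : val blk hv κ ω π v ≠ none := by
          intro h0
          apply hvJ
          rw [hJdef]
          unfold stars
          rw [Finset.mem_filter]
          exact ⟨hvT, h0⟩
        obtain ⟨b, hb⟩ := Option.ne_none_iff_exists'.mp hval
        have hb' := hExt.1 v b hb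
        rw [hb'] at hvv
        apply hTf
        refine ⟨v, hvT, ?_⟩
        rw [hb]
        exact hvv
    have hfirst : first blk hv κ ts ω' π = some T := by
      unfold first at hT ⊢
      refine find_mono ts _ _ ?_ T ?_ hT
      · intro x hx
        simp only [decide_eq_true_eq] at hx ⊢
        intro hf
        apply hx
        obtain ⟨v, hvx, hvv⟩ := hf
        exact ⟨v, hvx, hExt.1 v _ hvv⟩
      · simpa using hTf'
    have hTts : T ∈ ts := List.mem_of_find?_eq_some hT
    obtain ⟨adv₀, hadv₀⟩ := exists_ad T.1 (hts T hTts)
      (fun v => (decide (v ∈ J), z (blk v)))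
    refine ⟨ω', Fin.cons adv₀ adv₁, ?_, hExt⟩
    have hJ' : T.1.filter (fun v => (ad adv₀ T.1 v).1 = true) = J := by
      ext v
      rw [Finset.mem_filter]
      constructor
      · rintro ⟨hvT, hh⟩
        rw [hadv₀ v hvT] at hh
        simpa using hh
      · intro hvJ
        have hvT := (hstar v hvJ).1
        refine ⟨hvT, ?_⟩
        rw [hadv₀ v hvT]
        simpa using hvJ
    have hπ' : upd blk π J
        (fun w => decide (∃ v ∈ J, blk v = w ∧ (ad adv₀ T.1 v).2 = true)) = upd blk π J z := by
      funext w
      unfold upd
      by_cases h : ∃ v ∈ J, blk v = w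
      · rw [if_pos h, if_pos h]
        congr 1
        obtain ⟨v, hvJ, rfl⟩ := h
        rw [Bool.eq_iff_iff, decide_eq_true_eq]
        constructor
        · rintro ⟨u, huJ, hub, hu⟩
          rw [hadv₀ u (hstar u huJ).1] at hu
          simp only at hu
          rw [← hub]
          exact hu
        · intro hzv
          refine ⟨v, hvJ, rfl, ?_⟩
          rw [hadv₀ v (hstar v hvJ).1]
          exact hzv
      · rw [if_neg h, if_neg h]
    unfold dec
    rw [hfirst]
    simp only [Fin.cons_zero, Fin.tail_cons]
    rw [hJ', hπ', hω', res_put blk hv κ ω₁ J T.2 (cs 0) h1inr h1inl, hdec,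
      rdc_put blk hv κ ω₁ J T.2 (cs 0) hne]
    simp only [Prod.mk.injEq, true_and]
    funext i
    refine Fin.cases ?_ (fun j => ?_) i
    · simp
    · simp [Fin.tail]

omit hinj in
/-- Asking a list of blocks. -/
lemma askAll (g : (W → Bool) → Bool) (D : ℕ) : ∀ (l : List W) (π : W → Option Bool),
    (∀ z : W → Bool, ∃ T : DT W, T.depth ≤ D ∧ ∀ z' : W → Bool,
      (∀ w b, (if w ∈ l then some (z w) else π w) = some b → z' w = b) → T.eval z' = g z') →
    ∃ T : DT W, T.depth ≤ l.length + D ∧ ∀ z' : W → Bool, (∀ w b, π w = some b → z' w = b) →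
      T.eval z' = g z' := by
  intro l
  induction l with
  | nil =>
    intro π h
    obtain ⟨T, h1, h2⟩ := h (fun _ => false)
    exact ⟨T, by simpa using h1, fun z' hz' => h2 z' (fun w b hb => hz' w b (by simpa using hb))⟩
  | cons w₀ l ih =>
    intro π h
    have key : ∀ b : Bool, ∃ T : DT W, T.depth ≤ l.length + D ∧ ∀ z' : W → Bool,
        (∀ w c, Function.update π w₀ (some b) w = some c → z' w = c) → T.eval z' = g z' := by
      intro b
      apply ih
      intro z
      obtain ⟨T, h1, h2⟩ := h (fun w => if w ∈ l then z w else if w = w₀ then b else z w)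
      refine ⟨T, h1, fun z' hz' => h2 z' (fun w c hc => ?_)⟩
      apply hz' w c
      by_cases hwl : w ∈ l
      · rw [if_pos hwl]
        rw [if_pos (List.mem_cons_of_mem _ hwl), if_pos hwl] at hc
        exact hc
      · rw [if_neg hwl]
        by_cases hw0 : w = w₀
        · subst hw0
          rw [if_pos (List.mem_cons_self), if_neg hwl, if_pos rfl] at hc
          rw [Function.update_self]
          exact hc
        · rw [if_neg (by simp [hwl, hw0])] at hc
          rw [Function.update_of_ne hw0]
          exact hc
    obtain ⟨T0, h01, h02⟩ := key false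
    obtain ⟨T1, h11, h12⟩ := key true
    refine ⟨.node w₀ T0 T1, ?_, fun z' hz' => ?_⟩
    · simp only [DT.depth, List.length_cons]
      have := max_le h01 h11
      omega
    · unfold DT.eval
      by_cases hb : z' w₀ = true
      · rw [if_pos hb]
        apply h12
        intro w c hc
        by_cases hw0 : w = w₀
        · subst hw0
          rw [Function.update_self] at hc
          rw [hb]
          simpa using hc
        · rw [Function.update_of_ne hw0] at hc
          exact hz' w c hc
      · rw [if_neg hb]
        apply h02
        intro w c hc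
        by_cases hw0 : w = w₀
        · subst hw0
          rw [Function.update_self] at hc
          simp only [Bool.not_eq_true] at hb
          rw [hb]
          simpa using hc
        · rw [Function.update_of_ne hw0] at hc
          exact hz' w c hc

omit hinj in
/-- States which are not bad give small trees. -/
lemma tree (ts : List (Finset V × (V → Bool))) {d : ℕ} (hts : ∀ T ∈ ts, T.1.card ≤ d)
    (f : (V → Bool) → Bool)
    (hf : ∀ T ∈ ts, ∀ X, (∀ v ∈ T.1, X v = T.2 v) → f X = true)
    (hf' : ∀ X, f X = true → ∃ T ∈ ts, ∀ v ∈ T.1, X v = T.2 v) :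
    ∀ (s : ℕ) (π : W → Option Bool) (ω : W ⊕ V → Fin (2 * R + 1)), ¬ Bad blk hv κ ts s π ω →
    ∃ T : DT W, T.depth ≤ d * s ∧ ∀ z : W → Bool, (∀ w b, π w = some b → z w = b) →
      T.eval z = f (osub (psub blk hv κ ω) z) := by
  classical
  intro s
  induction s with
  | zero => intro π ω h; exact absurd trivial h
  | succ s ih =>
    intro π ω hbad
    cases hfst : first blk hv κ ts ω π with
    | none =>
      refine ⟨.leaf false, by simp [DT.depth], fun z hz => ?_⟩
      simp only [DT.eval]
      symm
      by_contra hne
      have hft : f (osub (psub blk hv κ ω) z) = true := by simpa using hne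
      obtain ⟨T, hT, hTX⟩ := hf' _ hft
      unfold first at hfst
      rw [List.find?_eq_none] at hfst
      have := hfst T hT
      simp only [decide_eq_true_eq, not_not] at this
      obtain ⟨v, hvT, hvv⟩ := this
      have h1 := val_const blk hv κ hz hvv
      rw [hTX v hvT] at h1
      cases hh : T.2 v <;> simp [hh] at h1
    | some T =>
      have hTts : T ∈ ts := List.mem_of_find?_eq_some hfst
      have hTf : ¬ fals blk hv κ ω π T := by
        have := List.find?_some hfst
        simpa using this
      by_cases hne : (stars blk hv κ ω π T.1).Nonempty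
      · have hall : ∀ z : W → Bool, ¬ Bad blk hv κ ts s (upd blk π (stars blk hv κ ω π T.1) z) ω :=
          fun z hz => hbad ⟨T, hfst, hne, z, hz⟩
        obtain ⟨T', h1, h2⟩ := askAll (fun z => f (osub (psub blk hv κ ω) z)) (d * s)
          (((stars blk hv κ ω π T.1).image blk).toList) π (fun z => by
            obtain ⟨T', h1, h2⟩ := ih _ ω (hall z)
            refine ⟨T', h1, fun z' hz' => h2 z' (fun w b hb => hz' w b ?_)⟩
            unfold upd at hb
            by_cases hw : ∃ v ∈ stars blk hv κ ω π T.1, blk v = w
            · rw [if_pos hw] at hb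
              rw [if_pos (by simpa using hw)]
              exact hb
            · rw [if_neg hw] at hb
              rw [if_neg (by simpa using hw)]
              exact hb)
        refine ⟨T', ?_, h2⟩
        have h3 : (((stars blk hv κ ω π T.1).image blk).toList).length ≤ d := by
          rw [Finset.length_toList]
          calc ((stars blk hv κ ω π T.1).image blk).card ≤ (stars blk hv κ ω π T.1).card :=
                Finset.card_image_le
            _ ≤ T.1.card := Finset.card_filter_le _ _
            _ ≤ d := hts T hTts
        calc T'.depth ≤ _ + d * s := h1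
          _ ≤ d + d * s := by omega
          _ = d * (s + 1) := by ring
      · refine ⟨.leaf true, by simp [DT.depth], fun z hz => ?_⟩
        simp only [DT.eval]
        symm
        apply hf T hTts
        intro v hvT
        rw [Finset.not_nonempty_iff_eq_empty] at hne
        have hval : val blk hv κ ω π v ≠ none := by
          intro h0
          have : v ∈ stars blk hv κ ω π T.1 := by
            unfold stars
            rw [Finset.mem_filter]
            exact ⟨hvT, h0⟩
          rw [hne] at this
          simp at this
        obtain ⟨b, hb⟩ := Option.ne_none_iff_exists'.mp hval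
        have h1 := val_const blk hv κ hz hb
        rw [h1]
        by_contra hbn
        apply hTf
        refine ⟨v, hvT, ?_⟩
        rw [hb]
        congr 1
        cases b <;> cases hh : T.2 v <;> simp_all

end SW

open SW in
theorem t_SW : S_SW := by
  classical
  intro V W _ _ _ _ blk hv κ hinj f d s R hcert B hB
  set ts : List (Finset V × (V → Bool)) :=
    ((Finset.univ : Finset (Finset V × (V → Bool))).filter (fun T => T.1.card ≤ d ∧
      ∀ X, (∀ v ∈ T.1, X v = T.2 v) → f X = true)).toList with hts
  have hmem : ∀ T, T ∈ ts ↔ (T.1.card ≤ d ∧ ∀ X, (∀ v ∈ T.1, X v = T.2 v) → f X = true) := by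
    intro T
    rw [hts, Finset.mem_toList, Finset.mem_filter]
    simp
  have hbad : ∀ ω ∈ B, Bad blk hv κ ts s (fun _ => none) ω := by
    intro ω hω
    by_contra hb
    obtain ⟨T, h1, h2⟩ := tree blk hv κ ts (fun T hT => ((hmem T).mp hT).1) f
      (fun T hT => ((hmem T).mp hT).2)
      (fun X hX => by
        obtain ⟨S, hS, hS'⟩ := hcert X hX
        exact ⟨(S, X), (hmem _).mpr ⟨hS, hS'⟩, fun v _ => rfl⟩) s _ ω hb
    exact hB ω hω ⟨T, h1, fun z => h2 z (fun w b hwb => by cases hwb)⟩
  have hcov : ∀ p : (W ⊕ V → Fin (2 * R + 1)) × (Fin s → Fin R),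
      ∃ q : (W ⊕ V → Fin (2 * R + 1)) × (Fin s → (Fin d → Bool × Bool)),
      p.1 ∈ B → dec blk hv κ ts s (fun _ => none) q.1 q.2 = (p.1, fun i => (p.2 i : ℕ)) := by
    intro p
    by_cases hp : p.1 ∈ B
    · obtain ⟨ω', adv, h, _⟩ := cover blk hv κ hinj ts (fun T hT => ((hmem T).mp hT).1) s _ p.1
        (hbad p.1 hp) p.2
      exact ⟨(ω', adv), fun _ => h⟩
    · exact ⟨(p.1, fun _ _ => (false, false)), fun h => absurd h hp⟩
  choose F hF using hcov
  have hcard : (B ×ˢ (Finset.univ : Finset (Fin s → Fin R))).card ≤
      (Finset.univ : Finset ((W ⊕ V → Fin (2 * R + 1)) ×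
        (Fin s → (Fin d → Bool × Bool)))).card := by
    apply Finset.card_le_card_of_injOn F
    · intro p _
      simp
    · intro p hp p' hp' he
      have hpB : p.1 ∈ B := (Finset.mem_product.mp (Finset.mem_coe.mp hp)).1
      have hpB' : p'.1 ∈ B := (Finset.mem_product.mp (Finset.mem_coe.mp hp')).1
      have h1 := hF p hpB
      have h2 := hF p' hpB'
      rw [he, h2] at h1
      rw [Prod.mk.injEq] at h1
      refine Prod.ext h1.1.symm ?_
      funext i
      exact Fin.ext (congrFun h1.2 i).symm
  rw [Finset.card_product] at hcard
  simp only [Finset.card_univ, Fintype.card_prod, Fintype.card_fun, Fintype.card_fin,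
    Fintype.card_sum, Fintype.card_bool] at hcard
  calc B.card * R ^ s ≤ _ := hcard
    _ = _ := by
      rw [← pow_mul, pow_mul]

end Pool.Agent.OWH
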